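import Pool.Agent.CRD.F2.Stmts

/-!
# AV1: the dimension drops by intersecting with the complement of an open set which meets every
irreducible component
-/

open TopologicalSpace Topology

namespace Pool.CRD

theorem AV1_aux (T : Type) [TopologicalSpace T] (V : Set T) (hV : IsOpen V)
    (h : ∀ Z ∈ irreducibleComponents T, (Z ∩ V).Nonempty) (p : LTSeries (IrreducibleCloseds ↥(Vᶜ))) :
    ((p.length + 1 : ℕ) : WithBot ℕ∞) ≤ topologicalKrullDim T := by
  have hind : IsInducing (Subtype.val : ↥(Vᶜ) → T) := IsInducing.subtypeVal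
  let q : LTSeries (IrreducibleCloseds T) :=
    p.map (IrreducibleCloseds.map Subtype.val hind.continuous)
      (IrreducibleCloseds.map_strictMono_of_isInducing hind)
  have hsub : (q.last : Set T) ⊆ Vᶜ := by
    change closure (Subtype.val '' (p.last : Set ↥(Vᶜ))) ⊆ Vᶜ
    apply closure_minimal
    · rintro _ ⟨x, -, rfl⟩
      exact x.2
    · exact hV.isClosed_compl
  obtain ⟨W, hW, hle⟩ := exists_mem_irreducibleComponents_subset_of_isIrreducible
    (q.last : Set T) q.last.isIrreducible
  let W' : IrreducibleCloseds T := ⟨W, hW.1, isClosed_of_mem_irreducibleComponents W hW⟩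
  have hlt : q.last < W' := by
    refine lt_of_le_of_ne hle ?_
    intro heq
    obtain ⟨x, hx1, hx2⟩ := h W hW
    have hx3 : x ∈ (q.last : Set T) := by
      rw [heq]; exact hx1
    exact hsub hx3 hx2
  let r : LTSeries (IrreducibleCloseds T) := q.snoc W' hlt
  have hr : r.length = p.length + 1 := rfl
  rw [← hr]
  exact Order.LTSeries.length_le_krullDim r

theorem pf_AV1 : Stmt_AV1 := by
  intro T _ _ V hV h n
  constructor
  · intro hT
    refine iSup_le ?_
    intro p
    have h1 := (AV1_aux T V hV h p).trans hT
    have h2 : p.length + 1 ≤ n + 1 := by exact_mod_cast h1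
    have h3 : p.length ≤ n := by omega
    exact_mod_cast h3
  · intro hT
    by_contra hne
    obtain ⟨x, hx⟩ := Set.nonempty_iff_ne_empty.mpr hne
    let Z : IrreducibleCloseds ↥(Vᶜ) :=
      ⟨closure {⟨x, hx⟩}, isIrreducible_singleton.closure, isClosed_closure⟩
    have h1 := (AV1_aux T V hV h (RelSeries.singleton _ Z)).trans hT
    have h2 : (RelSeries.singleton {(a, b) : IrreducibleCloseds ↥(Vᶜ) × _ | a < b} Z).length + 1
        ≤ 0 := by exact_mod_cast h1
    simp at h2

end Pool.CRD
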