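import Pool.Agent.CRD.F2.Stmts

/-!
# CRD / F2: a linear form not vanishing at finitely many points
-/

open CategoryTheory AlgebraicGeometry Limits Opposite TensorProduct

namespace Pool.CRD

attribute [local instance] MvPolynomial.gradedAlgebra

namespace AV2_

/-- the linear form with given coefficients -/
noncomputable def lf {K : Type} [Field K] {n : ℕ} :
    (Fin (n + 1) → K) →ₗ[K] MvPolynomial (Fin (n + 1)) K where
  toFun c := ∑ k, MvPolynomial.C (c k) * MvPolynomial.X k
  map_add' c d := by
    simp only [Pi.add_apply, map_add, add_mul, Finset.sum_add_distrib]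
  map_smul' a c := by
    simp only [Pi.smul_apply, smul_eq_mul, map_mul, RingHom.id_apply, Finset.smul_sum,
      MvPolynomial.smul_eq_C_mul, mul_assoc]

lemma lf_apply {K : Type} [Field K] {n : ℕ} (c : Fin (n + 1) → K) :
    lf c = ∑ k, MvPolynomial.C (c k) * MvPolynomial.X k := rfl

lemma lf_hom {K : Type} [Field K] {n : ℕ} (c : Fin (n + 1) → K) : (lf c).IsHomogeneous 1 := by
  rw [lf_apply]
  apply MvPolynomial.IsHomogeneous.sum
  intro i _
  exact MvPolynomial.isHomogeneous_C_mul_X _ _

lemma lf_single {K : Type} [Field K] {n : ℕ} (k : Fin (n + 1)) :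
    lf (Pi.single k (1 : K)) = MvPolynomial.X k := by
  rw [lf_apply, Finset.sum_eq_single k]
  · simp
  · intro j _ hj
    rw [Pi.single_eq_of_ne hj]
    simp
  · simp

end AV2_

open AV2_

theorem av2_proof : Stmt_AV2 := by
  classical
  intro K _ _ n S hS
  let I : ProjSp n K → Ideal (MvPolynomial (Fin (n + 1)) K) := fun p =>
    HomogeneousIdeal.toIdeal (ProjectiveSpectrum.asHomogeneousIdeal
      (𝒜 := MvPolynomial.homogeneousSubmodule (Fin (n + 1)) K) p)
  let W : ProjSp n K → Subspace K (Fin (n + 1) → K) := fun p =>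
    Submodule.comap lf ((I p).restrictScalars K)
  have hW : ∀ p, W p ≠ ⊤ := by
    intro p hp
    let q : Proj (MvPolynomial.homogeneousSubmodule (Fin (n + 1)) K) := p
    apply q.not_irrelevant_le
    intro f hf
    have hX : ∀ k, (MvPolynomial.X k : MvPolynomial (Fin (n + 1)) K) ∈
        q.asHomogeneousIdeal.toIdeal := by
      intro k
      have h1 : (Pi.single k (1 : K)) ∈ W p := by rw [hp]; trivial
      have h2 : lf (Pi.single k (1 : K)) ∈ q.asHomogeneousIdeal.toIdeal := h1
      rwa [lf_single] at h2
    have hspan : f ∈ Ideal.span (MvPolynomial.X '' (Set.univ : Set (Fin (n + 1))) :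
        Set (MvPolynomial (Fin (n + 1)) K)) := by
      rw [MvPolynomial.mem_ideal_span_X_image]
      intro m hm
      by_contra hc
      push Not at hc
      have hm0 : m = 0 := by
        ext i
        exact hc i trivial
      have h3 : GradedRing.proj (MvPolynomial.homogeneousSubmodule (Fin (n + 1)) K) 0 f = 0 := hf
      have h4 : GradedRing.proj (MvPolynomial.homogeneousSubmodule (Fin (n + 1)) K) 0 f =
          MvPolynomial.homogeneousComponent 0 f :=
        MvPolynomial.decomposition.decompose'_apply f 0
      rw [h4, MvPolynomial.homogeneousComponent_zero, MvPolynomial.C_eq_zero] at h3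
      rw [hm0] at hm
      exact (MvPolynomial.mem_support_iff.1 hm) h3
    have hle : Ideal.span (MvPolynomial.X '' (Set.univ : Set (Fin (n + 1))) :
        Set (MvPolynomial (Fin (n + 1)) K)) ≤ q.asHomogeneousIdeal.toIdeal := by
      rw [Ideal.span_le]
      rintro _ ⟨k, -, rfl⟩
      exact hX k
    exact hle hspan
  have h1 := Subspace.biUnion_ne_univ_of_top_notMem (k := K) (E := Fin (n + 1) → K)
    (s := hS.toFinset.image W) (by
      intro h
      obtain ⟨p, -, hp⟩ := Finset.mem_image.1 h
      exact hW p hp)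
  rw [Set.ne_univ_iff_exists_notMem] at h1
  obtain ⟨c, hc⟩ := h1
  refine ⟨lf c, lf_hom c, ?_⟩
  intro p hp
  have h2 : c ∉ W p := by
    intro h3
    apply hc
    simp only [Set.mem_iUnion]
    exact ⟨W p, Finset.mem_image.2 ⟨p, hS.mem_toFinset.2 hp, rfl⟩, h3⟩
  exact h2

end Pool.CRD
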