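import Pool.Agent.CRD.F2.Stmts

/-!
# CRD, area F2: linear forms without common zero on a closed subset of projective space
-/

set_option autoImplicit false

open CategoryTheory AlgebraicGeometry Limits Opposite Polynomial TensorProduct

namespace Pool.CRD

noncomputable section

attribute [local instance] MvPolynomial.gradedAlgebra

namespace AV3_

theorem noeth_spectrum {A : Type} [CommRing A] [IsNoetherianRing A] {S : Type} [SetLike S A]
    [AddSubmonoidClass S A] (𝒜 : ℕ → S) [GradedRing 𝒜] :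
    TopologicalSpace.NoetherianSpace (ProjectiveSpectrum 𝒜) := by
  refine ((TopologicalSpace.noetherianSpace_TFAE (ProjectiveSpectrum 𝒜)).out 0 1).2 ?_
  have hf : StrictAnti (fun s : TopologicalSpace.Closeds (ProjectiveSpectrum 𝒜) =>
      (ProjectiveSpectrum.vanishingIdeal (s : Set (ProjectiveSpectrum 𝒜))).toIdeal) := by
    intro s t hst
    have hle : (ProjectiveSpectrum.vanishingIdeal (t : Set (ProjectiveSpectrum 𝒜))).toIdeal ≤
        (ProjectiveSpectrum.vanishingIdeal (s : Set (ProjectiveSpectrum 𝒜))).toIdeal :=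
      ProjectiveSpectrum.vanishingIdeal_anti_mono 𝒜 hst.le
    refine lt_of_le_of_ne hle fun h => ?_
    have h2 : (ProjectiveSpectrum.vanishingIdeal (t : Set (ProjectiveSpectrum 𝒜)) : Set A) =
        (ProjectiveSpectrum.vanishingIdeal (s : Set (ProjectiveSpectrum 𝒜)) : Set A) :=
      congrArg (fun I : Ideal A => (I : Set A)) h
    have h3 : closure (t : Set (ProjectiveSpectrum 𝒜)) = closure (s : Set (ProjectiveSpectrum 𝒜)) := by
      rw [← ProjectiveSpectrum.zeroLocus_vanishingIdeal_eq_closure,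
        ← ProjectiveSpectrum.zeroLocus_vanishingIdeal_eq_closure, h2]
    rw [t.isClosed.closure_eq, s.isClosed.closure_eq] at h3
    exact hst.ne (TopologicalSpace.Closeds.ext h3.symm)
  exact hf.wellFoundedLT

theorem noeth (K : Type) [Field K] (n : ℕ) : TopologicalSpace.NoetherianSpace (ProjSp n K) :=
  noeth_spectrum (MvPolynomial.homogeneousSubmodule (Fin (n + 1)) K)

/-- the linear form which is nonzero somewhere on every component -/
theorem step (hAV2 : Stmt_AV2) (K : Type) [Field K] [Infinite K] (n : ℕ)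
    (Z : Set (ProjSp n K)) (hZ : IsClosed Z) :
    ∃ g : MvPolynomial (Fin (n + 1)) K, g.IsHomogeneous 1 ∧
      ∀ Y ∈ irreducibleComponents Z, (Y ∩ {t : Z | (t : ProjSp n K) ∈ bo g}).Nonempty := by
  haveI := noeth K n
  haveI : QuasiSober Z := hZ.isClosedEmbedding_subtypeVal.quasiSober
  have hgen : ∀ Y ∈ irreducibleComponents Z, ∃ x : Z, IsGenericPoint x Y := by
    intro Y hY
    exact QuasiSober.sober hY.1 (isClosed_of_mem_irreducibleComponents Y hY)
  choose p hp using hgen
  have hfin : (irreducibleComponents Z).Finite :=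
    TopologicalSpace.NoetherianSpace.finite_irreducibleComponents
  have := hfin.to_subtype
  obtain ⟨g, hg, hg2⟩ := hAV2 K n
    (Set.range fun Y : irreducibleComponents Z => (p Y.1 Y.2 : ProjSp n K)) (Set.finite_range _)
  refine ⟨g, hg, fun Y hY => ⟨p Y hY, (hp Y hY).mem, hg2 _ ⟨⟨Y, hY⟩, rfl⟩⟩⟩

theorem main (hAV1 : Stmt_AV1) (hAV2 : Stmt_AV2) (K : Type) [Field K] [Infinite K] (n d : ℕ) :
    ∀ Z : Set (ProjSp n K), IsClosed Z → topologicalKrullDim Z ≤ d →
    ∃ l : Fin (d + 1) → MvPolynomial (Fin (n + 1)) K, (∀ j, (l j).IsHomogeneous 1) ∧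
      ∀ p ∈ Z, ∃ j, p ∈ bo (l j) := by
  haveI := noeth K n
  induction d with
  | zero =>
    intro Z hZ hd
    obtain ⟨g, hg, hg2⟩ := step hAV2 K n Z hZ
    have hopen : IsOpen {t : Z | (t : ProjSp n K) ∈ bo g} :=
      (bo g).isOpen.preimage continuous_subtype_val
    have h := (hAV1 Z _ hopen hg2 0).2 hd
    refine ⟨fun _ => g, fun _ => hg, fun q hq => ⟨0, ?_⟩⟩
    by_contra hc
    have : (⟨q, hq⟩ : Z) ∈ ({t : Z | (t : ProjSp n K) ∈ bo g}ᶜ : Set Z) := hc
    rw [h] at this
    exact this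
  | succ d ih =>
    intro Z hZ hd
    obtain ⟨g, hg, hg2⟩ := step hAV2 K n Z hZ
    have hopen : IsOpen {t : Z | (t : ProjSp n K) ∈ bo g} :=
      (bo g).isOpen.preimage continuous_subtype_val
    have h := (hAV1 Z _ hopen hg2 d).1 hd
    let Z' : Set (ProjSp n K) := Z ∩ ((bo g : (ProjSp n K).Opens) : Set (ProjSp n K))ᶜ
    have hZ' : IsClosed Z' := hZ.inter (bo g).isOpen.isClosed_compl
    let φ : Z' → ↥({t : Z | (t : ProjSp n K) ∈ bo g}ᶜ : Set Z) :=
      fun x => ⟨⟨x.1, x.2.1⟩, x.2.2⟩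
    have hφ : Topology.IsInducing φ := by
      refine Topology.IsInducing.of_comp
        (g := fun y : ↥({t : Z | (t : ProjSp n K) ∈ bo g}ᶜ : Set Z) => ((y : Z) : ProjSp n K))
        ?_ ?_ ?_
      · exact (continuous_subtype_val.subtype_mk _).subtype_mk _
      · exact continuous_subtype_val.comp continuous_subtype_val
      · exact Topology.IsInducing.subtypeVal
    obtain ⟨l, hl, hl2⟩ := ih Z' hZ' (hφ.topologicalKrullDim_le.trans h)
    refine ⟨Fin.cons g l, fun j => ?_, fun q hq => ?_⟩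
    · refine Fin.cases ?_ (fun j => ?_) j
      · simpa using hg
      · simpa using hl j
    · by_cases hc : q ∈ bo g
      · exact ⟨0, by simpa using hc⟩
      · obtain ⟨j, hj⟩ := hl2 q ⟨hq, hc⟩
        exact ⟨j.succ, by simpa using hj⟩

end AV3_

open AV3_ in
theorem av3_proof (hAV1 : Stmt_AV1) (hAV2 : Stmt_AV2) : Stmt_AV3 := by
  intro K _ _ n d Z hZ hd
  exact main hAV1 hAV2 K n d Z hZ hd

end

end Pool.CRD
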