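import Pool.Agent.CRD.F2.Stmts

/-!
# CRD, area F2, module AV4: linear systems exist
-/

open CategoryTheory AlgebraicGeometry Limits Opposite Polynomial TensorProduct

namespace Pool.CRD

theorem av4 (av3 : Stmt_AV3) : Stmt_AV4 := by
  intro K _ _ Y ⟨n, i, hi, hcomp⟩ hd
  have hce := hi.isClosedEmbedding
  have hdim : topologicalKrullDim (Set.range i) ≤ (2 : ℕ) := by
    have h1 := IsHomeomorph.topologicalKrullDim_eq _
      (hce.isEmbedding.toHomeomorph).isHomeomorph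
    rw [← h1]
    exact_mod_cast hd
  obtain ⟨l, hl, hcov⟩ := av3 K n 2 (Set.range i) hce.isClosed_range hdim
  refine ⟨n, i, l, ⟨hi, hcomp, hl, ?_⟩⟩
  rw [eq_top_iff]
  intro x _
  obtain ⟨j, hj⟩ := hcov (i x) ⟨x, rfl⟩
  rw [TopologicalSpace.Opens.mem_iSup]
  exact ⟨j, hj⟩

end Pool.CRD
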