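import Pool.Agent.CRD.F2.Stmts

/-!
# CRD, area F2: module BCH (base change of a cover)
-/

open CategoryTheory AlgebraicGeometry Limits Opposite Polynomial TensorProduct

namespace Pool.CRD

noncomputable section

namespace BCH_

variable {B K : Type} [CommRing B] [Field K] [Algebra B K]

/-- the `K`-point -/
abbrev pt (B K : Type) [CommRing B] [Field K] [Algebra B K] :
    Spec (CommRingCat.of K) ⟶ Spec (CommRingCat.of B) :=
  Spec.map (CommRingCat.ofHom (algebraMap B K))

variable {X : Scheme.{0}} (π : X ⟶ Spec (CommRingCat.of B))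

/-- the open of the fibre -/
abbrev opnY (U : X.Opens) : (pullback π (pt B K)).Opens := pullback.fst π (pt B K) ⁻¹ᵁ U

lemma appLE_top {Z : Scheme.{0}} {R : CommRingCat.{0}} (f : Z ⟶ Spec R) (U : Z.Opens) :
    f.appLE ⊤ U le_top = f.appTop ≫ Z.presheaf.map (homOfLE le_top).op := rfl

lemma push (U : X.Opens) (hU : IsAffineOpen U) :
    IsPushout (CommRingCat.ofHom (cstB π U)) (CommRingCat.ofHom (algebraMap B K))
      ((pullback.fst π (pt B K)).app U)
      (CommRingCat.ofHom (cstB (pullback.snd π (pt B K)) (opnY (K := K) π U))) := by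
  have H : IsPullback (pullback.fst π (pt B K)) (pullback.snd π (pt B K)) π (pt B K) :=
    IsPullback.of_hasPullback _ _
  have hUY : opnY (K := K) π U = pullback.fst π (pt B K) ⁻¹ᵁ U ⊓
      pullback.snd π (pt B K) ⁻¹ᵁ ⊤ := by
    simp
  have h1 := isIso_pushoutSection_of_isAffineOpen H (US := ⊤) (UT := ⊤) (UX := U)
    (UY := opnY (K := K) π U) (by simp) (by simp) hUY (isAffineOpen_top _) (isAffineOpen_top _) hU
  have h2 := (isIso_pushoutSection_iff H (US := ⊤) (UT := ⊤) (UX := U)
    (UY := opnY (K := K) π U) (by simp) (by simp) hUY).1 h1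
  refine h2.of_iso (Scheme.ΓSpecIso (CommRingCat.of B)) (Iso.refl _)
    (Scheme.ΓSpecIso (CommRingCat.of K)) (Iso.refl _) ?_ ?_ ?_ ?_
  · rw [appLE_top]
    ext x
    simp [cstB]
  · rw [appLE_top]
    rw [← Iso.inv_comp_eq]
    ext x
    simp
  · rw [← Scheme.Hom.appLE_eq_app]
    simp
  · rw [appLE_top]
    ext x
    simp [cstB]


section cov
variable {C : Type} [SemilatticeInf C] {E : Type} [CommRing E] [Algebra B E]
  {A : C → Subalgebra B E} {hA : ∀ {s t : C}, t ≤ s → A s ≤ A t} (c : RelCov π A hA)

/-- pull back of functions -/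
def al (s : C) : A s →+* Γ(pullback π (pt B K), opnY (K := K) π (c.opn s)) :=
  ((pullback.fst π (pt B K)).app (c.opn s)).hom.comp (c.φ s : A s →+* Γ(X, c.opn s))

lemma al_cst (s : C) (b : B) : al (K := K) π c s (algebraMap B (A s) b) =
    cstB (pullback.snd π (pt B K)) (opnY (K := K) π (c.opn s)) (algebraMap B K b) := by
  have h := (push (K := K) π (c.opn s) (c.aff s)).w
  have h1 := congrArg (fun f => f.hom b) h
  change _ = (cstB (pullback.snd π (pt B K)) (opnY (K := K) π (c.opn s))) (algebraMap B K b) at h1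
  rw [← h1]
  change ((pullback.fst π (pt B K)).app (c.opn s)).hom (c.φ s (algebraMap B (A s) b)) = _
  rw [c.φ_cst]
  rfl

/-- functions on the fibre -/
lemma exE (s : C) : ∃ e : K ⊗[B] A s ≃+* Γ(pullback π (pt B K), opnY (K := K) π (c.opn s)),
    ∀ (k : K) (a : A s), e (k ⊗ₜ a) =
      cstB (pullback.snd π (pt B K)) (opnY (K := K) π (c.opn s)) k * al (K := K) π c s a := by
  let i1 : Algebra K Γ(pullback π (pt B K), opnY (K := K) π (c.opn s)) :=
    (cstB (pullback.snd π (pt B K)) (opnY (K := K) π (c.opn s))).toAlgebra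
  let i2 : Algebra (A s) Γ(pullback π (pt B K), opnY (K := K) π (c.opn s)) :=
    (al (K := K) π c s).toAlgebra
  let i3 : Algebra B Γ(pullback π (pt B K), opnY (K := K) π (c.opn s)) :=
    ((cstB (pullback.snd π (pt B K)) (opnY (K := K) π (c.opn s))).comp
      (algebraMap B K)).toAlgebra
  have i4 : IsScalarTower B K Γ(pullback π (pt B K), opnY (K := K) π (c.opn s)) :=
    IsScalarTower.of_algebraMap_eq (fun _ => rfl)
  have i5 : IsScalarTower B (A s) Γ(pullback π (pt B K), opnY (K := K) π (c.opn s)) := by
    refine IsScalarTower.of_algebraMap_eq (fun b => ?_)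
    change cstB (pullback.snd π (pt B K)) (opnY (K := K) π (c.opn s)) (algebraMap B K b) =
      al (K := K) π c s (algebraMap B (A s) b)
    exact (al_cst π c s b).symm
  have h := push (K := K) π (c.opn s) (c.aff s)
  have h2 : IsPushout (CommRingCat.ofHom (algebraMap B (A s)))
      (CommRingCat.ofHom (algebraMap B K))
      (CommRingCat.ofHom (algebraMap (A s)
        Γ(pullback π (pt B K), opnY (K := K) π (c.opn s))))
      (CommRingCat.ofHom (algebraMap K
        Γ(pullback π (pt B K), opnY (K := K) π (c.opn s)))) := by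
    refine h.of_iso (Iso.refl _) (c.φ s).symm.toCommRingCatIso (Iso.refl _) (Iso.refl _)
      ?_ ?_ ?_ ?_
    · apply CommRingCat.hom_ext
      refine RingHom.ext fun b => ?_
      change (c.φ s).symm (cstB π (c.opn s) b) = algebraMap B (A s) b
      rw [← c.φ_cst, RingEquiv.symm_apply_apply]
    · rfl
    · ext y
      change ((pullback.fst π (pt B K)).app (c.opn s)).hom y =
        ((pullback.fst π (pt B K)).app (c.opn s)).hom (c.φ s ((c.φ s).symm y))
      rw [RingEquiv.apply_symm_apply]
    · rfl
  have h3 : Algebra.IsPushout B K (A s)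
      Γ(pullback π (pt B K), opnY (K := K) π (c.opn s)) :=
    CommRingCat.isPushout_iff_isPushout.1 h2.flip
  refine ⟨(Algebra.IsPushout.equiv B K (A s) _).toRingEquiv, fun k a => ?_⟩
  exact Algebra.IsPushout.equiv_tmul _ _ _ _ k a

/-- naturality -/
lemma al_map {s t : C} (h : t ≤ s) (a : A s)
    (hle : opnY (K := K) π (c.opn t) ≤ opnY (K := K) π (c.opn s)) :
    al (K := K) π c t (Subalgebra.inclusion (hA h) a) =
      (pullback π (pt B K)).presheaf.map (homOfLE hle).op (al (K := K) π c s a) := by
  change ((pullback.fst π (pt B K)).app (c.opn t)).hom (c.φ t (Subalgebra.inclusion (hA h) a)) =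
    ((pullback π (pt B K)).presheaf.map (homOfLE hle).op).hom
      (((pullback.fst π (pt B K)).app (c.opn s)).hom (c.φ s a))
  rw [c.φ_map h a]
  have := (pullback.fst π (pt B K)).naturality (homOfLE (c.opn_mono h)).op
  exact congrArg (fun f => f.hom (c.φ s a)) this

lemma cst_map {Z : Scheme.{0}} (f : Z ⟶ Spec (CommRingCat.of K)) {U V : Z.Opens} (h : V ≤ U)
    (k : K) : Z.presheaf.map (homOfLE h).op (cstB f U k) = cstB f V k := by
  simp only [cstB, RingHom.comp_apply]
  change ((f.appTop ≫ Z.presheaf.map (homOfLE le_top).op) ≫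
    Z.presheaf.map (homOfLE h).op).hom _ = _
  rw [Category.assoc, ← Functor.map_comp]
  rfl

end cov

end BCH_

open BCH_ in
theorem bch_proof : Stmt_BCH := by
  intro B _ X π _ C _ E _ _ A hA c K _ _ E₂ _ _ _ _ A₂ hA₂ θ hfr hθ
  choose e he using exE (K := K) π c
  -- the comparison with the subalgebras
  let g : ∀ s, K ⊗[B] A s ≃+* A₂ s := fun s =>
    (RingEquiv.ofBijective ((frMap B K (θ s)).codRestrict (A₂ s) (fun x => by
      rw [← (hfr s).rng]; exact ⟨x, rfl⟩)) ⟨fun x y hxy => (hfr s).inj (congrArg Subtype.val hxy),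
      fun y => by
        obtain ⟨y, hy⟩ := y
        rw [← (hfr s).rng] at hy
        obtain ⟨x, hx⟩ := hy
        exact ⟨x, Subtype.ext hx⟩⟩)
  have hg : ∀ s (k : K) (a : A s), (g s (k ⊗ₜ a) : E₂) = algebraMap K E₂ k * θ s a :=
    fun s k a => rfl
  have hg1 : ∀ s (k : K), g s (k ⊗ₜ 1) = algebraMap K (A₂ s) k := by
    intro s k
    apply Subtype.ext
    rw [hg, map_one, mul_one]
    rfl
  have hle : ∀ {s t : C}, t ≤ s → opnY (K := K) π (c.opn t) ≤ opnY (K := K) π (c.opn s) :=
    fun h x hx => c.opn_mono h hx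
  have hcov : (⨆ s, opnY (K := K) π (c.opn s) : (pullback π (pt B K)).Opens) = ⊤ := by
    have := c.cov
    rw [← Scheme.Hom.preimage_iSup, this]
    rfl
  have ha1 : IsAffineHom (pt B K) := inferInstance
  have ha2 : IsAffineHom (pullback.fst π (pt B K)) :=
    MorphismProperty.of_isPullback (P := @IsAffineHom)
      (IsPullback.of_hasPullback π (pt B K)).flip ha1
  have haff : ∀ s, IsAffineOpen (opnY (K := K) π (c.opn s)) := fun s =>
    (c.aff s).preimage (pullback.fst π (pt B K))
  refine ⟨{ opn := fun s => opnY (K := K) π (c.opn s)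
            opn_inf := fun s t => by
              rw [c.opn_inf]
              rfl
            aff := haff
            cov := hcov
            φ := fun s => (g s).symm.trans (e s)
            φ_map := ?_
            φ_cst := ?_ }⟩
  · intro s t h r
    obtain ⟨y, rfl⟩ := (g s).surjective r
    change e t ((g t).symm (Subalgebra.inclusion (hA₂ h) (g s y))) =
      (pullback π (pt B K)).presheaf.map (homOfLE (hle h)).op (e s ((g s).symm (g s y)))
    rw [RingEquiv.symm_apply_apply]
    induction y using TensorProduct.induction_on with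
    | zero => simp only [map_zero]
    | tmul k a =>
      have h1 : Subalgebra.inclusion (hA₂ h) (g s (k ⊗ₜ a)) =
          g t (k ⊗ₜ Subalgebra.inclusion (hA h) a) := by
        apply Subtype.ext
        change (g s (k ⊗ₜ a) : E₂) = _
        rw [hg, hg, hθ h a]
      rw [h1, RingEquiv.symm_apply_apply, he, he, al_map π c h a (hle h)]
      change _ = ((pullback π (pt B K)).presheaf.map (homOfLE (hle h)).op).hom _
      rw [map_mul]
      congr 1
      exact (cst_map (pullback.snd π (pt B K)) (hle h) k).symm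
    | add x y hx hy =>
      have e1 : Subalgebra.inclusion (hA₂ h) (g s (x + y)) =
          Subalgebra.inclusion (hA₂ h) (g s x) + Subalgebra.inclusion (hA₂ h) (g s y) := by
        rw [map_add, map_add]
      rw [e1, map_add, map_add, hx, hy, map_add]
      exact (map_add ((pullback π (pt B K)).presheaf.map (homOfLE (hle h)).op).hom _ _).symm
  · intro s k
    change e s ((g s).symm (algebraMap K (A₂ s) k)) = _
    rw [← hg1, RingEquiv.symm_apply_apply, he, map_one, mul_one]
    rfl

end

end Pool.CRD
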