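import Pool.Agent.CRD.F2.Stmts

/-!
# CRD, area F2: module BCJ (base change of a cover, for algebras of pairs)
-/

open CategoryTheory AlgebraicGeometry Limits Opposite Polynomial TensorProduct

namespace Pool.CRD

noncomputable section

namespace BCJ_

lemma fr_equiv {B K : Type} [CommRing B] [Field K] [Algebra B K] {R R' E : Type} [CommRing R]
    [Algebra B R] [CommRing R'] [Algebra B R'] [CommRing E] [Algebra K E] [Algebra B E]
    [IsScalarTower B K E] {θ : R →ₐ[B] E} {A : Subalgebra K E} (h : Fr B K θ A)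
    (f : R' ≃ₐ[B] R) : Fr B K (θ.comp (f : R' →ₐ[B] R)) A := by
  let g : K ⊗[B] R' ≃ₐ[K] K ⊗[B] R := Algebra.TensorProduct.congr AlgEquiv.refl f
  have hg : frMap B K (θ.comp (f : R' →ₐ[B] R)) =
      (frMap B K θ).comp (g : K ⊗[B] R' →ₐ[K] K ⊗[B] R) := by
    ext x
    simp [frMap, g]
  constructor
  · rw [hg]
    exact h.inj.comp g.injective
  · rw [hg, ← h.rng]
    ext y
    constructor
    · rintro ⟨x, rfl⟩
      exact ⟨g x, rfl⟩
    · rintro ⟨x, rfl⟩
      obtain ⟨x, rfl⟩ := g.surjective x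
      exact ⟨x, rfl⟩

/-- the first projection as an equivalence -/
def fe {B E' E'' : Type} [CommRing B] [CommRing E'] [CommRing E''] [Algebra B E'] [Algebra B E'']
    (J : Subalgebra B (E' × E'')) (hi : ∀ p ∈ J, p.1 = 0 → p = 0) :
    J ≃ₐ[B] (J.map (AlgHom.fst B E' E'')) :=
  AlgEquiv.ofBijective
    (((AlgHom.fst B E' E'').comp J.val).codRestrict _ (fun x => ⟨x.1, x.2, rfl⟩)) (by
    constructor
    · rw [injective_iff_map_eq_zero]
      intro x hx
      have h1 : (x : E' × E'').1 = 0 := congrArg Subtype.val hx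
      exact Subtype.ext (hi x x.2 h1)
    · rintro ⟨_, x, hx, rfl⟩
      exact ⟨⟨x, hx⟩, rfl⟩)

lemma fe_coe {B E' E'' : Type} [CommRing B] [CommRing E'] [CommRing E''] [Algebra B E']
    [Algebra B E''] (J : Subalgebra B (E' × E'')) (hi : ∀ p ∈ J, p.1 = 0 → p = 0) (x : J) :
    ((fe J hi x : J.map (AlgHom.fst B E' E'')) : E') = (x : E' × E'').1 := rfl

end BCJ_

open BCJ_ in
theorem bcj_proof (hBCH : Stmt_BCH) : Stmt_BCJ := by
  intro B K' K'' _ _ _ _ _ E' E'' _ _ _ _ _ _ _ _ C _ J hJ A' A'' hA'' hgood X π _ hA rc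
  refine hBCH B X π C E' (fun s => (J s).map (AlgHom.fst B E' E'')) hA rc K'' E'' A'' hA''
    (fun s => ((AlgHom.snd B E' E'').comp (J s).val).comp
      ((fe (J s) (hgood s).inj).symm : (J s).map (AlgHom.fst B E' E'') →ₐ[B] J s)) ?_ ?_
  · intro s
    exact fr_equiv (hgood s).fr'' (fe (J s) (hgood s).inj).symm
  · intro s t h r
    obtain ⟨x, rfl⟩ := (fe (J s) (hgood s).inj).surjective r
    have e1 : Subalgebra.inclusion (hA h) (fe (J s) (hgood s).inj x) =
        fe (J t) (hgood t).inj (Subalgebra.inclusion (hJ h) x) := by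
      apply Subtype.ext
      rfl
    rw [e1]
    change ((((fe (J t) (hgood t).inj).symm (fe (J t) (hgood t).inj
      (Subalgebra.inclusion (hJ h) x)) : J t) : E' × E'')).2 =
      ((((fe (J s) (hgood s).inj).symm (fe (J s) (hgood s).inj x) : J s) : E' × E'')).2
    rw [AlgEquiv.symm_apply_apply, AlgEquiv.symm_apply_apply]
    rfl

end

end Pool.CRD
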