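import Pool.Agent.CRD.F2.Stmts

/-!
# CRD, module CH1: the functions `g / l_a` exist
-/

open CategoryTheory AlgebraicGeometry Limits Opposite

namespace Pool.CRD

namespace CH1_

noncomputable section

attribute [local instance] MvPolynomial.gradedAlgebra

open HomogeneousLocalization

variable {K : Type} [Field K] {n : ℕ}

abbrev R (K : Type) [Field K] (n : ℕ) := MvPolynomial (Fin (n + 1)) K

abbrev G (K : Type) [Field K] (n : ℕ) := MvPolynomial.homogeneousSubmodule (Fin (n + 1)) K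

/-- the fraction `x / f ^ m` -/
def fr (f : R K n) (hf : f ∈ G K n 1) (m : ℕ) (x : R K n) (hx : x ∈ G K n m) :
    Away (G K n) f :=
  Away.mk (G K n) hf m x (by simpa using hx)

lemma X_mem (k : Fin (n + 1)) : (MvPolynomial.X k : R K n) ∈ G K n 1 :=
  (MvPolynomial.mem_homogeneousSubmodule _ _).2 (MvPolynomial.isHomogeneous_X K k)

/-- constants -/
def c0 (f : R K n) : K →+* Away (G K n) f :=
  (fromZeroRingHom (G K n) (Submonoid.powers f)).comp (algebraMap K (G K n 0))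

lemma loc_eq (f : R K n) (m : ℕ) (x : R K n) (hx : x ∈ G K n m) :
    Localization.mk x (⟨f ^ m, ⟨m, rfl⟩⟩ : Submonoid.powers f) =
      MvPolynomial.eval₂ ((algebraMap (R K n) (Localization (Submonoid.powers f))).comp
        MvPolynomial.C) (fun k => Localization.mk (MvPolynomial.X k)
          (⟨f ^ 1, ⟨1, rfl⟩⟩ : Submonoid.powers f)) x := by
  set L := Localization (Submonoid.powers f)
  set u : L := Localization.mk 1 (⟨f ^ 1, ⟨1, rfl⟩⟩ : Submonoid.powers f) with hu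
  have h1 : ∀ k : Fin (n + 1), (Localization.mk (MvPolynomial.X k)
      (⟨f ^ 1, ⟨1, rfl⟩⟩ : Submonoid.powers f) : L) =
        algebraMap (R K n) L (MvPolynomial.X k) * u := by
    intro k
    rw [← Localization.mk_one_eq_algebraMap, hu, Localization.mk_mul]
    simp
  have h2 : (Localization.mk x (⟨f ^ m, ⟨m, rfl⟩⟩ : Submonoid.powers f) : L) =
      algebraMap (R K n) L x * u ^ m := by
    rw [← Localization.mk_one_eq_algebraMap, hu, Localization.mk_pow, Localization.mk_mul]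
    congr 1
    · simp
    · apply Subtype.ext
      simp
  rw [h2]
  simp only [h1]
  rw [MvPolynomial.eval₂_eq']
  have hx' : x.IsHomogeneous m := (MvPolynomial.mem_homogeneousSubmodule _ _).1 hx
  conv_lhs => rw [MvPolynomial.as_sum x]
  rw [map_sum, Finset.sum_mul]
  refine Finset.sum_congr rfl fun d hd => ?_
  have hdm : ∑ j, d j = m := by
    have := hx' (MvPolynomial.mem_support_iff.1 hd)
    rw [← this]
    simp [Finsupp.weight_apply, Finsupp.sum_fintype]
  rw [MvPolynomial.monomial_eq, map_mul, Finsupp.prod_fintype _ _ (by simp), map_prod]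
  simp only [mul_pow, Finset.prod_mul_distrib, Finset.prod_pow_eq_pow_sum, hdm, map_pow]
  simp only [RingHom.comp_apply]
  ring

lemma fr_eq (f : R K n) (hf : f ∈ G K n 1) (m : ℕ) (x : R K n) (hx : x ∈ G K n m) :
    fr f hf m x hx = MvPolynomial.eval₂ (c0 f)
      (fun k => fr f hf 1 (MvPolynomial.X k) (X_mem k)) x := by
  apply HomogeneousLocalization.val_injective
  rw [← HomogeneousLocalization.algebraMap_apply, ← HomogeneousLocalization.algebraMap_apply,
    ← MvPolynomial.coe_eval₂Hom, ← RingHom.comp_apply, MvPolynomial.comp_eval₂Hom]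
  exact loc_eq f m x hx

/-! ### schemes -/

lemma cst_of {X : Scheme.{0}} (V : X.Opens) (hV : IsAffineOpen V)
    (π : X ⟶ Spec (CommRingCat.of K)) (φ : CommRingCat.of K ⟶ Γ(X, V))
    (h : V.ι ≫ π = V.toSpecΓ ≫ Spec.map φ) (c : K) : cstU π V c = φ c := by
  have h1 : V.ι ≫ π = V.toSpecΓ ≫ Spec.map ((Scheme.ΓSpecIso (CommRingCat.of K)).inv ≫
      π.appTop ≫ X.presheaf.map (homOfLE le_top).op) := by
    rw [Spec.map_comp, Spec.map_comp, Category.assoc,
      Scheme.Opens.toSpecΓ_SpecMap_presheaf_map_top_assoc,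
      ← Scheme.toSpecΓ_naturality_assoc, toSpecΓ_SpecMap_ΓSpecIso_inv, Category.comp_id]
  haveI : IsIso V.toSpecΓ := by
    rw [← hV.isoSpec_hom]
    infer_instance
  have h2 := (cancel_epi V.toSpecΓ).1 (h1.symm.trans h)
  have h3 := Spec.map_injective h2
  rw [← h3]
  rfl

lemma cstU_comp {X Z : Scheme.{0}} (i : Z ⟶ X) (π : X ⟶ Spec (CommRingCat.of K)) (V : X.Opens)
    (c : K) : cstU (i ≫ π) (i ⁻¹ᵁ V) c = i.app V (cstU π V c) := by
  simp only [cstU, RingHom.comp_apply]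
  have h := i.naturality (homOfLE (le_top : V ≤ ⊤)).op
  have h2 : (i ≫ π).appTop ≫ Z.presheaf.map (homOfLE (le_top : i ⁻¹ᵁ V ≤ ⊤)).op =
      π.appTop ≫ X.presheaf.map (homOfLE (le_top : V ≤ ⊤)).op ≫ i.app V := by
    rw [h]
    simp
  rw [h2]
  rfl

lemma basicOpen_frac (f g : R K n) (hf : f ∈ G K n 1) (hg : g ∈ G K n 1) :
    (ProjSp n K).basicOpen (Proj.awayToSection (G K n) f (fr f hf 1 g hg)) = bo f ⊓ bo g := by
  have hV : IsAffineOpen (Proj.basicOpen (G K n) f) :=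
    Proj.isAffineOpen_basicOpen (G K n) f hf one_pos
  have h1 : (Proj.basicOpen (G K n) f).ι ⁻¹ᵁ ((Proj (G K n)).basicOpen
      (Proj.awayToSection (G K n) f (fr f hf 1 g hg))) =
      (Proj.basicOpen (G K n) f).ι ⁻¹ᵁ (Proj.basicOpen (G K n) g) := by
    have h2 : (Proj.basicOpen (G K n) f).ι =
        Proj.basicOpenToSpec (G K n) f ≫ Proj.awayι (G K n) f hf one_pos := by
      rw [← Proj.basicOpenIsoSpec_hom (G K n) f hf one_pos, Proj.awayι, Iso.hom_inv_id_assoc]
    have h3 : Proj.awayι (G K n) f hf one_pos ⁻¹ᵁ (Proj.basicOpen (G K n) g) =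
        PrimeSpectrum.basicOpen (fr f hf 1 g hg) := by
      rw [Proj.awayι_preimage_basicOpen (G K n) hf one_pos hg one_pos]
      congr 1
      simp only [Away.isLocalizationElem, fr]
      congr 1
      simp
    conv_rhs => rw [h2]
    rw [Scheme.Hom.comp_preimage, h3]
    conv_lhs => rw [← hV.toSpecΓ_fromSpec]
    rw [Scheme.Hom.comp_preimage, hV.fromSpec_preimage_basicOpen, Proj.basicOpenToSpec,
      Scheme.Hom.comp_preimage]
    rfl
  have h4 : ∀ W : (Proj (G K n)).Opens, (Proj.basicOpen (G K n) f).ι ''ᵁ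
      ((Proj.basicOpen (G K n) f).ι ⁻¹ᵁ W) = Proj.basicOpen (G K n) f ⊓ W := by
    intro W
    rw [Scheme.Hom.image_preimage_eq_opensRange_inf, Scheme.Opens.opensRange_ι]
  have h5 := congrArg (fun W => (Proj.basicOpen (G K n) f).ι ''ᵁ W) h1
  simp only [h4] at h5
  refine Eq.trans ?_ h5
  exact (inf_eq_right.2 ((Proj (G K n)).basicOpen_le _)).symm

lemma eval₂_mul_pow {S : Type} [CommRing S] (φ : K →+* S) (v : Fin (n + 1) → S) (u : S) (m : ℕ)
    (x : R K n) (hx : x ∈ G K n m) :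
    MvPolynomial.eval₂ φ (fun k => v k * u) x = MvPolynomial.eval₂ φ v x * u ^ m := by
  have hx' : x.IsHomogeneous m := (MvPolynomial.mem_homogeneousSubmodule _ _).1 hx
  rw [MvPolynomial.eval₂_eq', MvPolynomial.eval₂_eq', Finset.sum_mul]
  refine Finset.sum_congr rfl fun d hd => ?_
  have hdm : ∑ j, d j = m := by
    have := hx' (MvPolynomial.mem_support_iff.1 hd)
    rw [← this]
    simp [Finsupp.weight_apply, Finsupp.sum_fintype]
  simp only [mul_pow, Finset.prod_mul_distrib, Finset.prod_pow_eq_pow_sum, hdm]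
  ring

section
variable {Y : KSch K} (i : Y.X ⟶ ProjSp n K)

/-- the functions on `{f ≠ 0}` given by fractions -/
def F (f : R K n) : Away (G K n) f →+* Γ(Y.X, i ⁻¹ᵁ bo f) :=
  (Proj.awayToSection (G K n) f ≫ i.app (bo f)).hom

lemma F_cst (hc : i ≫ ProjSp.toSpec n K = Y.f) (f : R K n) (hf : f ∈ G K n 1) (c : K) :
    F i f (c0 f c) = cstU Y.f _ c := by
  have hV : IsAffineOpen (Proj.basicOpen (G K n) f) :=
    Proj.isAffineOpen_basicOpen (G K n) f hf one_pos
  have h1 : (Proj.basicOpen (G K n) f).ι ≫ ProjSp.toSpec n K =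
      (Proj.basicOpen (G K n) f).toSpecΓ ≫
        Spec.map (CommRingCat.ofHom (c0 f) ≫ Proj.awayToSection (G K n) f) := by
    have h2 : (Proj.basicOpen (G K n) f).ι =
        Proj.basicOpenToSpec (G K n) f ≫ Proj.awayι (G K n) f hf one_pos := by
      rw [← Proj.basicOpenIsoSpec_hom (G K n) f hf one_pos, Proj.awayι, Iso.hom_inv_id_assoc]
    have h4 : (Proj.basicOpen (G K n) f).ι ≫ Proj.toSpecZero (G K n) ≫
        Spec.map (CommRingCat.ofHom (algebraMap K (G K n 0))) =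
      (Proj.basicOpen (G K n) f).toSpecΓ ≫
        Spec.map (CommRingCat.ofHom (c0 f) ≫ Proj.awayToSection (G K n) f) := by
      rw [h2, Category.assoc, Proj.awayι_toSpecZero_assoc, ← Spec.map_comp,
        Proj.basicOpenToSpec, Category.assoc, ← Spec.map_comp]
      rfl
    exact h4
  have h3 := cst_of (Proj.basicOpen (G K n) f) hV (ProjSp.toSpec n K) _ h1 c
  rw [← hc, cstU_comp]
  exact congrArg (i.app (bo f)) h3.symm

lemma F_surj [IsClosedImmersion i] (f : R K n) (hf : f ∈ G K n 1) :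
    Function.Surjective (F i f) := by
  have hV : IsAffineOpen (bo f) :=
    Proj.isAffineOpen_basicOpen (G K n) f hf one_pos
  have h1 := Scheme.Hom.app_surjective i (bo f) hV
  have h2 : Function.Surjective (Proj.awayToSection (G K n) f) := by
    rw [← Proj.basicOpenIsoAway_hom (G K n) f hf one_pos]
    exact (Proj.basicOpenIsoAway (G K n) f hf one_pos).commRingCatIsoToRingEquiv.surjective
  exact h1.comp h2

lemma F_res (f g x : R K n) (hg : g ∈ G K n 1) (hx : x = f * g)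
    (hle : i ⁻¹ᵁ bo x ≤ i ⁻¹ᵁ bo f) (y : Away (G K n) f) :
    Y.X.presheaf.map (homOfLE hle).op (F i f y) =
      F i x (awayMap (G K n) hg hx y) := by
  have h1 := congrArg (fun z => z.hom y) (Proj.awayMap_awayToSection (G K n) hg hx)
  have h2 := congrArg (fun z => z.hom (Proj.awayToSection (G K n) f y))
    (i.naturality (homOfLE (Proj.basicOpen_mono (G K n) _ _ ⟨_, hx⟩)).op)
  exact ((congrArg (fun z => (i.app (bo x)).hom z) h1).trans h2).symm

/-- evaluation of polynomials at `x_k / f` -/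
def θ (f : R K n) (hf : f ∈ G K n 1) : R K n →+* Γ(Y.X, i ⁻¹ᵁ bo f) :=
  MvPolynomial.eval₂Hom ((F i f).comp (c0 f))
    (fun k => F i f (fr f hf 1 (MvPolynomial.X k) (X_mem k)))

lemma θ_eq (f : R K n) (hf : f ∈ G K n 1) (m : ℕ) (x : R K n) (hx : x ∈ G K n m) :
    θ i f hf x = F i f (fr f hf m x hx) := by
  rw [fr_eq, ← MvPolynomial.coe_eval₂Hom, ← RingHom.comp_apply, MvPolynomial.comp_eval₂Hom]
  rfl

lemma θ_C (hc : i ≫ ProjSp.toSpec n K = Y.f) (f : R K n) (hf : f ∈ G K n 1) (c : K) :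
    θ i f hf (MvPolynomial.C c) = cstU Y.f _ c := by
  rw [← F_cst i hc f hf c, θ, MvPolynomial.eval₂Hom_C]
  rfl

lemma θ_self (f : R K n) (hf : f ∈ G K n 1) : θ i f hf f = 1 := by
  rw [θ_eq i f hf 1 f hf]
  have : fr f hf 1 f hf = 1 := by
    apply HomogeneousLocalization.val_injective
    rw [HomogeneousLocalization.val_one, fr, Away.val_mk, ← Localization.mk_one,
      Localization.mk_eq_mk_iff, Localization.r_iff_exists]
    refine ⟨1, ?_⟩
    simp
  rw [this, map_one]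

lemma θ_surj [IsClosedImmersion i] (f : R K n) (hf : f ∈ G K n 1)
    (y : Γ(Y.X, i ⁻¹ᵁ bo f)) : ∃ (m : ℕ) (x : R K n), x ∈ G K n m ∧ θ i f hf x = y := by
  obtain ⟨z, rfl⟩ := F_surj i f hf y
  obtain ⟨m, x, hx, rfl⟩ := Away.mk_surjective (G K n) hf z
  have hx' : x ∈ G K n m := by simpa using hx
  exact ⟨m, x, hx', θ_eq i f hf m x hx'⟩

lemma θ_basic (f g : R K n) (hf : f ∈ G K n 1) (hg : g ∈ G K n 1) :
    Y.X.basicOpen (θ i f hf g) = i ⁻¹ᵁ bo f ⊓ i ⁻¹ᵁ bo g := by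
  rw [θ_eq i f hf 1 g hg]
  have h1 := Scheme.preimage_basicOpen i
    (Proj.awayToSection (G K n) f (fr f hf 1 g hg))
  rw [basicOpen_frac f g hf hg] at h1
  exact h1.symm

end

/-- restriction -/
def rs {X : Scheme.{0}} {U V : X.Opens} (h : V ≤ U) : Γ(X, U) →+* Γ(X, V) :=
  (X.presheaf.map (homOfLE h).op).hom

lemma rs_rs {X : Scheme.{0}} {U V W : X.Opens} (h : V ≤ U) (h' : W ≤ V) (x : Γ(X, U)) :
    rs h' (rs h x) = rs (h'.trans h) x := by
  change (X.presheaf.map _).hom ((X.presheaf.map _).hom x) = (X.presheaf.map _).hom x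
  rw [← CommRingCat.comp_apply, ← Functor.map_comp]
  rfl

lemma rs_refl {X : Scheme.{0}} {U : X.Opens} (h : U ≤ U) (x : Γ(X, U)) :
    rs h x = x := by
  change (X.presheaf.map (𝟙 _)).hom x = x
  simp

lemma away_id (f g x : R K n) (hf : f ∈ G K n 1) (hg : g ∈ G K n 1) (hx : x ∈ G K n 1) :
    awayMap (G K n) hg rfl (fr f hf 1 x hx) =
      awayMap (G K n) hf (mul_comm f g) (fr g hg 1 x hx) *
        awayMap (G K n) hg rfl (fr f hf 1 g hg) := by
  simp only [fr, awayMap_mk]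
  apply HomogeneousLocalization.val_injective
  rw [HomogeneousLocalization.val_mul, Away.val_mk, Away.val_mk, Away.val_mk,
    Localization.mk_mul, Localization.mk_eq_mk_iff, Localization.r_iff_exists]
  refine ⟨1, ?_⟩
  simp only [OneMemClass.coe_one, one_mul, Submonoid.coe_mul]
  ring

section
variable {Y : KSch K} (i : Y.X ⟶ ProjSp n K)

lemma bo_mul (f g : R K n) : bo (f * g) = bo f ⊓ bo g :=
  Proj.basicOpen_mul (G K n) f g

lemma pre_bo_mul (f g : R K n) : i ⁻¹ᵁ bo (f * g) = i ⁻¹ᵁ bo f ⊓ i ⁻¹ᵁ bo g := by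
  rw [bo_mul]
  rfl

lemma θ_res (f g x : R K n) (hf : f ∈ G K n 1) (hg : g ∈ G K n 1) (hx : x ∈ G K n 1)
    (W : Y.X.Opens) (h1 : W ≤ i ⁻¹ᵁ bo f) (h2 : W ≤ i ⁻¹ᵁ bo g) :
    rs h1 (θ i f hf x) = rs h2 (θ i g hg x) * rs h1 (θ i f hf g) := by
  have hW : W ≤ i ⁻¹ᵁ bo (f * g) := by
    rw [pre_bo_mul]
    exact le_inf h1 h2
  have e1 : i ⁻¹ᵁ bo (f * g) ≤ i ⁻¹ᵁ bo f := by
    rw [pre_bo_mul]
    exact inf_le_left
  have e2 : i ⁻¹ᵁ bo (f * g) ≤ i ⁻¹ᵁ bo g := by
    rw [pre_bo_mul]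
    exact inf_le_right
  rw [← rs_rs e1 hW, ← rs_rs e2 hW, ← rs_rs e1 hW, ← map_mul]
  congr 1
  rw [θ_eq i f hf 1 x hx, θ_eq i g hg 1 x hx, θ_eq i f hf 1 g hg]
  have r1 := F_res i f g (f * g) hg rfl e1
  have r2 := F_res i g f (f * g) hf (mul_comm f g) e2
  refine (r1 _).trans ?_
  refine Eq.trans ?_ (congrArg₂ _ (r2 _).symm (r1 _).symm)
  rw [← map_mul, away_id]

lemma rs_θ (hc : i ≫ ProjSp.toSpec n K = Y.f) (f : R K n) (hf : f ∈ G K n 1)
    (W : Y.X.Opens) (h1 : W ≤ i ⁻¹ᵁ bo f) (x : R K n) :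
    rs h1 (θ i f hf x) =
      MvPolynomial.eval₂ (cstU Y.f W) (fun k => rs h1 (θ i f hf (MvPolynomial.X k))) x := by
  rw [← RingHom.comp_apply, ← MvPolynomial.coe_eval₂Hom]
  congr 1
  apply MvPolynomial.ringHom_ext
  · intro c
    rw [MvPolynomial.eval₂Hom_C, RingHom.comp_apply, θ_C i hc]
    exact map_cstU Y.f h1 c
  · intro k
    rw [MvPolynomial.eval₂Hom_X', RingHom.comp_apply]

lemma θ_res_pow (hc : i ≫ ProjSp.toSpec n K = Y.f) (f g x : R K n) (hf : f ∈ G K n 1)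
    (hg : g ∈ G K n 1) (m : ℕ) (hx : x ∈ G K n m)
    (W : Y.X.Opens) (h1 : W ≤ i ⁻¹ᵁ bo f) (h2 : W ≤ i ⁻¹ᵁ bo g) :
    rs h1 (θ i f hf x) = rs h2 (θ i g hg x) * rs h1 (θ i f hf g) ^ m := by
  rw [rs_θ i hc f hf W h1 x, rs_θ i hc g hg W h2 x, ← eval₂_mul_pow _ _ _ m x hx]
  congr 1
  funext k
  exact θ_res i f g _ hf hg (X_mem k) W h1 h2

lemma rel_loc [IsClosedImmersion i] (hc : i ≫ ProjSp.toSpec n K = Y.f) (f g x : R K n)
    (hf : f ∈ G K n 1) (hg : g ∈ G K n 1) (m : ℕ) (hx : x ∈ G K n m)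
    (h0 : θ i g hg x = 0) : ∃ e : ℕ, θ i f hf g ^ e * θ i f hf x = 0 := by
  have hV : IsAffineOpen (i ⁻¹ᵁ bo f) := by
    refine IsAffineOpen.preimage ?_ i
    exact Proj.isAffineOpen_basicOpen (G K n) f hf one_pos
  refine exists_pow_mul_eq_zero_of_res_basicOpen_eq_zero_of_isAffineOpen Y.X hV _ _ ?_
  have hb := θ_basic i f g hf hg
  have h2 : Y.X.basicOpen (θ i f hf g) ≤ i ⁻¹ᵁ bo g := by
    rw [hb]
    exact inf_le_right
  have h3 := θ_res_pow i hc f g x hf hg m hx _ (Y.X.basicOpen_le (θ i f hf g)) h2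
  rw [h0, map_zero, zero_mul] at h3
  exact h3

lemma rel_one {l : Fin 3 → R K n} (h : LinSys Y i l) (g : R K n) (hg : g ∈ G K n 1) :
    ∃ (M : ℕ) (b : Fin 3 → R K n), (∀ j, b j ∈ G K n M) ∧
      θ i g hg (g ^ (M + 1) - ∑ j, b j * l j) = 0 := by
  haveI := h.imm
  have hl : ∀ j, l j ∈ G K n 1 := fun j => (MvPolynomial.mem_homogeneousSubmodule _ _).2 (h.hom j)
  have hV : IsAffineOpen (i ⁻¹ᵁ bo g) := by
    refine IsAffineOpen.preimage ?_ i
    exact Proj.isAffineOpen_basicOpen (G K n) g hg one_pos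
  have hspan : Ideal.span (Set.range fun j => θ i g hg (l j)) = ⊤ := by
    rw [← hV.self_le_iSup_basicOpen_iff]
    intro x hx
    have hx2 : x ∈ ⨆ j, i ⁻¹ᵁ bo (l j) := by
      rw [h.cov]
      trivial
    rw [TopologicalSpace.Opens.mem_iSup] at hx2
    obtain ⟨j, hj⟩ := hx2
    rw [TopologicalSpace.Opens.mem_iSup]
    refine ⟨⟨_, ⟨j, rfl⟩⟩, ?_⟩
    have hb := θ_basic i g (l j) hg (hl j)
    change x ∈ Y.X.basicOpen (θ i g hg (l j))
    rw [hb]
    exact ⟨hx, hj⟩
  have h1 : (1 : Γ(Y.X, i ⁻¹ᵁ bo g)) ∈ Ideal.span (Set.range fun j => θ i g hg (l j)) := by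
    rw [hspan]
    trivial
  rw [Ideal.mem_span_range_iff_exists_fun] at h1
  obtain ⟨c, hcs⟩ := h1
  choose m x hx hθ using fun j => θ_surj i g hg (c j)
  refine ⟨∑ j, m j, fun j => g ^ (∑ j', m j' - m j) * x j, fun j => ?_, ?_⟩
  · have hle : m j ≤ ∑ j', m j' := Finset.single_le_sum (fun _ _ => Nat.zero_le _)
      (Finset.mem_univ j)
    have := SetLike.mul_mem_graded (SetLike.pow_mem_graded (∑ j', m j' - m j) hg) (hx j)
    have he : (∑ j', m j' - m j) • 1 + m j = ∑ j', m j' := by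
      simp only [smul_eq_mul, mul_one]
      omega
    rw [he] at this
    exact this
  · rw [map_sub, map_sum, map_pow, θ_self, one_pow, sub_eq_zero, ← hcs]
    refine Finset.sum_congr rfl fun j _ => ?_
    rw [map_mul, map_mul, map_pow, θ_self, one_pow, one_mul, hθ]

end

section
variable {Y : KSch K} {i : Y.X ⟶ ProjSp n K} {l : Fin 3 → R K n} (h : LinSys Y i l)

include h in
lemma hl (j : Fin 3) : l j ∈ G K n 1 := (MvPolynomial.mem_homogeneousSubmodule _ _).2 (h.hom j)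

lemma opn_le {s : Cov (Fin 3)} {a : Fin 3} (ha : a ∈ s.s) :
    (linCov h).opn s ≤ i ⁻¹ᵁ bo (l a) := fun _ hx =>
  Proj.basicOpen_mono (G K n) _ _ (Finset.dvd_prod_of_mem l ha) hx

lemma opn_ins (s : Cov (Fin 3)) (j : Fin 3) :
    (linCov h).opn (Cov.ins j s) = (linCov h).opn s ⊓ i ⁻¹ᵁ bo (l j) := by
  by_cases hj : j ∈ s.s
  · have h1 : Cov.ins j s = s := Cov.ext' (Finset.insert_eq_of_mem hj)
    rw [h1]
    exact (inf_eq_left.2 (opn_le h hj)).symm
  · change i ⁻¹ᵁ bo (∏ j ∈ insert j s.s, l j) = i ⁻¹ᵁ bo (∏ j ∈ s.s, l j) ⊓ i ⁻¹ᵁ bo (l j)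
    rw [Finset.prod_insert hj, mul_comm, pre_bo_mul]

lemma le_opn_one (a : Fin 3) : i ⁻¹ᵁ bo (l a) ≤ (linCov h).opn (Cov.one a) := by
  change i ⁻¹ᵁ bo (l a) ≤ i ⁻¹ᵁ bo (∏ j ∈ {a}, l j)
  rw [Finset.prod_singleton]

/-- the functions `g / l_a` -/
def qf (s : Cov (Fin 3)) (a : Fin 3) (g : R K n) : Γ(Y.X, (linCov h).opn s) :=
  if ha : a ∈ s.s then rs (opn_le h ha) (θ i (l a) (hl h a) g) else 0

lemma qf_eq {s : Cov (Fin 3)} {a : Fin 3} (ha : a ∈ s.s) (g : R K n) :
    qf h s a g = rs (opn_le h ha) (θ i (l a) (hl h a) g) := dif_pos ha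

lemma qf_eval (a : Fin 3) (x : R K n) :
    MvPolynomial.eval₂ (cstU Y.f ((linCov h).opn (Cov.one a)))
      (fun k => qf h (Cov.one a) a (MvPolynomial.X k)) x =
    rs (opn_le h (Finset.mem_singleton_self a)) (θ i (l a) (hl h a) x) := by
  rw [rs_θ i h.comp]
  congr 1
  funext k
  exact qf_eq h (Finset.mem_singleton_self a) _

lemma qf_lin : LinFn h (qf h) := by
  haveI := h.imm
  refine ⟨?_, ?_, ?_, ?_, ?_, ?_, ?_⟩
  · intro s a g g' ha _ _
    rw [qf_eq h ha, qf_eq h ha, qf_eq h ha, map_add, map_add]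
  · intro s a c g ha _
    rw [qf_eq h ha, qf_eq h ha, map_mul, map_mul, θ_C i h.comp]
    congr 1
    exact map_cstU Y.f _ c
  · intro s a ha
    rw [qf_eq h ha, θ_self, map_one]
  · intro s a b g ha hb hg
    rw [qf_eq h ha, qf_eq h hb, qf_eq h ha, mul_comm]
    exact (θ_res i (l a) (l b) g (hl h a) (hl h b)
      ((MvPolynomial.mem_homogeneousSubmodule _ _).2 hg) _ (opn_le h ha) (opn_le h hb)).symm
  · intro s t hst a g ha _
    rw [qf_eq h ha, qf_eq h (hst ha)]
    exact rs_rs _ _ _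
  · intro s a j ha
    rw [qf_eq h ha]
    refine (Scheme.basicOpen_res _ _ _).trans ?_
    rw [θ_basic i (l a) (l j) (hl h a) (hl h j), opn_ins h s j, ← inf_assoc,
      inf_eq_left.2 (opn_le h ha)]
  · intro a
    rw [eq_top_iff]
    rintro y -
    have h1 : rs (opn_le h (Finset.mem_singleton_self a)) (rs (le_opn_one h a) y) = y := by
      refine (rs_rs _ _ _).trans ?_
      exact rs_refl _ _
    obtain ⟨m, x, hx, hθ⟩ := θ_surj i (l a) (hl h a) (rs (le_opn_one h a) y)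
    rw [← h1, ← hθ, ← qf_eval]
    clear h1 hθ hx
    induction x using MvPolynomial.induction_on with
    | C c =>
      rw [MvPolynomial.eval₂_C]
      exact Subring.subset_closure (Or.inl ⟨c, rfl⟩)
    | add p q hp hq =>
      rw [MvPolynomial.eval₂_add]
      exact add_mem hp hq
    | mul_X p k hp =>
      rw [MvPolynomial.eval₂_mul, MvPolynomial.eval₂_X]
      exact mul_mem hp (Subring.subset_closure (Or.inr ⟨k, rfl⟩))

lemma qf_rel : ∃ (N : ℕ) (b : Fin (n + 1) → Fin 3 → R K n),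
    (∀ k j, (b k j).IsHomogeneous N) ∧
    ∀ (a : Fin 3) (k : Fin (n + 1)), (qf h (Cov.one a) a (MvPolynomial.X k)) ^ (N + 1) =
      ∑ j, MvPolynomial.eval₂ (cstU Y.f _)
        (fun k' => qf h (Cov.one a) a (MvPolynomial.X k')) (b k j) * qf h (Cov.one a) a (l j) := by
  haveI := h.imm
  choose M b hb h0 using fun k : Fin (n + 1) => rel_one i h (MvPolynomial.X k) (X_mem k)
  have hD : ∀ k : Fin (n + 1),
      ((MvPolynomial.X k) ^ (M k + 1) - ∑ j, b k j * l j : R K n) ∈ G K n (M k + 1) := by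
    intro k
    refine sub_mem ?_ (sum_mem fun j _ => ?_)
    · have := SetLike.pow_mem_graded (M k + 1) (X_mem (K := K) k)
      simpa using this
    · exact SetLike.mul_mem_graded (hb k j) (hl h j)
  choose e he using fun (k : Fin (n + 1)) (a : Fin 3) =>
    rel_loc i h.comp (l a) (MvPolynomial.X k) _ (hl h a) (X_mem k) (M k + 1) (hD k) (h0 k)
  refine ⟨∑ k, M k + ∑ k, ∑ a, e k a, fun k j =>
    MvPolynomial.X k ^ ((∑ k, M k + ∑ k, ∑ a, e k a) - M k) * b k j, ?_, ?_⟩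
  · intro k j
    have hle : M k ≤ ∑ k, M k := Finset.single_le_sum (fun _ _ => Nat.zero_le _)
      (Finset.mem_univ k)
    have := SetLike.mul_mem_graded
      (SetLike.pow_mem_graded ((∑ k, M k + ∑ k, ∑ a, e k a) - M k) (X_mem (K := K) k)) (hb k j)
    have h2 : ((∑ k, M k + ∑ k, ∑ a, e k a) - M k) • 1 + M k =
        ∑ k, M k + ∑ k, ∑ a, e k a := by
      simp only [smul_eq_mul, mul_one]
      omega
    rw [h2] at this
    exact (MvPolynomial.mem_homogeneousSubmodule _ _).1 this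
  · intro a k
    set N := ∑ k, M k + ∑ k, ∑ a, e k a with hN
    have hle : M k + e k a ≤ N := by
      have h1 : M k ≤ ∑ k, M k := Finset.single_le_sum (fun _ _ => Nat.zero_le _)
        (Finset.mem_univ k)
      have h2 : e k a ≤ ∑ a, e k a := Finset.single_le_sum (fun _ _ => Nat.zero_le _)
        (Finset.mem_univ a)
      have h3 : ∑ a, e k a ≤ ∑ k, ∑ a, e k a :=
        Finset.single_le_sum (f := fun k => ∑ a, e k a) (fun _ _ => Nat.zero_le _)
        (Finset.mem_univ k)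
      omega
    have hm := Finset.mem_singleton_self a
    have key : θ i (l a) (hl h a) (MvPolynomial.X k) ^ (N + 1) =
        ∑ j, θ i (l a) (hl h a) (MvPolynomial.X k ^ (N - M k) * b k j) *
          θ i (l a) (hl h a) (l j) := by
      have h1 : θ i (l a) (hl h a) (MvPolynomial.X k) ^ (N - M k) *
          θ i (l a) (hl h a) (MvPolynomial.X k ^ (M k + 1) - ∑ j, b k j * l j) = 0 := by
        have h2 : N - M k = (N - M k - e k a) + e k a := by omega
        rw [h2, pow_add, mul_assoc, he, mul_zero]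
      rw [← map_pow, ← map_mul, mul_sub, ← pow_add, map_sub, sub_eq_zero] at h1
      have h3 : N - M k + (M k + 1) = N + 1 := by omega
      rw [h3, map_pow] at h1
      rw [h1, Finset.mul_sum, map_sum]
      refine Finset.sum_congr rfl fun j _ => ?_
      rw [← map_mul, mul_assoc]
    rw [qf_eq h hm, ← map_pow, key, map_sum]
    refine Finset.sum_congr rfl fun j _ => ?_
    rw [map_mul, qf_eval, qf_eq h hm]

end

end

end CH1_

/-- the functions `g / l_a` exist -/
theorem ch1_proof : Stmt_CH1 := by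
  intro K _ Y n i l h
  exact ⟨CH1_.qf h, CH1_.qf_lin h, CH1_.qf_rel h⟩

end Pool.CRD
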