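import Pool.Agent.CRD.F2.Stmts

/-!
# CRD, area F2, module DIM: dimension of a product of two curves
-/

open CategoryTheory AlgebraicGeometry Limits Opposite Polynomial TensorProduct

namespace Pool.CRD

theorem dim (dm1 : Stmt_DM1) (dm2 : Stmt_DM2) : Stmt_DIM := by
  intro K _ c₁ c₂ S Z c
  refine dm1 Z.X Ch2 c.toAffCov 2 {s | ∃ i j : Bool, s = ⟨Cov.one i, Cov.one j⟩} ?_ ?_
  · rw [eq_top_iff, ← c.cov]
    refine iSup_le fun s => ?_
    obtain ⟨i, hi⟩ := s.i.ne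
    obtain ⟨j, hj⟩ := s.j.ne
    have hle : s ≤ (⟨Cov.one i, Cov.one j⟩ : Ch2) :=
      ⟨Finset.singleton_subset_iff.2 hi, Finset.singleton_subset_iff.2 hj⟩
    refine le_trans (c.toAffCov.opn_mono hle) ?_
    exact le_iSup₂ (f := fun (s : Ch2) (_ : s ∈ {s : Ch2 | ∃ i j : Bool,
      s = ⟨Cov.one i, Cov.one j⟩}) => c.opn s) _ ⟨i, j, rfl⟩
  · rintro _ ⟨i, j, rfl⟩
    rw [← ringKrullDim_eq_of_ringEquiv (c.φ ⟨Cov.one i, Cov.one j⟩)]
    exact dm2 K c₁ c₂ S i j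

end Pool.CRD
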