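import Pool.Agent.CRD.F2.Stmts

/-!
# CRD, area F2: dimension of a scheme from an open affine cover
-/

open CategoryTheory AlgebraicGeometry Limits Opposite TopologicalSpace Topology Order

namespace Pool.CRD

namespace DM1_

theorem open_dim (X : Scheme.{0}) (U : X.Opens) (hU : IsAffineOpen U) :
    topologicalKrullDim U.toScheme = ringKrullDim Γ(X, U) := by
  have h1 : topologicalKrullDim U.toScheme = topologicalKrullDim (Spec Γ(X, U)) :=
    IsHomeomorph.topologicalKrullDim_eq _ (Scheme.homeoOfIso hU.isoSpec).isHomeomorph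
  rw [h1]
  exact PrimeSpectrum.topologicalKrullDim_eq_ringKrullDim _

end DM1_

open DM1_ in
theorem dm1_proof : Stmt_DM1 := by
  intro X C _ c n M hM hdim
  have key : ∀ Z : IrreducibleCloseds X, (coheight Z : WithBot ℕ∞) ≤ n := by
    intro Z
    obtain ⟨z, hz⟩ := Z.2.nonempty
    have hz' : z ∈ (⨆ s ∈ M, c.opn s : X.Opens) := by rw [hM]; trivial
    rw [Opens.mem_iSup] at hz'
    obtain ⟨s, hz'⟩ := hz'
    rw [Opens.mem_iSup] at hz'
    obtain ⟨hs, hzs⟩ := hz'
    let f := (c.opn s).ι
    have hf : IsOpenEmbedding f := Scheme.Hom.isOpenEmbedding f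
    have hne : (f ⁻¹' (Z : Set X)).Nonempty := ⟨⟨z, hzs⟩, hz⟩
    let e := IrreducibleCloseds.orderIsoOfIsOpenEmbedding f hf
    have h1 : IrreducibleCloseds.map f hf.continuous (e.symm ⟨Z, hne⟩) = Z :=
      congrArg Subtype.val (e.apply_symm_apply ⟨Z, hne⟩)
    rw [← h1, hf.coheight_map]
    refine (coheight_le_krullDim _).trans ?_
    have h2 := open_dim X (c.opn s) (c.aff s)
    unfold topologicalKrullDim at h2
    rw [h2]
    exact hdim s hs
  unfold topologicalKrullDim
  rw [krullDim_eq_iSup_coheight]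
  exact iSup_le key

end Pool.CRD
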