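import Pool.Agent.CRD.F2.Stmts

/-!
# CRD, area F2: dimension of the charts of a product of two curves
-/

set_option autoImplicit false

open CategoryTheory AlgebraicGeometry Limits Opposite Polynomial TensorProduct

namespace Pool.CRD

noncomputable section

namespace DM2_

theorem dim_le_of_integral {R S : Type} [CommRing R] [CommRing S] (f : R →+* S)
    (hf : f.IsIntegral) : ringKrullDim S ≤ ringKrullDim R := by
  letI := f.toAlgebra
  haveI : Algebra.IsIntegral R S := ⟨hf⟩
  refine Order.krullDim_le_of_strictMono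
    (fun I : PrimeSpectrum S => (⟨Ideal.comap f I.asIdeal, inferInstance⟩ : PrimeSpectrum R)) ?_
  intro I J hIJ
  exact Ideal.IsIntegral.comap_lt_comap (R := R) (A := S) (I := I.asIdeal) (J := J.asIdeal) hIJ

section
variable {K F L : Type} [Field K] [Field F] [Field L] [Algebra K F] [Algebra K L]

theorem integral_map (e : F →ₐ[K] L) (R : Subalgebra K L) (a : F) (ha : e a ∈ R) (f : F)
    (hf : IsIntegral (Algebra.adjoin K {a}) f) : IsIntegral R (e f) := by
  obtain ⟨p, hp, hpf⟩ := hf
  have hle : ∀ x : Algebra.adjoin K {a}, (e.comp (Algebra.adjoin K {a}).val) x ∈ R := by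
    intro x
    have h1 : Algebra.adjoin K {a} ≤ R.comap e := by
      refine Algebra.adjoin_le ?_
      rintro _ rfl
      exact ha
    exact h1 x.2
  let ψ : Algebra.adjoin K {a} →ₐ[K] R := (e.comp (Algebra.adjoin K {a}).val).codRestrict R hle
  refine ⟨p.map ψ.toRingHom, hp.map _, ?_⟩
  rw [Polynomial.eval₂_map]
  have h2 : (algebraMap R L).comp ψ.toRingHom =
      (e : F →+* L).comp (algebraMap (Algebra.adjoin K {a}) F) := by
    ext x
    rfl
  rw [h2]
  have h3 := Polynomial.hom_eval₂ p (algebraMap (Algebra.adjoin K {a}) F) (e : F →+* L) f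
  have h4 : Polynomial.eval₂ ((e : F →+* L).comp (algebraMap (Algebra.adjoin K {a}) F)) (e f) p =
      e (Polynomial.eval₂ (algebraMap (Algebra.adjoin K {a}) F) f p) := h3.symm
  rw [h4, hpf, map_zero]

/-- the elements integral over a subalgebra -/
def intc (R : Subalgebra K L) : Subalgebra K L where
  carrier := {x | IsIntegral R x}
  mul_mem' hx hy := IsIntegral.mul hx hy
  add_mem' hx hy := IsIntegral.add hx hy
  algebraMap_mem' k := isIntegral_algebraMap (R := R) (x := algebraMap K R k)

theorem dim_sup {F' : Type} [Field F'] [Algebra K F'] (e₁ : F →ₐ[K] L) (e₂ : F' →ₐ[K] L)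
    (A : Subalgebra K F) (A' : Subalgebra K F') (a : F) (a' : F') (ha : a ∈ A) (ha' : a' ∈ A')
    (hi : ∀ f ∈ A, IsIntegral (Algebra.adjoin K {a}) f)
    (hi' : ∀ f ∈ A', IsIntegral (Algebra.adjoin K {a'}) f) :
    ringKrullDim (A.map e₁ ⊔ A'.map e₂ : Subalgebra K L) ≤ 2 := by
  let g : MvPolynomial (Fin 2) K →ₐ[K] L := MvPolynomial.aeval ![e₁ a, e₂ a']
  let T : Subalgebra K L := A.map e₁ ⊔ A'.map e₂
  have h0 : e₁ a ∈ g.range := ⟨MvPolynomial.X 0, by simp [g]⟩
  have h1 : e₂ a' ∈ g.range := ⟨MvPolynomial.X 1, by simp [g]⟩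
  have hT : T ≤ intc g.range := by
    refine sup_le ?_ ?_
    · rintro _ ⟨x, hx, rfl⟩
      exact integral_map e₁ g.range a h0 x (hi x hx)
    · rintro _ ⟨x, hx, rfl⟩
      exact integral_map e₂ g.range a' h1 x (hi' x hx)
  have hg : g.range ≤ T := by
    rintro _ ⟨p, rfl⟩
    change g p ∈ T
    induction p using MvPolynomial.induction_on with
    | C k =>
      have : g (MvPolynomial.C k) = algebraMap K L k := by simp [g]
      rw [this]
      exact T.algebraMap_mem k
    | add p q hp hq => rw [map_add]; exact add_mem hp hq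
    | mul_X p i hp =>
      rw [map_mul]
      refine mul_mem hp ?_
      fin_cases i
      · have : g (MvPolynomial.X 0) = e₁ a := by simp [g]
        change g (MvPolynomial.X 0) ∈ T
        rw [this]
        exact (le_sup_left : A.map e₁ ≤ T) ⟨a, ha, rfl⟩
      · have : g (MvPolynomial.X 1) = e₂ a' := by simp [g]
        change g (MvPolynomial.X 1) ∈ T
        rw [this]
        exact (le_sup_right : A'.map e₂ ≤ T) ⟨a', ha', rfl⟩
  have hint : ((Subalgebra.inclusion hg : g.range →ₐ[K] T) : g.range →+* T).IsIntegral := by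
    intro t
    obtain ⟨p, hp, hpt⟩ := hT t.2
    refine ⟨p, hp, ?_⟩
    apply Subtype.ext
    have h3 := Polynomial.hom_eval₂ p
      ((Subalgebra.inclusion hg : g.range →ₐ[K] T) : g.range →+* T) (algebraMap T L) t
    exact h3.trans hpt
  have hd := dim_le_of_integral _ hint
  have hs : ringKrullDim g.range ≤ ringKrullDim (MvPolynomial (Fin 2) K) :=
    ringKrullDim_le_of_surjective g.rangeRestrict.toRingHom g.rangeRestrict_surjective
  have h2 : ringKrullDim (MvPolynomial (Fin 2) K) = 2 := by
    rw [MvPolynomial.ringKrullDim_of_isNoetherianRing, ringKrullDim_eq_zero_of_field]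
    simp
  exact (hd.trans hs).trans h2.le

end

end DM2_

open DM2_ in
theorem dm2_proof : Stmt_DM2 := by
  intro K _ c₁ c₂ S i j
  have key : ∀ (c : CurveData K) (i : Bool), ∃ a ∈ c.A (Cov.one i),
      ∀ f ∈ c.A (Cov.one i), IsIntegral (Algebra.adjoin K {a}) f := by
    intro c i
    cases i with
    | false => exact ⟨c.w, c.w_mem, c.int_a⟩
    | true => exact ⟨c.w⁻¹, c.winv_mem, c.int_b⟩
  obtain ⟨a, ha, hi⟩ := key c₁ i
  obtain ⟨a', ha', hi'⟩ := key c₂ j
  exact dim_sup S.e₁ S.e₂ _ _ a a' ha ha' hi hi'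

end

end Pool.CRD
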