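import Pool.Agent.CRD.F2.Stmts
import Pool.Agent.CRD.Br.Stmts

/-!
# CRD, area F2: module F2A (Noether normalisation)
-/

open CategoryTheory AlgebraicGeometry Limits Opposite Polynomial TensorProduct

namespace Pool.CRD

noncomputable section

theorem f2a_proof (hAV4 : Stmt_AV4) (hPC1 : Stmt_PC1) (hSM1 : Stmt_SM1) : Stmt_F2a := by
  intro K _ _ _ Y hs hp _ hd
  have : Infinite K := IsAlgClosed.instInfinite
  obtain ⟨n, i, l, h⟩ := hAV4 K Y hp hd
  exact ⟨(linCov h).fn, ⟨(linCov h).sch⟩, hPC1 K Y n i l h, fun s => hSM1 K Y _ (linCov h) hs s⟩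

end

end Pool.CRD
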