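import Pool.Agent.CRD.F2.Stmts
import Pool.Agent.CRD.Br.Stmts

/-!
# CRD, area F2: module F2B (the family over the local ring of `Q[t]` at `t = 9`)
-/

open CategoryTheory AlgebraicGeometry Limits Opposite Polynomial TensorProduct

namespace Pool.CRD

noncomputable section

namespace F2B_

/-- the prime ideal `(t - 9)` -/
def P9 : Ideal ℚ[X] := Ideal.span {X - C 9}

instance : P9.IsPrime := by
  unfold P9
  rw [Ideal.span_singleton_prime (X_sub_C_ne_zero 9)]
  exact prime_X_sub_C 9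

/-- the base ring -/
abbrev B9 : Type := Localization.AtPrime P9

/-- the parameter `t` -/
def tt : B9 := algebraMap ℚ[X] B9 X

lemma isUnit_of {p : ℚ[X]} (hp : p.eval 9 ≠ 0) : IsUnit (algebraMap ℚ[X] B9 p) := by
  refine IsLocalization.map_units B9 (⟨p, ?_⟩ : P9.primeCompl)
  intro h
  apply hp
  have h1 : X - C 9 ∣ p := Ideal.mem_span_singleton.1 h
  exact dvd_iff_isRoot.1 h1

lemma isUnit_C {a : ℚ} (ha : a ≠ 0) : IsUnit (algebraMap ℚ[X] B9 (C a)) :=
  isUnit_of (by simpa using ha)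

lemma ofNat_eq (n : ℕ) [n.AtLeastTwo] :
    (OfNat.ofNat n : B9) = algebraMap ℚ[X] B9 (C (OfNat.ofNat n : ℚ)) := by
  rw [show (C (OfNat.ofNat n : ℚ) : ℚ[X]) = OfNat.ofNat n from map_ofNat C n, map_ofNat]

lemma u2 : IsUnit (2 : B9) := by
  rw [ofNat_eq]; exact isUnit_C (by norm_num)

lemma u3 : IsUnit (3 : B9) := by
  rw [ofNat_eq]; exact isUnit_C (by norm_num)

lemma u4 : IsUnit (4 : B9) := by
  rw [ofNat_eq]; exact isUnit_C (by norm_num)

lemma par4 : ParOK (4 : B9) where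
  two := u2
  three := u3
  l0 := u4
  l1 := by
    have : (4 : B9) - 1 = 3 := by norm_num
    rw [this]; exact u3

lemma part : ParOK tt where
  two := u2
  three := u3
  l0 := isUnit_of (by simp)
  l1 := by
    have : tt - 1 = algebraMap ℚ[X] B9 (X - 1) := by rw [map_sub, map_one]; rfl
    rw [this]
    exact isUnit_of (by simp; norm_num)

lemma parOK_map {B K : Type} [CommRing B] [CommRing K] (f : B →+* K) {l : B} (h : ParOK l) :
    ParOK (f l) where
  two := by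
    have := h.two.map f
    rwa [map_ofNat] at this
  three := by
    have := h.three.map f
    rwa [map_ofNat] at this
  l0 := h.l0.map f
  l1 := by
    have := h.l1.map f
    rwa [map_sub, map_one] at this

lemma natDegree_fC {K : Type} [Field K] (l : K) : (fC l).natDegree = 7 := by
  unfold fC
  have h1 : ((X : K[X]) ^ 3 - 1).natDegree = 3 := by
    have := natDegree_X_pow_sub_C (R := K) (n := 3) (r := 1)
    simpa using this
  have h2 : ((X : K[X]) ^ 3 - C l).natDegree = 3 := natDegree_X_pow_sub_C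
  have h3 : ((X : K[X]) ^ 3 - 1) ≠ 0 := fun h => by rw [h] at h1; simp at h1
  have h4 : ((X : K[X]) ^ 3 - C l) ≠ 0 := fun h => by rw [h] at h2; simp at h2
  rw [natDegree_mul X_ne_zero (mul_ne_zero h3 h4), natDegree_mul h3 h4, h1, h2, natDegree_X]

lemma exH (hDEX : Stmt_DEX) (hNSO : Stmt_NSO) {K : Type} [Field K] (l : K) :
    Nonempty (HypF K l) :=
  hDEX K (fC l) (hNSO K (fC l) (by rw [natDegree_fC]; decide))

lemma charZero_of {K : Type} [Field K] (ρ : B9 →+* K) : CharZero K := by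
  have : Function.Injective (ρ.comp (algebraMap ℚ B9)) := RingHom.injective _
  exact charZero_of_injective_ringHom this

lemma e1n' (h : Stmt_E1N) {K : Type} [Field K] [IsAlgClosed K] [CharZero K] {a t : K}
    (ha : a = 4) (ht : Transcendental ℚ t) (H₁ : HypF K a) (H₂ : HypF K t) (p₁ : CrvProps H₁)
    (p₂ : CrvProps H₂) (S : SurfData (H₁.cd p₁) (H₂.cd p₂)) : ¬ S.Split := by
  subst ha
  exact h K t ht H₁ H₂ p₁ p₂ S

lemma sp0' (h : Stmt_SP0) {K : Type} [Field K] [IsAlgClosed K] [CharZero K] {a t : K}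
    (ha : a = 4) (ht : t = 9) (H₁ : HypF K a) (H₂ : HypF K t) (p₁ : CrvProps H₁)
    (p₂ : CrvProps H₂) (S : SurfData (H₁.cd p₁) (H₂.cd p₂)) : S.Split := by
  subst ha
  subst ht
  exact h K H₁ H₂ p₁ p₂ S

lemma transc {K : Type} [Field K] [CharZero K] (ρ : B9 →+* K) (hρ : Function.Injective ρ) :
    Transcendental ℚ (ρ tt) := by
  rw [transcendental_iff]
  intro p hp
  have h1 : ∀ q : ℚ[X], aeval (ρ tt) q = ρ (algebraMap ℚ[X] B9 q) := by
    intro q
    induction q using Polynomial.induction_on' with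
    | add p q hp hq => rw [map_add, map_add, map_add, hp, hq]
    | monomial n a =>
      rw [aeval_monomial, ← C_mul_X_pow_eq_monomial, map_mul, map_mul, map_pow, map_pow]
      congr 1
      exact (RingHom.congr_fun (RingHom.ext_rat (algebraMap ℚ K)
        ((ρ.comp (algebraMap ℚ[X] B9)).comp C)) a)
  rw [h1] at hp
  have h2 : algebraMap ℚ[X] B9 p = 0 := hρ (by rw [hp, map_zero])
  exact (IsLocalization.injective B9 (Ideal.primeCompl_le_nonZeroDivisors P9))
    (by rw [h2, map_zero])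

lemma nine {K : Type} [Field K] (ρ : B9 →+* K) (h : ρ (tt - 9) = 0) : ρ tt = 9 := by
  rw [map_sub, map_ofNat, sub_eq_zero] at h
  exact h

end F2B_

open F2B_ in
theorem f2b_proof (hFAM : Stmt_FAM) (hZSU : Stmt_ZSU) (hGMF : Stmt_GMF) (hINT : Stmt_INT)
    (hCPR : Stmt_CPR) (hCG1 : Stmt_CG1) (hDEX : Stmt_DEX) (hNSO : Stmt_NSO) (hSEX : Stmt_SEX)
    (hCEX : Stmt_CEX) (hE1N : Stmt_E1N) (hSP0 : Stmt_SP0) (_hPFT : Stmt_PFT) : Stmt_F2b := by
  obtain ⟨E, π, hs, hp, hfib⟩ := hFAM B9 4 tt par4 part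
  have : AlgebraicGeometry.Smooth π := hs
  -- the fibres
  have key : ∀ s : Spec (CommRingCat.of B9),
      ∃ ρ : B9 →+* AlgebraicClosure ((Spec (CommRingCat.of B9)).residueField s),
      (∀ b : B9, ρ b = 0 ↔ b ∈ (show PrimeSpectrum B9 from s).asIdeal) ∧
      ∃ (H₁ : HypF (AlgebraicClosure ((Spec (CommRingCat.of B9)).residueField s)) (ρ 4))
        (H₂ : HypF (AlgebraicClosure ((Spec (CommRingCat.of B9)).residueField s)) (ρ tt))
        (p₁ : CrvProps H₁) (p₂ : CrvProps H₂) (S : SurfData (H₁.cd p₁) (H₂.cd p₂))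
        (T : ConicData S), Nonempty (SchCov (geomFibre π s) T.R) := by
    intro s
    obtain ⟨ρ, hρ, hker⟩ := hGMF B9 E π s
    refine ⟨ρ, hker, ?_⟩
    rw [hρ]
    let i1 : Algebra B9 (AlgebraicClosure ((Spec (CommRingCat.of B9)).residueField s)) :=
      ρ.toAlgebra
    have i2 : CharZero (AlgebraicClosure ((Spec (CommRingCat.of B9)).residueField s)) :=
      charZero_of ρ
    obtain ⟨H₁⟩ := exH hDEX hNSO (ρ 4)
    obtain ⟨H₂⟩ := exH hDEX hNSO (ρ tt)
    have p₁ : CrvProps H₁ := hCPR _ _ H₁ (parOK_map ρ par4)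
    have p₂ : CrvProps H₂ := hCPR _ _ H₂ (parOK_map ρ part)
    obtain ⟨S⟩ := hSEX _ (H₁.cd p₁) _ H₂ p₂
    obtain ⟨T⟩ := hCEX _ _ _ S
    exact ⟨H₁, H₂, p₁, p₂, S, T, hfib _ H₁ H₂ p₁ p₂ S T⟩
  refine ⟨B9, inferInstance, E, π, hs, hp, ?_, ?_, ?_⟩
  · intro s
    obtain ⟨ρ, -, H₁, H₂, p₁, p₂, S, T, ⟨c⟩⟩ := key s
    have : Nonempty Ch3 := ⟨⟨ca, ca, ca⟩⟩
    have hm : ∀ {s t : Ch3}, t ≤ s → T.A s.i s.j s.k ≤ T.A t.i t.j t.k :=
      fun h => T.A_mono h.1 h.2.1 h.2.2
    exact hINT _ _ Ch3 T.E (fun s => T.A s.i s.j s.k) hm c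
  · intro s
    obtain ⟨ρ, -⟩ := key s
    exact charZero_of ρ
  · let s : Spec (CommRingCat.of B9) := (IsLocalRing.closedPoint B9 : PrimeSpectrum B9)
    let η : Spec (CommRingCat.of B9) := (⟨⊥, Ideal.isPrime_bot⟩ : PrimeSpectrum B9)
    refine ⟨s, η, ?_, ?_, ?_⟩
    · have : (⟨⊥, Ideal.isPrime_bot⟩ : PrimeSpectrum B9) ≤ IsLocalRing.closedPoint B9 :=
        bot_le (a := (IsLocalRing.closedPoint B9).asIdeal)
      exact (PrimeSpectrum.le_iff_specializes _ _).1 this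
    · obtain ⟨ρ, hker, H₁, H₂, p₁, p₂, S, T, hc⟩ := key η
      have i2 : CharZero (AlgebraicClosure ((Spec (CommRingCat.of B9)).residueField η)) :=
        charZero_of ρ
      have hinj : Function.Injective ρ := by
        rw [injective_iff_map_eq_zero]
        intro b hb
        exact (Submodule.mem_bot B9).1 ((hker b).1 hb)
      refine ⟨H₁.cd p₁, H₂.cd p₂, S, T, hc, hCG1 _ _ H₁ p₁ (parOK_map ρ par4),
        hCG1 _ _ H₂ p₂ (parOK_map ρ part), ?_⟩
      exact e1n' hE1N (map_ofNat ρ 4) (transc ρ hinj) H₁ H₂ p₁ p₂ S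
    · obtain ⟨ρ, hker, H₁, H₂, p₁, p₂, S, T, hc⟩ := key s
      have i2 : CharZero (AlgebraicClosure ((Spec (CommRingCat.of B9)).residueField s)) :=
        charZero_of ρ
      have h9 : ρ tt = 9 := by
        refine nine ρ ((hker _).2 ?_)
        change tt - 9 ∈ IsLocalRing.maximalIdeal B9
        have e : tt - 9 = algebraMap ℚ[X] B9 (X - C 9) := by
          rw [map_sub, ofNat_eq]; rfl
        rw [e]
        exact (IsLocalization.AtPrime.to_map_mem_maximal_iff B9 P9 _).2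
          (Ideal.mem_span_singleton_self _)
      refine ⟨H₁.cd p₁, H₂.cd p₂, S, T, hc, sp0' hSP0 (map_ofNat ρ 4) h9 H₁ H₂ p₁ p₂ S, ?_⟩
      exact hZSU _ _ _ H₁ H₂ p₁ p₂ S (parOK_map ρ par4) (parOK_map ρ part)

end

end Pool.CRD
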