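import Pool.Agent.CRD.F2.Stmts

/-!
# CRD, area F2: module FAM (the family over a domain)
-/

open CategoryTheory AlgebraicGeometry Limits Opposite Polynomial TensorProduct

namespace Pool.CRD

noncomputable section

namespace FAM_

lemma parOK_map {B K : Type} [CommRing B] [Field K] [Algebra B K] {l : B} (h : ParOK l) :
    ParOK (algebraMap B K l) where
  two := by
    have := h.two.map (algebraMap B K)
    rwa [map_ofNat] at this
  three := by
    have := h.three.map (algebraMap B K)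
    rwa [map_ofNat] at this
  l0 := h.l0.map (algebraMap B K)
  l1 := by
    have := h.l1.map (algebraMap B K)
    rwa [map_sub, map_one] at this

lemma natDegree_fC {K : Type} [Field K] (l : K) : (fC l).natDegree = 7 := by
  unfold fC
  have h1 : ((X : K[X]) ^ 3 - 1).natDegree = 3 := by
    have := natDegree_X_pow_sub_C (R := K) (n := 3) (r := 1)
    simpa using this
  have h2 : ((X : K[X]) ^ 3 - C l).natDegree = 3 := natDegree_X_pow_sub_C
  have h3 : ((X : K[X]) ^ 3 - 1) ≠ 0 := fun h => by rw [h] at h1; simp at h1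
  have h4 : ((X : K[X]) ^ 3 - C l) ≠ 0 := fun h => by rw [h] at h2; simp at h2
  rw [natDegree_mul X_ne_zero (mul_ne_zero h3 h4), natDegree_mul h3 h4, h1, h2, natDegree_X]

lemma exH (hDEX : Stmt_DEX) (hNSO : Stmt_NSO) {K : Type} [Field K] (l : K) :
    Nonempty (HypF K l) :=
  hDEX K (fC l) (hNSO K (fC l) (by rw [natDegree_fC]; decide))

/-- change of the diagram -/
lemma relCov_congr {B : Type} [CommRing B] {X : Scheme.{0}} {π : X ⟶ Spec (CommRingCat.of B)}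
    {C : Type} [SemilatticeInf C] {E : Type} [CommRing E] [Algebra B E]
    {A A' : C → Subalgebra B E} (h : A = A') (hA : ∀ {s t : C}, t ≤ s → A s ≤ A t)
    (hA' : ∀ {s t : C}, t ≤ s → A' s ≤ A' t) (c : RelCov π A hA) : Nonempty (RelCov π A' hA') := by
  subst h
  exact ⟨c⟩

section core
variable {B K' K : Type} [CommRing B] [Field K'] [Field K] [Algebra B K'] [Algebra B K]
  {l₁ l₂ : B}
  {H₁' : HypF K' (algebraMap B K' l₁)} {H₂' : HypF K' (algebraMap B K' l₂)}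
  {H₁ : HypF K (algebraMap B K l₁)} {H₂ : HypF K (algebraMap B K l₂)}
  {p₁' : CrvProps H₁'} {p₂' : CrvProps H₂'} {p₁ : CrvProps H₁} {p₂ : CrvProps H₂}
  [Algebra B H₁'.F] [Algebra B H₂'.F] [Algebra B H₁.F] [Algebra B H₂.F]
  [IsScalarTower B K' H₁'.F] [IsScalarTower B K' H₂'.F] [IsScalarTower B K H₁.F]
  [IsScalarTower B K H₂.F]
  {S' : SurfData (H₁'.cd p₁') (H₂'.cd p₂')} {S : SurfData (H₁.cd p₁) (H₂.cd p₂)}
  [Algebra B S'.L] [Algebra B S.L] [IsScalarTower B K' S'.L] [IsScalarTower B K S.L]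
  (T' : ConicData S') (T : ConicData S)
  [Algebra B T'.E] [Algebra B T.E] [IsScalarTower B S'.L T'.E] [IsScalarTower B S.L T.E]
  [IsScalarTower B K' T'.E] [IsScalarTower B K T.E]

/-- the pairs of functions -/
def JJ (s : Ch3) : Subalgebra B (T'.E × T.E) :=
  J3 (c₁' := H₁'.cd p₁') (c₂' := H₂'.cd p₂') (c₁'' := H₁.cd p₁) (c₂'' := H₂.cd p₂)
    (AC B (algebraMap B (H₁'.F × H₁.F) l₁) (H₁'.z, H₁.z) (H₁'.y, H₁.y))
    (AC B (algebraMap B (H₂'.F × H₂.F) l₂) (H₂'.z, H₂.z) (H₂'.y, H₂.y)) T' T s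

omit [IsScalarTower B K T.E] in
/-- the charts of the family inside the function field of the generic fibre -/
def A0 (s : Ch3) : Subalgebra B T'.E :=
  CA (SA (AC B (algebraMap B H₁'.F l₁) H₁'.z H₁'.y) (AC B (algebraMap B H₂'.F l₂) H₂'.z H₂'.y)
    (S'.e₁.restrictScalars B) (S'.e₂.restrictScalars B))
    (IsScalarTower.toAlgHom B S'.L T'.E) S'.h₁ S'.h₂ T'.η T'.ζ s

lemma good (hCFM : Stmt_CFM) (hGXX : Stmt_GXX) (h₁ : ParOK l₁) (h₂ : ParOK l₂)
    (hinj : Function.Injective (algebraMap B K')) (s : Ch3) :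
    Good B K' K (JJ T' T s) (T'.A s.i s.j s.k) (T.A s.i s.j s.k) :=
  hGXX B K' K (H₁'.cd p₁') (H₂'.cd p₂') (H₁.cd p₁) (H₂.cd p₂) _ _ S' S T' T h₁.two hinj
    (hCFM B K' K l₁ h₁ hinj H₁' H₁ p₁' p₁) (hCFM B K' K l₂ h₂ hinj H₂' H₂ p₂' p₂) s

lemma mono (hCFM : Stmt_CFM) (hJMO : Stmt_JMO) (h₁ : ParOK l₁) (h₂ : ParOK l₂)
    (hinj : Function.Injective (algebraMap B K')) {s t : Ch3} (hst : t ≤ s) :
    JJ T' T s ≤ JJ T' T t :=
  hJMO B K' K (H₁'.cd p₁') (H₂'.cd p₂') (H₁.cd p₁) (H₂.cd p₂) _ _ S' S T' T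
    (hCFM B K' K l₁ h₁ hinj H₁' H₁ p₁' p₁) (hCFM B K' K l₂ h₂ hinj H₂' H₂ p₂' p₂) hst

lemma fst_eq (hACF : Stmt_ACF) (hJFS : Stmt_JFS) (s : Ch3) :
    (JJ T' T s).map (AlgHom.fst B T'.E T.E) = A0 T' s := by
  have h := (hJFS B K' K (H₁'.cd p₁') (H₂'.cd p₂') (H₁.cd p₁) (H₂.cd p₂)
    (AC B (algebraMap B (H₁'.F × H₁.F) l₁) (H₁'.z, H₁.z) (H₁'.y, H₁.y))
    (AC B (algebraMap B (H₂'.F × H₂.F) l₂) (H₂'.z, H₂.z) (H₂'.y, H₂.y)) S' S T' T).2 s
  refine h.trans ?_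
  have e1 : (fun i => (AC B (algebraMap B (H₁'.F × H₁.F) l₁) (H₁'.z, H₁.z) (H₁'.y, H₁.y) i).map
      (AlgHom.fst B H₁'.F H₁.F)) = AC B (algebraMap B H₁'.F l₁) H₁'.z H₁'.y :=
    funext fun i => (hACF B H₁'.F H₁.F l₁ _ _ _ _ i).1
  have e2 : (fun i => (AC B (algebraMap B (H₂'.F × H₂.F) l₂) (H₂'.z, H₂.z) (H₂'.y, H₂.y) i).map
      (AlgHom.fst B H₂'.F H₂.F)) = AC B (algebraMap B H₂'.F l₂) H₂'.z H₂'.y :=
    funext fun i => (hACF B H₂'.F H₂.F l₂ _ _ _ _ i).1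
  unfold A0
  rw [← e1, ← e2]

end core

lemma smooth_fst {B E' E'' : Type} [CommRing B] [CommRing E'] [CommRing E''] [Algebra B E']
    [Algebra B E''] (J : Subalgebra B (E' × E'')) (hs : Algebra.Smooth B J)
    (hi : ∀ p ∈ J, p.1 = 0 → p = 0) :
    Algebra.Smooth B (J.map (AlgHom.fst B E' E'')) := by
  let f : J →ₐ[B] (J.map (AlgHom.fst B E' E'')) :=
    ((AlgHom.fst B E' E'').comp J.val).codRestrict _ (fun x => ⟨x.1, x.2, rfl⟩)
  have hf : Function.Bijective f := by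
    constructor
    · rw [injective_iff_map_eq_zero]
      intro x hx
      have h1 : (x : E' × E'').1 = 0 := congrArg Subtype.val hx
      exact Subtype.ext (hi x x.2 h1)
    · rintro ⟨_, x, hx, rfl⟩
      exact ⟨⟨x, hx⟩, rfl⟩
  exact Algebra.Smooth.of_equiv (AlgEquiv.ofBijective f hf)

end FAM_

open FAM_ in
theorem fam_proof (hCBA : Stmt_CBA) (hACF : Stmt_ACF) (hCPD : Stmt_CPD) (hCFM : Stmt_CFM)
    (hGXX : Stmt_GXX) (hJMO : Stmt_JMO) (hJFS : Stmt_JFS) (hPXS : Stmt_PXS) (hPDX : Stmt_PDX)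
    (hPJM : Stmt_PJM) (hBCJ : Stmt_BCJ) (hSMC : Stmt_SMC) (hPFT : Stmt_PFT) (hCPR : Stmt_CPR)
    (hDEX : Stmt_DEX) (hNSO : Stmt_NSO) (hSEX : Stmt_SEX) (hCEX : Stmt_CEX) : Stmt_FAM := by
  intro B _ _ _ l₁ l₂ h₁ h₂
  -- the generic fibre
  let K' : Type := FractionRing B
  let i1 : Algebra ℚ K' := ((algebraMap B K').comp (algebraMap ℚ B)).toAlgebra
  have i2 : CharZero K' := algebraRat.charZero K'
  have hinj : Function.Injective (algebraMap B K') := IsFractionRing.injective B K'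
  obtain ⟨H₁'⟩ := exH hDEX hNSO (algebraMap B K' l₁)
  obtain ⟨H₂'⟩ := exH hDEX hNSO (algebraMap B K' l₂)
  have p₁' : CrvProps H₁' := hCPR K' _ H₁' (parOK_map h₁)
  have p₂' : CrvProps H₂' := hCPR K' _ H₂' (parOK_map h₂)
  obtain ⟨S'⟩ := hSEX K' (H₁'.cd p₁') _ H₂' p₂'
  obtain ⟨T'⟩ := hCEX K' _ _ S'
  let i3 : Algebra B H₁'.F := ((algebraMap K' H₁'.F).comp (algebraMap B K')).toAlgebra
  let i4 : Algebra B H₂'.F := ((algebraMap K' H₂'.F).comp (algebraMap B K')).toAlgebra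
  let i5 : Algebra B S'.L := ((algebraMap K' S'.L).comp (algebraMap B K')).toAlgebra
  let i6 : Algebra B T'.E := ((algebraMap K' T'.E).comp (algebraMap B K')).toAlgebra
  have i7 : IsScalarTower B K' H₁'.F := IsScalarTower.of_algebraMap_eq (fun _ => rfl)
  have i8 : IsScalarTower B K' H₂'.F := IsScalarTower.of_algebraMap_eq (fun _ => rfl)
  have i9 : IsScalarTower B K' S'.L := IsScalarTower.of_algebraMap_eq (fun _ => rfl)
  have i10 : IsScalarTower B K' T'.E := IsScalarTower.of_algebraMap_eq (fun _ => rfl)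
  have i11 : IsScalarTower B S'.L T'.E := IsScalarTower.of_algebraMap_eq (fun b => by
    change algebraMap K' T'.E (algebraMap B K' b) =
      algebraMap S'.L T'.E (algebraMap K' S'.L (algebraMap B K' b))
    exact IsScalarTower.algebraMap_apply K' S'.L T'.E _)
  have two : Two (B := B) (AC B (algebraMap B H₁'.F l₁) H₁'.z H₁'.y)
      (wC (algebraMap B H₁'.F l₁) H₁'.z) H₁'.z (hC H₁'.z H₁'.y)
      (AC B (algebraMap B H₂'.F l₂) H₂'.z H₂'.y)
      (wC (algebraMap B H₂'.F l₂) H₂'.z) H₂'.z (hC H₂'.z H₂'.y)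
      (S'.e₁.restrictScalars B) (S'.e₂.restrictScalars B)
      (IsScalarTower.toAlgHom B S'.L T'.E) T'.η T'.ζ :=
    { c₁ := hCPD B H₁'.F l₁ H₁'.z H₁'.y h₁ (hCBA K' _ H₁')
      c₂ := hCPD B H₂'.F l₂ H₂'.z H₂'.y h₂ (hCBA K' _ H₂')
      η_ne := by
        rintro h0
        have := T'.tr
        rw [h0] at this
        exact this isAlgebraic_zero
      eqn := T'.eqn }
  obtain ⟨ι, _, σ, m, hd⟩ := hPDX B H₁'.F H₂'.F S'.L _ _ _ _ _ _ _ _ _ _ T'.E _ _ _ two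
  obtain ⟨hm, -⟩ := hPXS B H₁'.F H₂'.F S'.L _ _ _ _ _ _ _ _ _ _ T'.E _ _ _ two
  have i12 : Nonempty Ch3 := ⟨⟨ca, ca, ca⟩⟩
  obtain ⟨X, π, hproj, _, ⟨rc⟩⟩ := hPJM B T'.E Ch3 _ hm ι σ m hd
  have i13 : LocallyOfFiniteType π := (hPFT B X π hproj).1
  have hA0 : ∀ {s t : Ch3}, t ≤ s → A0 T' s ≤ A0 T' t := hm
  have rc0 : RelCov π (A0 T') hA0 := rc
  refine ⟨X, π, ?_, hproj, ?_⟩
  · refine hSMC B X π Ch3 T'.E (A0 T') hA0 rc0 (fun s => ?_)
    have g := good T' T' hCFM hGXX h₁ h₂ hinj s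
    have := smooth_fst (JJ T' T' s) g.smooth g.inj
    rwa [fst_eq T' T' hACF hJFS s] at this
  · intro K _ _ H₁ H₂ p₁ p₂ S T
    let i14 : Algebra B H₁.F := ((algebraMap K H₁.F).comp (algebraMap B K)).toAlgebra
    let i15 : Algebra B H₂.F := ((algebraMap K H₂.F).comp (algebraMap B K)).toAlgebra
    let i16 : Algebra B S.L := ((algebraMap K S.L).comp (algebraMap B K)).toAlgebra
    let i17 : Algebra B T.E := ((algebraMap K T.E).comp (algebraMap B K)).toAlgebra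
    have i18 : IsScalarTower B K H₁.F := IsScalarTower.of_algebraMap_eq (fun _ => rfl)
    have i19 : IsScalarTower B K H₂.F := IsScalarTower.of_algebraMap_eq (fun _ => rfl)
    have i20 : IsScalarTower B K S.L := IsScalarTower.of_algebraMap_eq (fun _ => rfl)
    have i21 : IsScalarTower B K T.E := IsScalarTower.of_algebraMap_eq (fun _ => rfl)
    have i22 : IsScalarTower B S.L T.E := IsScalarTower.of_algebraMap_eq (fun b => by
      change algebraMap K T.E (algebraMap B K b) =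
        algebraMap S.L T.E (algebraMap K S.L (algebraMap B K b))
      exact IsScalarTower.algebraMap_apply K S.L T.E _)
    have hfst : (fun s => (JJ T' T s).map (AlgHom.fst B T'.E T.E)) = A0 T' :=
      funext fun s => fst_eq T' T hACF hJFS s
    have hmJ : ∀ {s t : Ch3}, t ≤ s → JJ T' T s ≤ JJ T' T t :=
      fun h => mono T' T hCFM hJMO h₁ h₂ hinj h
    have hmap : ∀ {s t : Ch3}, t ≤ s → (JJ T' T s).map (AlgHom.fst B T'.E T.E) ≤
        (JJ T' T t).map (AlgHom.fst B T'.E T.E) := fun h => Subalgebra.map_mono (hmJ h)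
    obtain ⟨rc1⟩ := relCov_congr hfst.symm hA0 hmap rc0
    exact hBCJ B K' K T'.E T.E Ch3 (JJ T' T) hmJ (fun s => T'.A s.i s.j s.k)
      (fun s => T.A s.i s.j s.k) (fun h => T.A_mono h.1 h.2.1 h.2.2)
      (good T' T hCFM hGXX h₁ h₂ hinj) X π hmap rc1

end

end Pool.CRD
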