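import Pool.Agent.CRD.F2.Stmts

/-!
# CRD, area F2: finiteness of a projection (pure algebra)
-/

open MvPolynomial

namespace Pool.CRD

namespace FN1_

variable {K A : Type} [CommRing K] [CommRing A] [Algebra K A] {n : ℕ}

theorem hom_mem (S : Subalgebra K A) (P : Submodule S A) (x : Fin (n + 1) → A) (d : ℕ)
    (h : ∀ m : Fin (n + 1) →₀ ℕ, m.degree = d → aeval x (monomial m (1 : K)) ∈ P)
    (q : MvPolynomial (Fin (n + 1)) K) (hq : q.IsHomogeneous d) : aeval x q ∈ P := by
  rw [q.as_sum, map_sum]
  refine Submodule.sum_mem _ fun m hm => ?_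
  have hdeg : m.degree = d := by
    by_contra hne
    exact (mem_support_iff.1 hm) (hq.coeff_eq_zero hne)
  have h1 : (monomial m (coeff m q) : MvPolynomial (Fin (n + 1)) K) =
      C (coeff m q) * monomial m 1 := by rw [C_mul_monomial, mul_one]
  rw [h1, map_mul, aeval_C]
  have h2 : algebraMap K A (coeff m q) * aeval x (monomial m (1 : K)) =
      (algebraMap K S (coeff m q)) • aeval x (monomial m (1 : K)) := by
    rw [Algebra.smul_def]; rfl
  rw [h2]
  exact P.smul_mem _ (h m hdeg)

end FN1_

open FN1_ in
theorem fn1_proof : Stmt_FN1 := by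
  intro K A _ _ _ n x L N b hx hb hL
  let S := Algebra.adjoin K (Set.range L)
  let D := (n + 1) * N
  let T : Set (Fin (n + 1) →₀ ℕ) := {m | m.degree ≤ D}
  have hT : T.Finite := Finsupp.finite_of_degree_le D
  let P : Submodule S A := Submodule.span S ((fun m => aeval x (monomial m (1 : K))) '' T)
  have key : ∀ (d : ℕ) (m : Fin (n + 1) →₀ ℕ), m.degree = d →
      aeval x (monomial m (1 : K)) ∈ P := by
    intro d
    induction d using Nat.strong_induction_on with
    | _ d ih =>
      intro m hm
      by_cases hd : d ≤ D
      · exact Submodule.subset_span ⟨m, by rw [← hm] at hd; exact hd, rfl⟩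
      · obtain ⟨k, hk⟩ : ∃ k, N + 1 ≤ m k := by
          by_contra hcon
          push Not at hcon
          apply hd
          rw [← hm, Finsupp.degree_eq_sum]
          calc ∑ i, m i ≤ ∑ _i : Fin (n + 1), N := Finset.sum_le_sum fun i _ => by
                have := hcon i; omega
            _ = D := by simp [D]
        let m' : Fin (n + 1) →₀ ℕ := m - Finsupp.single k (N + 1)
        have hm' : m = m' + Finsupp.single k (N + 1) := by
          rw [tsub_add_cancel_of_le]
          exact Finsupp.single_le_iff.2 hk
        have hdeg : m'.degree + (N + 1) = d := by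
          rw [← hm, hm', map_add, Finsupp.degree_single]
        have h1 : (monomial m (1 : K)) = monomial m' 1 * X k ^ (N + 1) := by
          rw [X_pow_eq_monomial, monomial_mul, mul_one, ← hm']
        rw [h1, map_mul, map_pow, aeval_X, hL, Finset.mul_sum]
        refine Submodule.sum_mem _ fun j _ => ?_
        have h2 : aeval x (monomial m' (1 : K)) * (aeval x (b k j) * L j) =
            (⟨L j, Algebra.subset_adjoin ⟨j, rfl⟩⟩ : S) • aeval x (monomial m' 1 * b k j) := by
          rw [map_mul, Subalgebra.smul_def, smul_eq_mul]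
          ring
        rw [h2]
        apply P.smul_mem
        refine hom_mem S P x (m'.degree + N) (ih _ (by omega)) _ ?_
        exact (isHomogeneous_monomial (R := K) 1 rfl).mul (hb k j)
  have htop : P = ⊤ := by
    rw [eq_top_iff]
    intro a _
    have ha : a ∈ Algebra.adjoin K (Set.range x) := by rw [hx]; trivial
    rw [Algebra.adjoin_range_eq_range_aeval] at ha
    obtain ⟨q, rfl⟩ := ha
    change aeval x q ∈ P
    rw [q.as_sum, map_sum]
    refine Submodule.sum_mem _ fun m _ => ?_
    refine hom_mem S P x m.degree (key _) _ ?_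
    exact isHomogeneous_monomial _ rfl
  exact ⟨by rw [← htop]; exact Submodule.fg_span (hT.image _)⟩

end Pool.CRD
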