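import Pool.Agent.CRD.F2.Stmts

/-!
# CRD, area F2, module GMF: geometric fibres over an affine base
-/

open CategoryTheory AlgebraicGeometry Limits Opposite Polynomial TensorProduct

namespace Pool.CRD

noncomputable section

theorem gmf : Stmt_GMF := by
  intro B _ X π _ s
  let K := AlgebraicClosure ((Spec (CommRingCat.of B)).residueField s)
  let x : Spec (CommRingCat.of K) ⟶ Spec (CommRingCat.of B) :=
    Spec.map (CommRingCat.ofHom (algebraMap ((Spec (CommRingCat.of B)).residueField s) K)) ≫
      (Spec (CommRingCat.of B)).fromSpecResidueField s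
  let ρ : B →+* K := (Spec.preimage x).hom
  have hρ : Spec.map (CommRingCat.ofHom ρ) = x := Spec.map_preimage x
  have h1 : geomFibre π s = fibm π x := rfl
  refine ⟨ρ, by rw [h1, hρ], fun b => ?_⟩
  let pt : Spec (CommRingCat.of K) := (⊥ : PrimeSpectrum K)
  have h2 : x pt = s := by
    change ((Spec (CommRingCat.of B)).fromSpecResidueField s) _ = s
    exact Scheme.fromSpecResidueField_apply _ _
  have h3 : Spec.map (CommRingCat.ofHom ρ) pt = s := by rw [hρ]; exact h2
  have h4 : PrimeSpectrum.comap ρ (⊥ : PrimeSpectrum K) = s := h3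
  have h5 : (show PrimeSpectrum B from s).asIdeal =
      (PrimeSpectrum.comap ρ (⊥ : PrimeSpectrum K)).asIdeal := by
    rw [h4]
  rw [h5, PrimeSpectrum.comap_asIdeal, Ideal.mem_comap]
  exact Iff.rfl

end

end Pool.CRD
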