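import Pool.Agent.CRD.F2.Stmts

/-!
# CRD, area F2, INT: integrality of a scheme covered by spectra of domains
-/

set_option autoImplicit false

open CategoryTheory AlgebraicGeometry Limits Opposite Polynomial TensorProduct

namespace Pool.CRD

noncomputable section

namespace INT_

theorem aff_integral {X : Scheme.{0}} {U : X.Opens} (hU : IsAffineOpen U)
    (hD : IsDomain Γ(X, U)) : AlgebraicGeometry.IsIntegral (U : Scheme.{0}) := by
  have h1 : AlgebraicGeometry.IsIntegral (Spec Γ(X, U)) := inferInstance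
  exact AlgebraicGeometry.IsIntegral.of_isIso hU.isoSpec.inv

theorem irr {X : Scheme.{0}} {U : X.Opens} (h : AlgebraicGeometry.IsIntegral (U : Scheme.{0})) :
    IsIrreducible (U : Set X) := by
  have h1 : IrreducibleSpace (U : Scheme.{0}) := inferInstance
  exact isIrreducible_iff_irreducibleSpace.mpr h1

end INT_

theorem int_proof : Stmt_INT := by
  intro K _ Y C _ _ _ E _ _ A hA c
  have hD : ∀ s, IsDomain Γ(Y.X, c.opn s) := by
    intro s
    have h1 : IsDomain (A s) := inferInstance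
    have e : (A s) ≃+* Γ(Y.X, c.opn s) := c.φ s
    exact e.symm.toMulEquiv.isDomain (A s)
  have hI : ∀ s, AlgebraicGeometry.IsIntegral (c.opn s : Scheme.{0}) :=
    fun s => INT_.aff_integral (c.aff s) (hD s)
  have hirr : ∀ s, IsIrreducible (c.opn s : Set Y.X) := fun s => INT_.irr (hI s)
  have hcov : TopologicalSpace.IsOpenCover c.opn := c.cov
  have hred : IsReduced Y.X := by
    have : ∀ i, IsReduced ((Y.X.openCoverOfIsOpenCover c.opn hcov).X i) := by
      intro i
      have := hI i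
      exact (inferInstance : IsReduced (c.opn i : Scheme.{0}))
    exact IsReduced.of_openCover Y.X (Y.X.openCoverOfIsOpenCover c.opn hcov)
  -- the least element
  obtain ⟨s₀, hs₀⟩ : ∃ s₀ : C, ∀ s, s₀ ≤ s := by
    have hd : DirectedOn (· ≥ ·) (Set.univ : Set C) :=
      fun a _ b _ => ⟨a ⊓ b, trivial, inf_le_left, inf_le_right⟩
    obtain ⟨m, hm⟩ := (Set.finite_univ (α := C)).exists_minimal Set.univ_nonempty
    refine ⟨m, fun s => ?_⟩
    have h1 : m ⊓ s ≤ m := inf_le_left
    have h2 := hm.2 trivial h1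
    exact le_trans h2 inf_le_right
  have hmem : ∀ x : Y.X, ∃ s, x ∈ c.opn s := by
    intro x
    have hx : x ∈ (⨆ s, c.opn s) := by
      rw [c.cov]; trivial
    exact TopologicalSpace.Opens.mem_iSup.mp hx
  have hmeet : ∀ U : Set Y.X, IsOpen U → U.Nonempty → ((c.opn s₀ : Set Y.X) ∩ U).Nonempty := by
    intro U hU ⟨x, hx⟩
    obtain ⟨s, hs⟩ := hmem x
    obtain ⟨y, hy⟩ := (hirr s₀).1
    have hle : c.opn s₀ ≤ c.opn s := c.toAffCov.opn_mono (hs₀ s)
    obtain ⟨w, -, hw1, hw2⟩ := (hirr s).2 (c.opn s₀ : Set Y.X) U (c.opn s₀).isOpen hU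
      ⟨y, hle hy, hy⟩ ⟨x, hs, hx⟩
    exact ⟨w, hw1, hw2⟩
  have hpre : PreirreducibleSpace Y.X := by
    constructor
    intro U V hU hV hUn hVn
    rw [Set.univ_inter] at hUn hVn
    have h1 := hmeet U hU hUn
    have h2 := hmeet V hV hVn
    obtain ⟨w, -, hw⟩ := (hirr s₀).2 U V hU hV h1 h2
    exact ⟨w, trivial, hw⟩
  have hirrS : IrreducibleSpace Y.X := by
    obtain ⟨y, -⟩ := (hirr s₀).1
    exact { toPreirreducibleSpace := hpre, toNonempty := ⟨y⟩ }
  exact isIntegral_of_irreducibleSpace_of_isReduced Y.X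

end

end Pool.CRD
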