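import Pool.Agent.CRD.F2.Stmts

/-!
# CRD, area F2: module PC1 (a linear system gives a projective cover)
-/

open CategoryTheory AlgebraicGeometry Limits Opposite Polynomial TensorProduct

namespace Pool.CRD

noncomputable section

namespace PC1_

lemma fin_step {P1 P2 R1 R2 : Type} [CommRing P1] [CommRing P2] [CommRing R1] [CommRing R2]
    (π1 : P1 →+* R1) (π2 : P2 →+* R2) (ρP : P1 →+* P2) (ρ : R1 →+* R2)
    (hcomm : ∀ p, π2 (ρP p) = ρ (π1 p)) (h1 : π1.Finite) (g : R1) (u : P2)
    (hu : π2 u * ρ g = 1) (hloc : ∀ x : R2, ∃ (n : ℕ) (r : R1), x * ρ g ^ n = ρ r) :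
    π2.Finite := by
  classical
  let i1 : Algebra P1 R1 := π1.toAlgebra
  let i2 : Algebra P2 R2 := π2.toAlgebra
  obtain ⟨S, hS⟩ : (⊤ : Submodule P1 R1).FG := h1.fg_top
  refine (⟨⟨by classical exact S.image ρ, ?_⟩⟩ : Module.Finite P2 R2)
  rw [eq_top_iff]
  intro x _
  obtain ⟨n, r, hr⟩ := hloc x
  have hx : x = π2 (u ^ n) * ρ r := by
    rw [← hr, map_pow]
    have : (π2 u) ^ n * (x * ρ g ^ n) = x * (π2 u * ρ g) ^ n := by ring
    rw [this, hu, one_pow, mul_one]
  have hρ : ∀ r : R1, ρ r ∈ Submodule.span P2 ((ρ : R1 → R2) '' (S : Set R1)) := by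
    intro r
    have hr : r ∈ Submodule.span P1 (S : Set R1) := by rw [hS]; trivial
    induction hr using Submodule.span_induction with
    | mem y hy => exact Submodule.subset_span ⟨y, hy, rfl⟩
    | zero => rw [map_zero]; exact zero_mem _
    | add a b _ _ ha hb => rw [map_add]; exact add_mem ha hb
    | smul p y _ hy =>
      have : ρ (p • y) = (ρP p) • ρ y := by
        change ρ (π1 p * y) = π2 (ρP p) * ρ y
        rw [map_mul, hcomm]
      rw [this]
      exact Submodule.smul_mem _ _ hy
  rw [hx]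
  have h3 : π2 (u ^ n) * ρ r = (u ^ n : P2) • ρ r := rfl
  rw [h3]
  rw [Finset.coe_image]
  exact Submodule.smul_mem _ _ (hρ r)

lemma loc_of {Y : Scheme.{0}} {U V : Y.Opens} (hU : IsAffineOpen U) (f : Γ(Y, U)) (hVU : V ≤ U)
    (e : V = Y.basicOpen f) :
    letI := (Y.presheaf.map (homOfLE hVU).op).hom.toAlgebra
    IsLocalization.Away f Γ(Y, V) := by
  subst e
  exact hU.isLocalization_basicOpen f

lemma fin_of_adjoin {K P A : Type} [Field K] [CommRing P] [Algebra K P] [CommRing A] [Algebra K A]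
    (f : P →ₐ[K] A) (r : Fin 3 → P) (hr : Algebra.adjoin K (Set.range r) = ⊤)
    (h : Module.Finite (Algebra.adjoin K (Set.range (fun j => f (r j)))) A) :
    f.toRingHom.Finite := by
  have hrange : f.range = Algebra.adjoin K (Set.range (fun j => f (r j))) := by
    rw [← Algebra.map_top, ← hr, AlgHom.map_adjoin]
    congr 1
    ext x
    simp
  have h1 : (f.rangeRestrict.toRingHom).Finite :=
    RingHom.Finite.of_surjective _ f.rangeRestrict_surjective
  have h2 : (f.range.val.toRingHom).Finite := by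
    rw [hrange]
    exact h
  have h3 := h2.comp h1
  exact h3

end PC1_

open PC1_ in
theorem pc1_proof (hCH1 : Stmt_CH1) (hPN1 : Stmt_PN1) (hPN2 : Stmt_PN2) (hFN1 : Stmt_FN1) :
    Stmt_PC1 := by
  intro K _ Y n i l h
  obtain ⟨q, hq, N, b, hb, hrel⟩ := hCH1 K Y n i l h
  obtain ⟨π, hπ⟩ := hPN1 K (Fin 3) (linCov h).fn (fun s i j => q s i (l j))
    (fun s i hi => hq.one s i hi)
    (fun s i j k hi hj => hq.mul s i j (l k) hi hj (h.hom k))
    (fun s s' hs i j hi => hq.res hs i (l j) hi (h.hom j))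
  -- localisation
  have hloc : ∀ (s : Cov (Fin 3)) (i j : Fin 3) (hi : i ∈ s.s),
      letI := ((linCov h).fn.map (homOfLE (Cov.ins_le j s)).op).hom.toRingHom.toAlgebra
      IsLocalization.Away ((π.app (op s)).hom (ratio K K s i j hi))
        ((linCov h).fn.ring (Cov.ins j s)) := by
    intro s i j hi
    rw [hπ]
    exact loc_of ((linCov h).aff s) (q s i (l j)) ((linCov h).opn_mono (Cov.ins_le j s))
      (hq.bas s i j hi).symm
  -- finiteness on the charts `U_a`
  have hfin1 : ∀ a : Fin 3, (π.app (op (Cov.one a))).hom.toRingHom.Finite := by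
    intro a
    let x : Fin (n + 1) → (linCov h).fn.ring (Cov.one a) :=
      fun k => q (Cov.one a) a (MvPolynomial.X k)
    let L : Fin 3 → (linCov h).fn.ring (Cov.one a) := fun j => q (Cov.one a) a (l j)
    have hadj : Algebra.adjoin K (Set.range x) = ⊤ := by
      rw [eq_top_iff]
      intro y _
      rw [Algebra.mem_adjoin_iff]
      have hy : y ∈ (⊤ : Subring Γ(Y.X, (linCov h).opn (Cov.one a))) := trivial
      rw [← hq.gen a] at hy
      exact hy
    have hf := hFN1 K ((linCov h).fn.ring (Cov.one a)) n x L N b hadj hb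
      (fun k => hrel a k)
    refine fin_of_adjoin (π.app (op (Cov.one a))).hom
      (fun j => ratio K K (Cov.one a) a j (Finset.mem_singleton_self a)) (hPN2 K (Fin 3) a) ?_
    have e : (fun j => (π.app (op (Cov.one a))).hom
        (ratio K K (Cov.one a) a j (Finset.mem_singleton_self a))) =
        L := funext fun j => hπ _ _ _ _
    rw [e]
    exact hf
  -- finiteness in general
  have hstep : ∀ (s : Cov (Fin 3)) (j : Fin 3), (π.app (op s)).hom.toRingHom.Finite →
      (π.app (op (Cov.ins j s))).hom.toRingHom.Finite := by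
    intro s j hs
    obtain ⟨i, hi⟩ := s.ne
    have hi' : i ∈ (Cov.ins j s).s := Finset.mem_insert_of_mem hi
    have hj' : j ∈ (Cov.ins j s).s := Finset.mem_insert_self _ _
    have hl := hloc s i j hi
    refine fin_step (π.app (op s)).hom.toRingHom (π.app (op (Cov.ins j s))).hom.toRingHom
      ((Pn K K (Fin 3)).map (homOfLE (Cov.ins_le j s)).op).hom.toRingHom
      ((linCov h).fn.map (homOfLE (Cov.ins_le j s)).op).hom.toRingHom ?_ hs
      ((π.app (op s)).hom (ratio K K s i j hi)) (ratio K K (Cov.ins j s) j i hj') ?_ ?_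
    · intro p
      have := π.naturality (homOfLE (Cov.ins_le j s)).op
      exact congrArg (fun f => f.hom p) this
    · change (π.app (op (Cov.ins j s))).hom (ratio K K (Cov.ins j s) j i hj') *
        ((linCov h).fn.map (homOfLE (Cov.ins_le j s)).op).hom
          ((π.app (op s)).hom (ratio K K s i j hi)) = 1
      rw [hπ, hπ]
      have e1 : ((linCov h).fn.map (homOfLE (Cov.ins_le j s)).op).hom (q s i (l j)) =
          q (Cov.ins j s) i (l j) := hq.res (Cov.ins_le j s) i (l j) hi (h.hom j)
      rw [e1, mul_comm]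
      exact (hq.mul _ i j (l i) hi' hj' (h.hom i)).trans (hq.one _ i hi')
    · intro x
      let i0 : Algebra ((linCov h).fn.ring s) ((linCov h).fn.ring (Cov.ins j s)) :=
        ((linCov h).fn.map (homOfLE (Cov.ins_le j s)).op).hom.toRingHom.toAlgebra
      obtain ⟨n, r, hr⟩ := IsLocalization.Away.surj (S := (linCov h).fn.ring (Cov.ins j s))
        ((π.app (op s)).hom (ratio K K s i j hi)) x
      exact ⟨n, r, hr⟩
  have hfin : ∀ (T : Finset (Fin 3)) (hT : T.Nonempty),
      (π.app (op (⟨T, hT⟩ : Cov (Fin 3)))).hom.toRingHom.Finite := by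
    intro T hT
    induction hT using Finset.Nonempty.cons_induction with
    | singleton a => exact hfin1 a
    | cons a s h0 hs ih =>
      have e : (⟨Finset.cons a s h0, Finset.cons_nonempty h0⟩ : Cov (Fin 3)) =
          Cov.ins a ⟨s, hs⟩ := Cov.ext' (Finset.cons_eq_insert a s h0)
      rw [e]
      exact hstep _ _ ih
  exact ⟨⟨π, fun s => hfin s.unop.s s.unop.ne, hloc⟩⟩

end

end Pool.CRD
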