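import Pool.Agent.CRD.F2.Stmts

/-!
# CRD / F2: projective data for the product of two curves
-/

open CategoryTheory AlgebraicGeometry Limits Opposite Polynomial TensorProduct

namespace Pool.CRD

namespace PDS_

lemma cov3 (k : Cov Bool) : k = ca ∨ k = cb ∨ k = cab := by
  obtain ⟨s, hs⟩ := k
  by_cases h1 : false ∈ s <;> by_cases h2 : true ∈ s
  · right; right
    apply Cov.ext'
    ext x
    cases x <;> simp [cab, h1, h2]
  · left
    apply Cov.ext'
    ext x
    cases x <;> simp [ca, Cov.one, h1, h2]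
  · right; left
    apply Cov.ext'
    ext x
    cases x <;> simp [cb, Cov.one, h1, h2]
  · exfalso
    obtain ⟨x, hx⟩ := hs
    cases x
    · exact h1 hx
    · exact h2 hx

section
variable {B E : Type} [CommRing B] [Field E] [Algebra B E] {ι : Type} (σ : ι → E)

lemma ratA_mono {m m' : Finset ι} (h : m ⊆ m') : PJ.ratA B σ m ≤ PJ.ratA B σ m' := by
  apply Algebra.adjoin_mono
  rintro x ⟨i, hi, j, rfl⟩
  exact ⟨i, h hi, j, rfl⟩

lemma ratA_union [DecidableEq ι] (m m' : Finset ι) :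
    PJ.ratA B σ (m ∪ m') = PJ.ratA B σ m ⊔ PJ.ratA B σ m' := by
  unfold PJ.ratA
  rw [← Algebra.adjoin_union]
  congr 1
  ext x
  constructor
  · rintro ⟨i, hi, j, rfl⟩
    rcases Finset.mem_union.1 hi with h | h
    · exact Or.inl ⟨i, h, j, rfl⟩
    · exact Or.inr ⟨i, h, j, rfl⟩
  · rintro (⟨i, hi, j, rfl⟩ | ⟨i, hi, j, rfl⟩)
    · exact ⟨i, Finset.mem_union_left _ hi, j, rfl⟩
    · exact ⟨i, Finset.mem_union_right _ hi, j, rfl⟩

lemma mem_ratA {m : Finset ι} {i : ι} (hi : i ∈ m) (j : ι) : σ j / σ i ∈ PJ.ratA B σ m :=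
  Algebra.subset_adjoin ⟨i, hi, j, rfl⟩

end

/-- projective data of one curve -/
lemma cur {B F : Type} [CommRing B] [Field F] [Algebra B F] {A : Cov Bool → Subalgebra B F}
    {w x : F} {h : Cov Bool → F} (c : PCur A w x h) :
    ∃ (ι : Type) (_ : Fintype ι) (σ : ι → F) (m : Cov Bool → Finset ι),
      (∀ s, (m s).Nonempty) ∧ (∀ s, ∀ i ∈ m s, σ i ≠ 0) ∧
      (∀ s, A s = PJ.ratA B σ (m s)) ∧ (∀ s t, t ≤ s → m s ⊆ m t) ∧
      ∀ s t, A (s ⊓ t) ≤ A s ⊔ A t := by
  classical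
  obtain ⟨T, h1, hw, ha, hb⟩ := c.ex_T
  let o : T := ⟨1, h1⟩
  let v : T := ⟨w, hw⟩
  let σ : T → F := fun t => t
  let m : Cov Bool → Finset T := fun s =>
    (if false ∈ s.s then {o} else ∅) ∪ (if true ∈ s.s then {v} else ∅)
  have ma : m ca = {o} := by
    have e1 : false ∈ ca.s := by simp [ca, Cov.one]
    have e2 : true ∉ ca.s := by simp [ca, Cov.one]
    simp only [m, if_pos e1, if_neg e2, Finset.union_empty]
  have mb : m cb = {v} := by
    have e1 : false ∉ cb.s := by simp [cb, Cov.one]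
    have e2 : true ∈ cb.s := by simp [cb, Cov.one]
    simp only [m, if_pos e2, if_neg e1, Finset.empty_union]
  have mab : m cab = {o} ∪ {v} := by
    have e1 : false ∈ cab.s := by simp [cab]
    have e2 : true ∈ cab.s := by simp [cab]
    simp only [m, if_pos e2, if_pos e1]
  have mono : ∀ s t, t ≤ s → m s ⊆ m t := by
    intro s t hst
    apply Finset.union_subset_union
    · by_cases hf : false ∈ s.s
      · rw [if_pos hf, if_pos (hst hf)]
      · rw [if_neg hf]; exact Finset.empty_subset _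
    · by_cases hf : true ∈ s.s
      · rw [if_pos hf, if_pos (hst hf)]
      · rw [if_neg hf]; exact Finset.empty_subset _
  have minf : ∀ s t, m (s ⊓ t) ⊆ m s ∪ m t := by
    intro s t i hi
    have hsf : ∀ b, b ∈ (s ⊓ t).s ↔ b ∈ s.s ∨ b ∈ t.s := fun b => Finset.mem_union
    rcases Finset.mem_union.1 hi with hi | hi
    · split_ifs at hi with hf
      · rcases (hsf false).1 hf with h2 | h2
        · exact Finset.mem_union_left _ (Finset.mem_union_left _ (by rw [if_pos h2]; exact hi))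
        · exact Finset.mem_union_right _ (Finset.mem_union_left _ (by rw [if_pos h2]; exact hi))
      · simp at hi
    · split_ifs at hi with hf
      · rcases (hsf true).1 hf with h2 | h2
        · exact Finset.mem_union_left _ (Finset.mem_union_right _ (by rw [if_pos h2]; exact hi))
        · exact Finset.mem_union_right _ (Finset.mem_union_right _ (by rw [if_pos h2]; exact hi))
      · simp at hi
  have rat : ∀ s, A s = PJ.ratA B σ (m s) := by
    have ra : A ca = PJ.ratA B σ (m ca) := by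
      rw [ha, ma]
      unfold PJ.ratA
      congr 1
      ext x
      constructor
      · intro hx
        exact ⟨o, by simp, ⟨x, hx⟩, by simp [σ, o]⟩
      · rintro ⟨i, hi, j, rfl⟩
        rw [Finset.mem_singleton.1 hi]
        simp [σ, o]
    have rb : A cb = PJ.ratA B σ (m cb) := by
      rw [hb, mb]
      unfold PJ.ratA
      congr 1
      ext x
      constructor
      · rintro ⟨t, ht, rfl⟩
        exact ⟨v, by simp, ⟨t, ht⟩, by simp [σ, v, div_eq_mul_inv]⟩
      · rintro ⟨i, hi, j, rfl⟩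
        rw [Finset.mem_singleton.1 hi]
        exact ⟨j, j.2, by simp [σ, v, div_eq_mul_inv]⟩
    intro s
    rcases cov3 s with rfl | rfl | rfl
    · exact ra
    · exact rb
    · rw [c.ab, ra, rb, ma, mb, mab, ratA_union]
  refine ⟨T, inferInstance, σ, m, ?_, ?_, rat, mono, ?_⟩
  · intro s
    obtain ⟨b, hb'⟩ := s.ne
    cases b
    · exact ⟨o, Finset.mem_union_left _ (by rw [if_pos hb']; simp)⟩
    · exact ⟨v, Finset.mem_union_right _ (by rw [if_pos hb']; simp)⟩
  · intro s i hi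
    rcases Finset.mem_union.1 hi with hi | hi
    · split_ifs at hi
      · rw [Finset.mem_singleton.1 hi]
        exact one_ne_zero
      · simp at hi
    · split_ifs at hi
      · rw [Finset.mem_singleton.1 hi]
        exact c.w_ne
      · simp at hi
  · intro s t
    rw [rat, rat, rat, ← ratA_union]
    exact ratA_mono σ (minf s t)

/-- a valuation ring over `B` as a `B`-subalgebra -/
def vsub {B L : Type} [CommRing B] [Field L] [Algebra B L] (V : ValuationSubring L)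
    (hV : ∀ b : B, algebraMap B L b ∈ V) : Subalgebra B L where
  carrier := V
  mul_mem' ha hb := mul_mem ha hb
  add_mem' ha hb := add_mem ha hb
  algebraMap_mem' b := hV b

lemma valc {B F L : Type} [CommRing B] [Field F] [Algebra B F] [Field L] [Algebra B L]
    {A : Cov Bool → Subalgebra B F} {w x : F} {h : Cov Bool → F} (c : PCur A w x h)
    (e : F →ₐ[B] L) (V : ValuationSubring L) (hV : ∀ b : B, algebraMap B L b ∈ V) :
    ∃ i : Cov Bool, (A i).map e ≤ vsub V hV := by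
  have h1 := c.val (V.comap (e : F →+* L)) (fun b => by
    rw [ValuationSubring.mem_comap]
    change e (algebraMap B F b) ∈ V
    rw [AlgHom.commutes]
    exact hV b)
  have key : ∀ i, (∀ a ∈ A i, a ∈ V.comap (e : F →+* L)) → (A i).map e ≤ vsub V hV := by
    intro i hi
    rintro _ ⟨a, ha, rfl⟩
    exact hi a ha
  rcases h1 with h1 | h1
  · exact ⟨ca, key ca h1⟩
  · exact ⟨cb, key cb h1⟩

end PDS_

open PDS_

theorem pds_proof : Stmt_PDS := by
  classical
  intro B F₁ F₂ L _ _ _ _ _ _ _ A₁ w₁ x₁ h₁ A₂ w₂ x₂ h₂ e₁ e₂ c₁ c₂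
  obtain ⟨ι₁, _, σ₁, m₁, ne₁, nz₁, rat₁, mono₁, sup₁⟩ := cur c₁
  obtain ⟨ι₂, _, σ₂, m₂, ne₂, nz₂, rat₂, mono₂, sup₂⟩ := cur c₂
  have am₁ : ∀ {s t : Cov Bool}, t ≤ s → A₁ s ≤ A₁ t := by
    intro s t h
    rw [rat₁, rat₁]
    exact ratA_mono σ₁ (mono₁ s t h)
  have am₂ : ∀ {s t : Cov Bool}, t ≤ s → A₂ s ≤ A₂ t := by
    intro s t h
    rw [rat₂, rat₂]
    exact ratA_mono σ₂ (mono₂ s t h)
  refine ⟨fun {s t} hst => sup_le_sup (Subalgebra.map_mono (am₁ hst.1))
    (Subalgebra.map_mono (am₂ hst.2)), ?_⟩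
  let σ : ι₁ × ι₂ → L := fun p => e₁ (σ₁ p.1) * e₂ (σ₂ p.2)
  have z₁ : ∀ {a : F₁}, a ≠ 0 → e₁ a ≠ 0 := fun h => (map_ne_zero e₁).2 h
  have z₂ : ∀ {a : F₂}, a ≠ 0 → e₂ a ≠ 0 := fun h => (map_ne_zero e₂).2 h
  refine ⟨ι₁ × ι₂, inferInstance, σ, fun s => m₁ s.i ×ˢ m₂ s.j, ?_, ?_, ?_, ?_, ?_, ?_⟩
  · intro s
    exact (ne₁ s.i).product (ne₂ s.j)
  · rintro s ⟨p, q⟩ hi
    rw [Finset.mem_product] at hi
    exact mul_ne_zero (z₁ (nz₁ _ _ hi.1)) (z₂ (nz₂ _ _ hi.2))
  · intro s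
    apply le_antisymm
    · refine sup_le ?_ ?_
      · rw [rat₁, PJ.ratA, AlgHom.map_adjoin, Algebra.adjoin_le_iff]
        rintro _ ⟨_, ⟨i, hi, j, rfl⟩, rfl⟩
        obtain ⟨q, hq⟩ := ne₂ s.j
        have h1 : e₁ (σ₁ j / σ₁ i) = σ (j, q) / σ (i, q) := by
          have := z₂ (nz₂ _ _ hq)
          have := z₁ (nz₁ _ _ hi)
          simp only [σ, map_div₀]
          field_simp
        change e₁ (σ₁ j / σ₁ i) ∈ PJ.ratA B σ (m₁ s.i ×ˢ m₂ s.j)
        rw [h1]
        exact mem_ratA σ (Finset.mem_product.2 ⟨hi, hq⟩) _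
      · rw [rat₂, PJ.ratA, AlgHom.map_adjoin, Algebra.adjoin_le_iff]
        rintro _ ⟨_, ⟨i, hi, j, rfl⟩, rfl⟩
        obtain ⟨q, hq⟩ := ne₁ s.i
        have h1 : e₂ (σ₂ j / σ₂ i) = σ (q, j) / σ (q, i) := by
          have := z₁ (nz₁ _ _ hq)
          have := z₂ (nz₂ _ _ hi)
          simp only [σ, map_div₀]
          field_simp
        change e₂ (σ₂ j / σ₂ i) ∈ PJ.ratA B σ (m₁ s.i ×ˢ m₂ s.j)
        rw [h1]
        exact mem_ratA σ (Finset.mem_product.2 ⟨hq, hi⟩) _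
    · rw [PJ.ratA, Algebra.adjoin_le_iff]
      rintro _ ⟨⟨i, i'⟩, hi, ⟨j, j'⟩, rfl⟩
      rw [Finset.mem_product] at hi
      have h1 : σ (j, j') / σ (i, i') = e₁ (σ₁ j / σ₁ i) * e₂ (σ₂ j' / σ₂ i') := by
        simp only [σ, map_div₀]
        rw [mul_div_mul_comm]
      rw [h1]
      refine mul_mem ?_ ?_
      · refine (le_sup_left : (A₁ s.i).map e₁ ≤ _) ⟨_, ?_, rfl⟩
        rw [rat₁]
        exact mem_ratA σ₁ hi.1 j
      · refine (le_sup_right : (A₂ s.j).map e₂ ≤ _) ⟨_, ?_, rfl⟩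
        rw [rat₂]
        exact mem_ratA σ₂ hi.2 j'
  · intro s t hst
    exact Finset.product_subset_product (mono₁ _ _ hst.1) (mono₂ _ _ hst.2)
  · intro s t
    have h1 : (A₁ (s ⊓ t).i).map e₁ ≤ (A₁ s.i).map e₁ ⊔ (A₁ t.i).map e₁ := by
      rw [← Algebra.map_sup]
      exact Subalgebra.map_mono (sup₁ _ _)
    have h2 : (A₂ (s ⊓ t).j).map e₂ ≤ (A₂ s.j).map e₂ ⊔ (A₂ t.j).map e₂ := by
      rw [← Algebra.map_sup]
      exact Subalgebra.map_mono (sup₂ _ _)
    refine sup_le (h1.trans ?_) (h2.trans ?_)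
    · exact sup_le_sup le_sup_left le_sup_left
    · exact sup_le_sup le_sup_right le_sup_right
  · intro V hV
    obtain ⟨i, hi⟩ := valc c₁ e₁ V hV
    obtain ⟨j, hj⟩ := valc c₂ e₂ V hV
    refine ⟨⟨i, j⟩, ?_⟩
    intro x hx
    exact (sup_le hi hj : SA A₁ A₂ e₁ e₂ ⟨i, j⟩ ≤ vsub V hV) hx

end Pool.CRD
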