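import Pool.Agent.CRD.F2.Stmts

/-!
# CRD, area F2: module PDX (the conic bundle satisfies `ProjDat`)
-/

open CategoryTheory AlgebraicGeometry Limits Opposite Polynomial TensorProduct

namespace Pool.CRD

noncomputable section

namespace PDX_

/-- `1` or `w` -/
def W {F : Type} [Field F] (w : F) : Bool → F := fun a => if a then w else 1

lemma W_ne {F : Type} [Field F] {w : F} (hw : w ≠ 0) (a : Bool) : W w a ≠ 0 := by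
  cases a
  · exact one_ne_zero
  · exact hw

lemma W_mem {F : Type} [Field F] {w : F} {T : Finset F} (h1 : 1 ∈ T) (hw : w ∈ T) (a : Bool) :
    W w a ∈ T := by
  cases a
  · exact h1
  · exact hw

/-- the facts on one curve -/
theorem cur {B F : Type} [CommRing B] [Field F] [Algebra B F] {A : Cov Bool → Subalgebra B F}
    {w x : F} {h : Cov Bool → F} (P : PCur A w x h) :
    ∃ T : Finset F, 1 ∈ T ∧ w ∈ T ∧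
      (∀ a : Bool, A (Cov.one a) = Algebra.adjoin B ((fun t => t * (W w a)⁻¹) '' (T : Set F))) ∧
      ∀ a a' : Bool, (W w a' * h (Cov.one a')) * (W w a * h (Cov.one a))⁻¹ ∈ A (Cov.one a) := by
  obtain ⟨T, h1, hw, ha, hb⟩ := P.ex_T
  refine ⟨T, h1, hw, ?_, ?_⟩
  · intro a
    cases a
    · have h2 : (fun t : F => t * (W w false)⁻¹) '' (T : Set F) = (T : Set F) := by
        have h3 : (fun t : F => t * (W w false)⁻¹) = id := by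
          funext t
          simp [W]
        rw [h3, Set.image_id]
      rw [h2]
      exact ha
    · exact hb
  · intro a a'
    have hne : ∀ a : Bool, W w a * h (Cov.one a) ≠ 0 := fun a =>
      mul_ne_zero (W_ne P.w_ne a) (P.h_ne _)
    cases a <;> cases a'
    · rw [mul_inv_cancel₀ (hne false)]
      exact one_mem _
    · have h2 := P.hw_a
      have e : (W w true * h (Cov.one true)) * (W w false * h (Cov.one false))⁻¹ =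
          w * (h cb / h ca) := by
        show (w * h cb) * (1 * h ca)⁻¹ = w * (h cb / h ca)
        rw [one_mul, div_eq_mul_inv, mul_assoc]
      rw [e]
      exact h2
    · have h2 := P.hw_b
      have e : (W w false * h (Cov.one false)) * (W w true * h (Cov.one true))⁻¹ =
          w⁻¹ * (h ca / h cb) := by
        show (1 * h ca) * (w * h cb)⁻¹ = w⁻¹ * (h ca / h cb)
        rw [one_mul, mul_inv]
        ring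
      rw [e]
      exact h2
    · rw [mul_inv_cancel₀ (hne true)]
      exact one_mem _

/-- the index set -/
abbrev Ix {F₁ F₂ : Type} (T₁ : Finset F₁) (T₂ : Finset F₂) : Type :=
  (T₁ × T₁ × T₂ × T₂) ⊕ ((T₁ × Bool × T₂ × T₂) ⊕ (T₁ × T₁ × T₂ × Bool))

section
variable {F₁ F₂ E : Type} [Field F₁] [Field F₂] [Field E] (f₁ : F₁ →+* E) (f₂ : F₂ →+* E)
  (w₁ : F₁) (w₂ : F₂) (h₁ : Cov Bool → F₁) (h₂ : Cov Bool → F₂) (η ζ : E) (T₁ : Finset F₁)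
  (T₂ : Finset F₂)

/-- the sections -/
def sg : Ix T₁ T₂ → E
  | Sum.inl (t, t', u, u') => f₁ t * f₁ t' * f₂ u * f₂ u'
  | Sum.inr (Sum.inl (t, a, u, u')) => f₁ t * f₁ (W w₁ a * h₁ (Cov.one a)) * f₂ u * f₂ u' * η
  | Sum.inr (Sum.inr (t, t', u, b)) => f₁ t * f₁ t' * f₂ u * f₂ (W w₂ b * h₂ (Cov.one b)) * ζ

/-- the sections which do not vanish on the maximal charts -/
def sx (m₁ : ∀ a, W w₁ a ∈ T₁) (m₂ : ∀ b, W w₂ b ∈ T₂) (a b c : Bool) : Ix T₁ T₂ :=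
  if c then Sum.inr (Sum.inl (⟨_, m₁ a⟩, a, ⟨_, m₂ b⟩, ⟨_, m₂ b⟩))
  else Sum.inl (⟨_, m₁ a⟩, ⟨_, m₁ a⟩, ⟨_, m₂ b⟩, ⟨_, m₂ b⟩)

end

section
variable {B F₁ F₂ E : Type} [CommRing B] [Field F₁] [Field F₂] [Field E] [Algebra B E]
  {f₁ : F₁ →+* E} {f₂ : F₂ →+* E} {w₁ : F₁} {w₂ : F₂} {h₁ : Cov Bool → F₁} {h₂ : Cov Bool → F₂}
  {η ζ : E} {T₁ : Finset F₁} {T₂ : Finset F₂} (hw₁ : w₁ ≠ 0) (hw₂ : w₂ ≠ 0)
  (hh₁ : ∀ s, h₁ s ≠ 0) (hh₂ : ∀ s, h₂ s ≠ 0) (hη : η ≠ 0)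
  (m₁ : ∀ a, W w₁ a ∈ T₁) (m₂ : ∀ b, W w₂ b ∈ T₂)

include hw₁ hw₂ hh₁ hη in
theorem sx_ne (a b c : Bool) : sg f₁ f₂ w₁ w₂ h₁ h₂ η ζ T₁ T₂ (sx w₁ w₂ T₁ T₂ m₁ m₂ a b c) ≠ 0 := by
  have p : f₁ (W w₁ a) ≠ 0 := by rw [Ne, map_eq_zero]; exact W_ne hw₁ a
  have q : f₂ (W w₂ b) ≠ 0 := by rw [Ne, map_eq_zero]; exact W_ne hw₂ b
  have r : f₁ (W w₁ a * h₁ (Cov.one a)) ≠ 0 := by
    rw [Ne, map_eq_zero]; exact mul_ne_zero (W_ne hw₁ a) (hh₁ _)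
  cases c
  · exact mul_ne_zero (mul_ne_zero (mul_ne_zero p p) q) q
  · exact mul_ne_zero (mul_ne_zero (mul_ne_zero (mul_ne_zero p r) q) q) hη

include hw₁ hw₂ hh₁ hh₂ hη in
/-- the quotients of the sections by the one of the chart `(a,b,false)` -/
theorem quot_false (a b : Bool) (S : Subalgebra B E)
    (s1 : ∀ t ∈ T₁, f₁ (t * (W w₁ a)⁻¹) ∈ S) (s2 : ∀ u ∈ T₂, f₂ (u * (W w₂ b)⁻¹) ∈ S)
    (s3 : ∀ a', f₁ ((W w₁ a' * h₁ (Cov.one a')) * (W w₁ a * h₁ (Cov.one a))⁻¹) ∈ S)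
    (s4 : ∀ b', f₂ ((W w₂ b' * h₂ (Cov.one b')) * (W w₂ b * h₂ (Cov.one b))⁻¹) ∈ S)
    (s5 : f₁ (h₁ (Cov.one a)) * η ∈ S) (s6 : f₂ (h₂ (Cov.one b)) * ζ ∈ S) (j : Ix T₁ T₂) :
    sg f₁ f₂ w₁ w₂ h₁ h₂ η ζ T₁ T₂ j /
      sg f₁ f₂ w₁ w₂ h₁ h₂ η ζ T₁ T₂ (sx w₁ w₂ T₁ T₂ m₁ m₂ a b false) ∈ S := by
  have p : f₁ (W w₁ a) ≠ 0 := by rw [Ne, map_eq_zero]; exact W_ne hw₁ a
  have q : f₂ (W w₂ b) ≠ 0 := by rw [Ne, map_eq_zero]; exact W_ne hw₂ b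
  have r : f₁ (h₁ (Cov.one a)) ≠ 0 := by rw [Ne, map_eq_zero]; exact hh₁ _
  have r' : f₂ (h₂ (Cov.one b)) ≠ 0 := by rw [Ne, map_eq_zero]; exact hh₂ _
  have e0 : sg f₁ f₂ w₁ w₂ h₁ h₂ η ζ T₁ T₂ (sx w₁ w₂ T₁ T₂ m₁ m₂ a b false) =
    f₁ (W w₁ a) * f₁ (W w₁ a) * f₂ (W w₂ b) * f₂ (W w₂ b) := rfl
  rw [e0]
  rcases j with ⟨t, t', u, u'⟩ | ⟨t, a', u, u'⟩ | ⟨t, t', u, b'⟩
  · have e : sg f₁ f₂ w₁ w₂ h₁ h₂ η ζ T₁ T₂ (Sum.inl (t, t', u, u')) =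
      f₁ t * f₁ t' * f₂ u * f₂ u' := rfl
    have e1 : f₁ t * f₁ t' * f₂ u * f₂ u' /
        (f₁ (W w₁ a) * f₁ (W w₁ a) * f₂ (W w₂ b) * f₂ (W w₂ b)) =
        f₁ (t * (W w₁ a)⁻¹) * f₁ (t' * (W w₁ a)⁻¹) * f₂ (u * (W w₂ b)⁻¹) *
          f₂ (u' * (W w₂ b)⁻¹) := by
      simp only [map_mul, map_inv₀]
      field_simp
    rw [e, e1]
    exact mul_mem (mul_mem (mul_mem (s1 _ t.2) (s1 _ t'.2)) (s2 _ u.2)) (s2 _ u'.2)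
  · have e : sg f₁ f₂ w₁ w₂ h₁ h₂ η ζ T₁ T₂ (Sum.inr (Sum.inl (t, a', u, u'))) =
      f₁ t * f₁ (W w₁ a' * h₁ (Cov.one a')) * f₂ u * f₂ u' * η := rfl
    have e1 : f₁ t * f₁ (W w₁ a' * h₁ (Cov.one a')) * f₂ u * f₂ u' * η /
        (f₁ (W w₁ a) * f₁ (W w₁ a) * f₂ (W w₂ b) * f₂ (W w₂ b)) =
        f₁ (t * (W w₁ a)⁻¹) *
          f₁ ((W w₁ a' * h₁ (Cov.one a')) * (W w₁ a * h₁ (Cov.one a))⁻¹) *
          f₂ (u * (W w₂ b)⁻¹) * f₂ (u' * (W w₂ b)⁻¹) * (f₁ (h₁ (Cov.one a)) * η) := by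
      simp only [map_mul, map_inv₀]
      field_simp
    rw [e, e1]
    exact mul_mem (mul_mem (mul_mem (mul_mem (s1 _ t.2) (s3 _)) (s2 _ u.2)) (s2 _ u'.2)) s5
  · have e : sg f₁ f₂ w₁ w₂ h₁ h₂ η ζ T₁ T₂ (Sum.inr (Sum.inr (t, t', u, b'))) =
      f₁ t * f₁ t' * f₂ u * f₂ (W w₂ b' * h₂ (Cov.one b')) * ζ := rfl
    have e1 : f₁ t * f₁ t' * f₂ u * f₂ (W w₂ b' * h₂ (Cov.one b')) * ζ /
        (f₁ (W w₁ a) * f₁ (W w₁ a) * f₂ (W w₂ b) * f₂ (W w₂ b)) =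
        f₁ (t * (W w₁ a)⁻¹) * f₁ (t' * (W w₁ a)⁻¹) * f₂ (u * (W w₂ b)⁻¹) *
          f₂ ((W w₂ b' * h₂ (Cov.one b')) * (W w₂ b * h₂ (Cov.one b))⁻¹) *
          (f₂ (h₂ (Cov.one b)) * ζ) := by
      simp only [map_mul, map_inv₀]
      field_simp
    rw [e, e1]
    exact mul_mem (mul_mem (mul_mem (mul_mem (s1 _ t.2) (s1 _ t'.2)) (s2 _ u.2)) (s4 _)) s6

include hw₁ hw₂ hh₁ hh₂ hη in
/-- the quotients of the sections by the one of the chart `(a,b,true)` -/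
theorem quot_true (a b : Bool) (S : Subalgebra B E)
    (s1 : ∀ t ∈ T₁, f₁ (t * (W w₁ a)⁻¹) ∈ S) (s2 : ∀ u ∈ T₂, f₂ (u * (W w₂ b)⁻¹) ∈ S)
    (s3 : ∀ a', f₁ ((W w₁ a' * h₁ (Cov.one a')) * (W w₁ a * h₁ (Cov.one a))⁻¹) ∈ S)
    (s4 : ∀ b', f₂ ((W w₂ b' * h₂ (Cov.one b')) * (W w₂ b * h₂ (Cov.one b))⁻¹) ∈ S)
    (s5 : (f₁ (h₁ (Cov.one a)) * η)⁻¹ ∈ S)
    (s6 : (f₂ (h₂ (Cov.one b)) * ζ) * (f₁ (h₁ (Cov.one a)) * η)⁻¹ ∈ S) (j : Ix T₁ T₂) :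
    sg f₁ f₂ w₁ w₂ h₁ h₂ η ζ T₁ T₂ j /
      sg f₁ f₂ w₁ w₂ h₁ h₂ η ζ T₁ T₂ (sx w₁ w₂ T₁ T₂ m₁ m₂ a b true) ∈ S := by
  have p : f₁ (W w₁ a) ≠ 0 := by rw [Ne, map_eq_zero]; exact W_ne hw₁ a
  have q : f₂ (W w₂ b) ≠ 0 := by rw [Ne, map_eq_zero]; exact W_ne hw₂ b
  have r : f₁ (h₁ (Cov.one a)) ≠ 0 := by rw [Ne, map_eq_zero]; exact hh₁ _
  have r' : f₂ (h₂ (Cov.one b)) ≠ 0 := by rw [Ne, map_eq_zero]; exact hh₂ _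
  have e0 : sg f₁ f₂ w₁ w₂ h₁ h₂ η ζ T₁ T₂ (sx w₁ w₂ T₁ T₂ m₁ m₂ a b true) =
    f₁ (W w₁ a) * f₁ (W w₁ a * h₁ (Cov.one a)) * f₂ (W w₂ b) * f₂ (W w₂ b) * η := rfl
  rw [e0]
  rcases j with ⟨t, t', u, u'⟩ | ⟨t, a', u, u'⟩ | ⟨t, t', u, b'⟩
  · have e : sg f₁ f₂ w₁ w₂ h₁ h₂ η ζ T₁ T₂ (Sum.inl (t, t', u, u')) =
      f₁ t * f₁ t' * f₂ u * f₂ u' := rfl
    have e1 : f₁ t * f₁ t' * f₂ u * f₂ u' /
        (f₁ (W w₁ a) * f₁ (W w₁ a * h₁ (Cov.one a)) * f₂ (W w₂ b) * f₂ (W w₂ b) * η) =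
        f₁ (t * (W w₁ a)⁻¹) * f₁ (t' * (W w₁ a)⁻¹) * f₂ (u * (W w₂ b)⁻¹) *
          f₂ (u' * (W w₂ b)⁻¹) * (f₁ (h₁ (Cov.one a)) * η)⁻¹ := by
      simp only [map_mul, map_inv₀]
      field_simp
    rw [e, e1]
    exact mul_mem (mul_mem (mul_mem (mul_mem (s1 _ t.2) (s1 _ t'.2)) (s2 _ u.2)) (s2 _ u'.2)) s5
  · have e : sg f₁ f₂ w₁ w₂ h₁ h₂ η ζ T₁ T₂ (Sum.inr (Sum.inl (t, a', u, u'))) =
      f₁ t * f₁ (W w₁ a' * h₁ (Cov.one a')) * f₂ u * f₂ u' * η := rfl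
    have e1 : f₁ t * f₁ (W w₁ a' * h₁ (Cov.one a')) * f₂ u * f₂ u' * η /
        (f₁ (W w₁ a) * f₁ (W w₁ a * h₁ (Cov.one a)) * f₂ (W w₂ b) * f₂ (W w₂ b) * η) =
        f₁ (t * (W w₁ a)⁻¹) *
          f₁ ((W w₁ a' * h₁ (Cov.one a')) * (W w₁ a * h₁ (Cov.one a))⁻¹) *
          f₂ (u * (W w₂ b)⁻¹) * f₂ (u' * (W w₂ b)⁻¹) := by
      simp only [map_mul, map_inv₀]
      field_simp
    rw [e, e1]
    exact mul_mem (mul_mem (mul_mem (s1 _ t.2) (s3 _)) (s2 _ u.2)) (s2 _ u'.2)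
  · have e : sg f₁ f₂ w₁ w₂ h₁ h₂ η ζ T₁ T₂ (Sum.inr (Sum.inr (t, t', u, b'))) =
      f₁ t * f₁ t' * f₂ u * f₂ (W w₂ b' * h₂ (Cov.one b')) * ζ := rfl
    have e1 : f₁ t * f₁ t' * f₂ u * f₂ (W w₂ b' * h₂ (Cov.one b')) * ζ /
        (f₁ (W w₁ a) * f₁ (W w₁ a * h₁ (Cov.one a)) * f₂ (W w₂ b) * f₂ (W w₂ b) * η) =
        f₁ (t * (W w₁ a)⁻¹) * f₁ (t' * (W w₁ a)⁻¹) * f₂ (u * (W w₂ b)⁻¹) *
          f₂ ((W w₂ b' * h₂ (Cov.one b')) * (W w₂ b * h₂ (Cov.one b))⁻¹) *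
          ((f₂ (h₂ (Cov.one b)) * ζ) * (f₁ (h₁ (Cov.one a)) * η)⁻¹) := by
      simp only [map_mul, map_inv₀]
      field_simp
    rw [e, e1]
    exact mul_mem (mul_mem (mul_mem (mul_mem (s1 _ t.2) (s1 _ t'.2)) (s2 _ u.2)) (s4 _)) s6

include hw₁ hw₂ hh₁ hη in
theorem gen1 (a b c : Bool) (t : F₁) (ht : t ∈ T₁) : ∃ j : Ix T₁ T₂, f₁ (t * (W w₁ a)⁻¹) =
    sg f₁ f₂ w₁ w₂ h₁ h₂ η ζ T₁ T₂ j /
      sg f₁ f₂ w₁ w₂ h₁ h₂ η ζ T₁ T₂ (sx w₁ w₂ T₁ T₂ m₁ m₂ a b c) := by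
  have p : f₁ (W w₁ a) ≠ 0 := by rw [Ne, map_eq_zero]; exact W_ne hw₁ a
  have q : f₂ (W w₂ b) ≠ 0 := by rw [Ne, map_eq_zero]; exact W_ne hw₂ b
  have r : f₁ (h₁ (Cov.one a)) ≠ 0 := by rw [Ne, map_eq_zero]; exact hh₁ _
  cases c
  · refine ⟨Sum.inl (⟨t, ht⟩, ⟨_, m₁ a⟩, ⟨_, m₂ b⟩, ⟨_, m₂ b⟩), ?_⟩
    show f₁ (t * (W w₁ a)⁻¹) = (f₁ t * f₁ (W w₁ a) * f₂ (W w₂ b) * f₂ (W w₂ b)) /
      (f₁ (W w₁ a) * f₁ (W w₁ a) * f₂ (W w₂ b) * f₂ (W w₂ b))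
    simp only [map_mul, map_inv₀]
    field_simp
  · refine ⟨Sum.inr (Sum.inl (⟨t, ht⟩, a, ⟨_, m₂ b⟩, ⟨_, m₂ b⟩)), ?_⟩
    show f₁ (t * (W w₁ a)⁻¹) =
      (f₁ t * f₁ (W w₁ a * h₁ (Cov.one a)) * f₂ (W w₂ b) * f₂ (W w₂ b) * η) /
      (f₁ (W w₁ a) * f₁ (W w₁ a * h₁ (Cov.one a)) * f₂ (W w₂ b) * f₂ (W w₂ b) * η)
    simp only [map_mul, map_inv₀]
    field_simp

include hw₁ hw₂ hh₁ hη in
theorem gen2 (a b c : Bool) (u : F₂) (hu : u ∈ T₂) : ∃ j : Ix T₁ T₂, f₂ (u * (W w₂ b)⁻¹) =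
    sg f₁ f₂ w₁ w₂ h₁ h₂ η ζ T₁ T₂ j /
      sg f₁ f₂ w₁ w₂ h₁ h₂ η ζ T₁ T₂ (sx w₁ w₂ T₁ T₂ m₁ m₂ a b c) := by
  have p : f₁ (W w₁ a) ≠ 0 := by rw [Ne, map_eq_zero]; exact W_ne hw₁ a
  have q : f₂ (W w₂ b) ≠ 0 := by rw [Ne, map_eq_zero]; exact W_ne hw₂ b
  have r : f₁ (h₁ (Cov.one a)) ≠ 0 := by rw [Ne, map_eq_zero]; exact hh₁ _
  cases c
  · refine ⟨Sum.inl (⟨_, m₁ a⟩, ⟨_, m₁ a⟩, ⟨u, hu⟩, ⟨_, m₂ b⟩), ?_⟩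
    show f₂ (u * (W w₂ b)⁻¹) = (f₁ (W w₁ a) * f₁ (W w₁ a) * f₂ u * f₂ (W w₂ b)) /
      (f₁ (W w₁ a) * f₁ (W w₁ a) * f₂ (W w₂ b) * f₂ (W w₂ b))
    simp only [map_mul, map_inv₀]
    field_simp
  · refine ⟨Sum.inr (Sum.inl (⟨_, m₁ a⟩, a, ⟨u, hu⟩, ⟨_, m₂ b⟩)), ?_⟩
    show f₂ (u * (W w₂ b)⁻¹) =
      (f₁ (W w₁ a) * f₁ (W w₁ a * h₁ (Cov.one a)) * f₂ u * f₂ (W w₂ b) * η) /
      (f₁ (W w₁ a) * f₁ (W w₁ a * h₁ (Cov.one a)) * f₂ (W w₂ b) * f₂ (W w₂ b) * η)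
    simp only [map_mul, map_inv₀]
    field_simp

include hw₁ hw₂ hh₁ hh₂ hη in
theorem gen3 (a b c : Bool) (n : Fin 4) (hn : n ∈ ixX (Cov.one c)) : ∃ j : Ix T₁ T₂,
    gX (f₁ (h₁ (Cov.one a))) (f₂ (h₂ (Cov.one b))) η ζ n =
    sg f₁ f₂ w₁ w₂ h₁ h₂ η ζ T₁ T₂ j /
      sg f₁ f₂ w₁ w₂ h₁ h₂ η ζ T₁ T₂ (sx w₁ w₂ T₁ T₂ m₁ m₂ a b c) := by
  have p : f₁ (W w₁ a) ≠ 0 := by rw [Ne, map_eq_zero]; exact W_ne hw₁ a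
  have q : f₂ (W w₂ b) ≠ 0 := by rw [Ne, map_eq_zero]; exact W_ne hw₂ b
  have r : f₁ (h₁ (Cov.one a)) ≠ 0 := by rw [Ne, map_eq_zero]; exact hh₁ _
  have r' : f₂ (h₂ (Cov.one b)) ≠ 0 := by rw [Ne, map_eq_zero]; exact hh₂ _
  rcases hn with ⟨h1, h2⟩ | ⟨h1, h2⟩
  · have hc : false = c := Finset.mem_singleton.1 h1
    subst hc
    have h3 : n = 0 ∨ n = 1 := by
      revert h2
      fin_cases n <;> simp
    rcases h3 with rfl | rfl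
    · refine ⟨Sum.inr (Sum.inl (⟨_, m₁ a⟩, a, ⟨_, m₂ b⟩, ⟨_, m₂ b⟩)), ?_⟩
      show f₁ (h₁ (Cov.one a)) * η =
        (f₁ (W w₁ a) * f₁ (W w₁ a * h₁ (Cov.one a)) * f₂ (W w₂ b) * f₂ (W w₂ b) * η) /
        (f₁ (W w₁ a) * f₁ (W w₁ a) * f₂ (W w₂ b) * f₂ (W w₂ b))
      simp only [map_mul]
      field_simp
    · refine ⟨Sum.inr (Sum.inr (⟨_, m₁ a⟩, ⟨_, m₁ a⟩, ⟨_, m₂ b⟩, b)), ?_⟩
      show f₂ (h₂ (Cov.one b)) * ζ =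
        (f₁ (W w₁ a) * f₁ (W w₁ a) * f₂ (W w₂ b) * f₂ (W w₂ b * h₂ (Cov.one b)) * ζ) /
        (f₁ (W w₁ a) * f₁ (W w₁ a) * f₂ (W w₂ b) * f₂ (W w₂ b))
      simp only [map_mul]
      field_simp
  · have hc : true = c := Finset.mem_singleton.1 h1
    subst hc
    have h3 : n = 2 ∨ n = 3 := by
      revert h2
      fin_cases n <;> simp
    rcases h3 with rfl | rfl
    · refine ⟨Sum.inl (⟨_, m₁ a⟩, ⟨_, m₁ a⟩, ⟨_, m₂ b⟩, ⟨_, m₂ b⟩), ?_⟩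
      show (f₁ (h₁ (Cov.one a)) * η)⁻¹ =
        (f₁ (W w₁ a) * f₁ (W w₁ a) * f₂ (W w₂ b) * f₂ (W w₂ b)) /
        (f₁ (W w₁ a) * f₁ (W w₁ a * h₁ (Cov.one a)) * f₂ (W w₂ b) * f₂ (W w₂ b) * η)
      simp only [map_mul]
      field_simp
    · refine ⟨Sum.inr (Sum.inr (⟨_, m₁ a⟩, ⟨_, m₁ a⟩, ⟨_, m₂ b⟩, b)), ?_⟩
      show (f₂ (h₂ (Cov.one b)) * ζ) * (f₁ (h₁ (Cov.one a)) * η)⁻¹ =
        (f₁ (W w₁ a) * f₁ (W w₁ a) * f₂ (W w₂ b) * f₂ (W w₂ b * h₂ (Cov.one b)) * ζ) /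
        (f₁ (W w₁ a) * f₁ (W w₁ a * h₁ (Cov.one a)) * f₂ (W w₂ b) * f₂ (W w₂ b) * η)
      simp only [map_mul]
      field_simp

end

end PDX_

open PDX_

theorem pdx_proof (hPXV : Stmt_PXV) (hPXS : Stmt_PXS) : Stmt_PDX := by
  classical
  intro B F₁ F₂ L _ _ _ _ _ _ _ A₁ w₁ x₁ h₁ A₂ w₂ x₂ h₂ e₁ e₂ E _ _ ψ η ζ H
  obtain ⟨T₁, o₁, i₁, ad₁, k₁⟩ := cur H.c₁
  obtain ⟨T₂, o₂, i₂, ad₂, k₂⟩ := cur H.c₂
  obtain ⟨hmono, hsup⟩ := hPXS B F₁ F₂ L A₁ w₁ x₁ h₁ A₂ w₂ x₂ h₂ e₁ e₂ E ψ η ζ H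
  have m₁ : ∀ a, W w₁ a ∈ T₁ := W_mem o₁ i₁
  have m₂ : ∀ b, W w₂ b ∈ T₂ := W_mem o₂ i₂
  let f₁ : F₁ →ₐ[B] E := ψ.comp e₁
  let f₂ : F₂ →ₐ[B] E := ψ.comp e₂
  let σ : Ix T₁ T₂ → E := sg (f₁ : F₁ →+* E) (f₂ : F₂ →+* E) w₁ w₂ h₁ h₂ η ζ T₁ T₂
  let X := CA (SA A₁ A₂ e₁ e₂) ψ (fun i => e₁ (h₁ i)) (fun j => e₂ (h₂ j)) η ζ
  let m : Ch3 → Finset (Ix T₁ T₂) := fun s =>
    Finset.univ.filter fun x => ∃ a ∈ s.i.s, ∃ b ∈ s.j.s, ∃ c ∈ s.k.s,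
      x = sx w₁ w₂ T₁ T₂ m₁ m₂ a b c
  have hm : ∀ s x, x ∈ m s ↔ ∃ a ∈ s.i.s, ∃ b ∈ s.j.s, ∃ c ∈ s.k.s,
      x = sx w₁ w₂ T₁ T₂ m₁ m₂ a b c := fun s x => by simp [m]
  have hmm : ∀ {s t : Ch3}, t ≤ s → m s ⊆ m t := by
    intro s t h x hx
    rw [hm] at hx ⊢
    obtain ⟨a, ha, b, hb, c, hc, rfl⟩ := hx
    exact ⟨a, h.1 ha, b, h.2.1 hb, c, h.2.2 hc, rfl⟩
  -- elements of the charts
  have mem1 : ∀ (s : Ch3) (z : F₁), z ∈ A₁ s.i → f₁ z ∈ X s := by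
    intro s z hz
    refine (le_sup_left : _ ≤ X s) ⟨e₁ z, ?_, rfl⟩
    exact (le_sup_left : _ ≤ SA A₁ A₂ e₁ e₂ ⟨s.i, s.j⟩) ⟨z, hz, rfl⟩
  have mem2 : ∀ (s : Ch3) (z : F₂), z ∈ A₂ s.j → f₂ z ∈ X s := by
    intro s z hz
    refine (le_sup_left : _ ≤ X s) ⟨e₂ z, ?_, rfl⟩
    exact (le_sup_right : _ ≤ SA A₁ A₂ e₁ e₂ ⟨s.i, s.j⟩) ⟨z, hz, rfl⟩
  have mem3 : ∀ (s : Ch3) (n : Fin 4), n ∈ ixX s.k →
      gX (f₁ (h₁ s.i)) (f₂ (h₂ s.j)) η ζ n ∈ X s := by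
    intro s n hn
    exact (le_sup_right : _ ≤ X s) (Algebra.subset_adjoin ⟨n, hn, rfl⟩)
  -- maximal charts
  have max1 : ∀ (a b c : Bool) (j : Ix T₁ T₂), σ j / σ (sx w₁ w₂ T₁ T₂ m₁ m₂ a b c) ∈
      X ⟨Cov.one a, Cov.one b, Cov.one c⟩ := by
    intro a b c j
    have s1 : ∀ t ∈ T₁, f₁ (t * (W w₁ a)⁻¹) ∈ X ⟨Cov.one a, Cov.one b, Cov.one c⟩ := by
      intro t ht
      refine mem1 ⟨Cov.one a, Cov.one b, Cov.one c⟩ _ ?_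
      show _ ∈ A₁ (Cov.one a)
      rw [ad₁ a]
      exact Algebra.subset_adjoin ⟨t, ht, rfl⟩
    have s2 : ∀ u ∈ T₂, f₂ (u * (W w₂ b)⁻¹) ∈ X ⟨Cov.one a, Cov.one b, Cov.one c⟩ := by
      intro u hu
      refine mem2 ⟨Cov.one a, Cov.one b, Cov.one c⟩ _ ?_
      show _ ∈ A₂ (Cov.one b)
      rw [ad₂ b]
      exact Algebra.subset_adjoin ⟨u, hu, rfl⟩
    have s3 := fun a' => mem1 ⟨Cov.one a, Cov.one b, Cov.one c⟩ _ (k₁ a a')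
    have s4 := fun b' => mem2 ⟨Cov.one a, Cov.one b, Cov.one c⟩ _ (k₂ b b')
    cases c
    · refine quot_false H.c₁.w_ne H.c₂.w_ne H.c₁.h_ne H.c₂.h_ne H.η_ne m₁ m₂ a b _ s1 s2 s3 s4
        ?_ ?_ j
      · exact mem3 ⟨Cov.one a, Cov.one b, Cov.one false⟩ 0
          (Or.inl ⟨Finset.mem_singleton_self _, by decide⟩)
      · exact mem3 ⟨Cov.one a, Cov.one b, Cov.one false⟩ 1
          (Or.inl ⟨Finset.mem_singleton_self _, by decide⟩)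
    · refine quot_true H.c₁.w_ne H.c₂.w_ne H.c₁.h_ne H.c₂.h_ne H.η_ne m₁ m₂ a b _ s1 s2 s3 s4
        ?_ ?_ j
      · exact mem3 ⟨Cov.one a, Cov.one b, Cov.one true⟩ 2
          (Or.inr ⟨Finset.mem_singleton_self _, by decide⟩)
      · exact mem3 ⟨Cov.one a, Cov.one b, Cov.one true⟩ 3
          (Or.inr ⟨Finset.mem_singleton_self _, by decide⟩)
  have max2 : ∀ a b c : Bool, X ⟨Cov.one a, Cov.one b, Cov.one c⟩ ≤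
      PJ.ratA B σ (m ⟨Cov.one a, Cov.one b, Cov.one c⟩) := by
    intro a b c
    have hi : sx w₁ w₂ T₁ T₂ m₁ m₂ a b c ∈ m ⟨Cov.one a, Cov.one b, Cov.one c⟩ := by
      rw [hm]
      exact ⟨a, Finset.mem_singleton_self _, b, Finset.mem_singleton_self _, c,
        Finset.mem_singleton_self _, rfl⟩
    have hg : ∀ x : E, (∃ j, x = σ j / σ (sx w₁ w₂ T₁ T₂ m₁ m₂ a b c)) →
        x ∈ PJ.ratA B σ (m ⟨Cov.one a, Cov.one b, Cov.one c⟩) := by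
      rintro x ⟨j, rfl⟩
      exact Algebra.subset_adjoin ⟨_, hi, j, rfl⟩
    refine sup_le (Subalgebra.map_le.2 (sup_le (Subalgebra.map_le.2 ?_)
      (Subalgebra.map_le.2 ?_))) (Algebra.adjoin_le ?_)
    · show A₁ (Cov.one a) ≤ _
      rw [ad₁ a]
      refine Algebra.adjoin_le ?_
      rintro _ ⟨t, ht, rfl⟩
      exact hg _ (gen1 (f₁ := (f₁ : F₁ →+* E)) (f₂ := (f₂ : F₂ →+* E)) H.c₁.w_ne H.c₂.w_ne
        H.c₁.h_ne H.η_ne m₁ m₂ a b c t ht)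
    · show A₂ (Cov.one b) ≤ _
      rw [ad₂ b]
      refine Algebra.adjoin_le ?_
      rintro _ ⟨u, hu, rfl⟩
      exact hg _ (gen2 (f₁ := (f₁ : F₁ →+* E)) (f₂ := (f₂ : F₂ →+* E)) H.c₁.w_ne H.c₂.w_ne
        H.c₁.h_ne H.η_ne m₁ m₂ a b c u hu)
    · rintro _ ⟨n, hn, rfl⟩
      exact hg _ (gen3 (f₁ := (f₁ : F₁ →+* E)) (f₂ := (f₂ : F₂ →+* E)) H.c₁.w_ne H.c₂.w_ne
        H.c₁.h_ne H.c₂.h_ne H.η_ne m₁ m₂ a b c n hn)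
  have rmono : ∀ {s t : Ch3}, t ≤ s → PJ.ratA B σ (m s) ≤ PJ.ratA B σ (m t) := by
    intro s t h
    refine Algebra.adjoin_mono ?_
    rintro _ ⟨i, hi, j, rfl⟩
    exact ⟨i, hmm h hi, j, rfl⟩
  have hinf : ∀ s t : Ch3, X s ≤ PJ.ratA B σ (m s) → X t ≤ PJ.ratA B σ (m t) →
      X (s ⊓ t) ≤ PJ.ratA B σ (m (s ⊓ t)) := by
    intro s t hs ht
    exact (hsup s t).trans (sup_le (hs.trans (rmono inf_le_left)) (ht.trans (rmono inf_le_right)))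
  have hcases : ∀ k : Cov Bool, (∃ a, k = Cov.one a) ∨ k = Cov.one false ⊓ Cov.one true := by
    intro k
    obtain ⟨s, hs⟩ := k
    by_cases h1 : false ∈ s <;> by_cases h2 : true ∈ s
    · right
      apply Cov.ext'
      have h3 : s = Finset.univ := by
        ext x
        cases x <;> simp [h1, h2]
      have h4 : (Cov.one false ⊓ Cov.one true : Cov Bool).s = {false} ∪ {true} := rfl
      rw [h4]
      show s = _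
      rw [h3]
      ext x
      cases x <;> simp
    · left
      refine ⟨false, Cov.ext' ?_⟩
      ext x
      cases x <;> simp [Cov.one, h1, h2]
    · left
      refine ⟨true, Cov.ext' ?_⟩
      ext x
      cases x <;> simp [Cov.one, h1, h2]
    · exfalso
      obtain ⟨x, hx⟩ := hs
      cases x
      · exact h1 hx
      · exact h2 hx
  have hall : ∀ s : Ch3, X s ≤ PJ.ratA B σ (m s) := by
    have step1 : ∀ (a b : Bool) (k : Cov Bool), X ⟨Cov.one a, Cov.one b, k⟩ ≤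
        PJ.ratA B σ (m ⟨Cov.one a, Cov.one b, k⟩) := by
      intro a b k
      rcases hcases k with ⟨c, rfl⟩ | rfl
      · exact max2 a b c
      · have h := hinf ⟨Cov.one a, Cov.one b, Cov.one false⟩ ⟨Cov.one a, Cov.one b, Cov.one true⟩
          (max2 a b false) (max2 a b true)
        have e : (⟨Cov.one a, Cov.one b, Cov.one false⟩ : Ch3) ⊓
            ⟨Cov.one a, Cov.one b, Cov.one true⟩ =
            ⟨Cov.one a, Cov.one b, Cov.one false ⊓ Cov.one true⟩ :=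
          Ch3.ext (inf_idem _) (inf_idem _) rfl
        rw [e] at h
        exact h
    have step2 : ∀ (a : Bool) (j k : Cov Bool), X ⟨Cov.one a, j, k⟩ ≤
        PJ.ratA B σ (m ⟨Cov.one a, j, k⟩) := by
      intro a j k
      rcases hcases j with ⟨c, rfl⟩ | rfl
      · exact step1 a c k
      · have h := hinf ⟨Cov.one a, Cov.one false, k⟩ ⟨Cov.one a, Cov.one true, k⟩
          (step1 a false k) (step1 a true k)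
        have e : (⟨Cov.one a, Cov.one false, k⟩ : Ch3) ⊓ ⟨Cov.one a, Cov.one true, k⟩ =
            ⟨Cov.one a, Cov.one false ⊓ Cov.one true, k⟩ :=
          Ch3.ext (inf_idem _) rfl (inf_idem _)
        rw [e] at h
        exact h
    rintro ⟨i, j, k⟩
    rcases hcases i with ⟨c, rfl⟩ | rfl
    · exact step2 c j k
    · have h := hinf ⟨Cov.one false, j, k⟩ ⟨Cov.one true, j, k⟩
        (step2 false j k) (step2 true j k)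
      have e : (⟨Cov.one false, j, k⟩ : Ch3) ⊓ ⟨Cov.one true, j, k⟩ =
          ⟨Cov.one false ⊓ Cov.one true, j, k⟩ :=
        Ch3.ext rfl (inf_idem _) (inf_idem _)
      rw [e] at h
      exact h
  refine ⟨Ix T₁ T₂, inferInstance, σ, m, ?_⟩
  refine { ne := ?_, nz := ?_, rat := ?_, mono := hmm, sup := hsup, val := ?_ }
  · intro s
    obtain ⟨a, ha⟩ := s.i.ne
    obtain ⟨b, hb⟩ := s.j.ne
    obtain ⟨c, hc⟩ := s.k.ne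
    exact ⟨_, (hm s _).2 ⟨a, ha, b, hb, c, hc, rfl⟩⟩
  · intro s i hi
    obtain ⟨a, ha, b, hb, c, hc, rfl⟩ := (hm s _).1 hi
    exact sx_ne H.c₁.w_ne H.c₂.w_ne H.c₁.h_ne H.η_ne m₁ m₂ a b c
  · intro s
    refine le_antisymm (hall s) (Algebra.adjoin_le ?_)
    rintro _ ⟨i, hi, j, rfl⟩
    obtain ⟨a, ha, b, hb, c, hc, rfl⟩ := (hm s _).1 hi
    refine hmono (s := ⟨Cov.one a, Cov.one b, Cov.one c⟩) (t := s) ?_ (max1 a b c j)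
    refine ⟨?_, ?_, ?_⟩
    · exact Finset.singleton_subset_iff.2 ha
    · exact Finset.singleton_subset_iff.2 hb
    · exact Finset.singleton_subset_iff.2 hc
  · intro V hV
    exact hPXV B F₁ F₂ L A₁ w₁ x₁ h₁ A₂ w₂ x₂ h₂ e₁ e₂ E ψ η ζ H V hV

end

end Pool.CRD
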