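import Pool.Agent.CRD.F2.Stmts
import Pool.Agent.CRD.B.AMP

set_option autoImplicit false

/-!
# CRD, F2: module PN1
-/

open CategoryTheory Opposite Limits

namespace Pool.CRD

namespace PN1_

open AMP_

variable {K ι : Type} [Field K] [Fintype ι] [DecidableEq ι] {R : PAlg K (Cov ι)}

/-- the data -/
structure Dat (R : PAlg K (Cov ι)) where
  t : ∀ (s : Cov ι) (_ _ : ι), R.ring s
  h1 : ∀ s i, i ∈ s.s → t s i i = 1
  h2 : ∀ s i j k, i ∈ s.s → j ∈ s.s → t s i j * t s j k = t s i k
  h3 : ∀ (s s' : Cov ι) (h : s' ≤ s) (i j : ι), i ∈ s.s →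
      (R.map (homOfLE h).op).hom (t s i j) = t s' i j

variable (D : Dat R)

/-- the unit -/
def tu (s : Cov ι) (i j : ι) (hi : i ∈ s.s) (hj : j ∈ s.s) : (R.ring s)ˣ where
  val := D.t s i j
  inv := D.t s j i
  val_inv := by rw [D.h2 s i j i hi hj, D.h1 s i hi]
  inv_val := by rw [D.h2 s j i j hj hi, D.h1 s j hj]

/-- the coordinates on the chart `s` -/
noncomputable def yy (s : Cov ι) (j : ι) : R.ring s := D.t s (cix s) j

lemma yu (s : Cov ι) : ∀ j ∈ s.s, IsUnit (yy D s j) := fun j hj => ⟨tu D s (cix s) j (cix_mem s) hj, rfl⟩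

/-- restriction -/
def rm (R : PAlg K (Cov ι)) {V W : Cov ι} (h : W ≤ V) : R.ring V →+* R.ring W :=
  (R.map (homOfLE h).op).hom.toRingHom

/-- constants -/
def rh (R : PAlg K (Cov ι)) (V : Cov ι) : K →+* R.ring V := algebraMap K (R.ring V)

lemma rh_map {V W : Cov ι} (h : W ≤ V) (b : K) : rm R h (rh R V b) = rh R W b :=
  (R.map (homOfLE h).op).hom.commutes b

/-- the homomorphism on the chart `s` -/
noncomputable def pR (s : Cov ι) : pnSub K K ι s →+* R.ring s :=
  piR K s (rh R s) (yy D s) (yu D s)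

lemma pR_smon (s : Cov ι) (a : expo s) (b : K) : pR D s (smon K s a b) =
    rh R s b * mon (yy D s) a.1 := piR_smon _ _ _ _ _ _

lemma pR_cP (s : Cov ι) (b : K) : pR D s (cP K K ι s b) = rh R s b := by
  have h : cP K K ι s b = smon K s 0 b := Subtype.ext (by rw [smon_val]; rfl)
  rw [h, pR_smon]
  have h2 : mon (yy D s) ((0 : expo s) : ι → ℤ) = 1 := mon_zero _
  rw [h2, mul_one]

/-- the homomorphism of algebras -/
noncomputable def pA (s : Cov ι) : pnSub K K ι s →ₐ[K] R.ring s :=
  { pR D s with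
    commutes' := fun k => by
      have h1 : algebraMap K (pnSub K K ι s) k = cP K K ι s k := Subtype.ext rfl
      change pR D s (algebraMap K (pnSub K K ι s) k) = _
      rw [h1, pR_cP]
      rfl }

lemma yy_map {V W : Cov ι} (h : W ≤ V) (j : ι) :
    rm R h (yy D V j) = (tu D W (cix V) (cix W) (h (cix_mem V)) (cix_mem W) : (R.ring W)ˣ) *
      yy D W j := by
  refine (D.h3 V W h (cix V) j (cix_mem V)).trans ?_
  exact (D.h2 W (cix V) (cix W) j (h (cix_mem V)) (cix_mem W)).symm

lemma pR_nat {s t : Cov ι} (h : t ≤ s) (f : pnSub K K ι s) (f' : pnSub K K ι t)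
    (hf : f'.1 = f.1) : pR D t f' = rm R h (pR D s f) := by
  have hinc : ∀ x : pnSub K K ι s, x.1 ∈ pnSub K K ι t := fun x a ha => expo_le h (x.2 a ha)
  let inc : pnSub K K ι s →+* pnSub K K ι t :=
    { toFun := fun x => ⟨x.1, hinc x⟩
      map_one' := rfl
      map_mul' := fun _ _ => rfl
      map_zero' := rfl
      map_add' := fun _ _ => rfl }
  have key : (pR D t).comp inc = (rm R h).comp (pR D s) := by
    apply hom_ext_smon
    intro a b
    have h1 : inc (smon K s a b) = smon K t ⟨a.1, expo_le h a.2⟩ b := by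
      apply Subtype.ext
      rw [smon_val]
      exact smon_val (K := K) s a b
    rw [RingHom.comp_apply, RingHom.comp_apply, h1, pR_smon, pR_smon, map_mul, rh_map,
      mon_map s _ _ (yu D s) _ a.2]
    congr 1
    have h2 : (fun j => rm R h (yy D s j)) =
        fun j => ((tu D t (cix s) (cix t) (h (cix_mem s)) (cix_mem t) : (R.ring t)ˣ) :
          R.ring t) * yy D t j :=
      funext fun j => yy_map D h j
    rw [h2]
    exact (mon_scale t _ _ (yu D t) _ (expo_le h a.2)).symm
  have e : f' = inc f := Subtype.ext hf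
  rw [e]
  exact congrArg (fun F => F f) key

/-- the morphism to projective space -/
noncomputable def piM : Pn K K ι ⟶ R where
  app s := CommAlgCat.ofHom (pA D s.unop)
  naturality {s t} f := by
    ext x
    exact pR_nat D (leOfHom f.unop) x _ rfl

lemma ratio_eq (s : Cov ι) (i j : ι) (hi : i ∈ s.s) : pR D s (rat K K s i j hi) *
    yy D s i = yy D s j := by
  have hmem : (Pi.single j 1 - Pi.single i 1 : ι → ℤ) ∈ expo s := by
    refine ⟨by simp, fun k hk => ?_⟩
    have hki : k ≠ i := fun h => hk (h ▸ hi)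
    rw [Pi.sub_apply, Pi.single_eq_of_ne hki, sub_zero, Pi.single_apply]
    split_ifs <;> norm_num
  have h1 : rat K K s i j hi = smon K s ⟨_, hmem⟩ 1 := by
    apply Subtype.ext
    rw [smon_val]
    rfl
  rw [h1, pR_smon, map_one, one_mul]
  exact mon_ratio _ i j (yu D s i hi)

lemma ratio_val (s : Cov ι) (i j : ι) (hi : i ∈ s.s) : pR D s (rat K K s i j hi) = D.t s i j := by
  have h := ratio_eq D s i j hi
  have h' : D.t s i j * yy D s i = yy D s j := by
    rw [mul_comm]
    exact D.h2 s (cix s) i j (cix_mem s) hi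
  exact (yu D s i hi).mul_right_cancel (h.trans h'.symm)

end PN1_

theorem pn1_proof : Stmt_PN1 := by
  intro K ι _ _ _ R t h1 h2 h3
  exact ⟨PN1_.piM ⟨t, h1, h2, h3⟩, fun s i j hi => PN1_.ratio_val ⟨t, h1, h2, h3⟩ s i j hi⟩

end Pool.CRD
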