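import Pool.Agent.CRD.F2.Stmts

/-!
# CRD / F2: the chart `U_a` of projective space is generated by the ratios
-/

open CategoryTheory AlgebraicGeometry Limits Opposite TensorProduct

namespace Pool.CRD

theorem pn2_proof : Stmt_PN2 := by
  intro K ι _ _ _ a
  set S : Subalgebra K ((Pn K K ι).obj (op (Cov.one a))) := Algebra.adjoin K
    (Set.range fun j => ratio K K (Cov.one a) a j (Finset.mem_singleton_self a)) with hS
  -- the images of the elements of `S` in the ring of Laurent polynomials
  let T : Subalgebra K (Laur K ι) := Subalgebra.map (pnSub K K ι (Cov.one a)).val S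
  have hr : ∀ j, (AddMonoidAlgebra.single (Pi.single j 1 - Pi.single a 1) 1 : Laur K ι) ∈ T := by
    intro j
    exact ⟨ratio K K (Cov.one a) a j (Finset.mem_singleton_self a),
      Algebra.subset_adjoin ⟨j, rfl⟩, rfl⟩
  have hpow : ∀ j (n : ℕ),
      (AddMonoidAlgebra.single (n • (Pi.single j 1 - Pi.single a 1)) 1 : Laur K ι) ∈ T := by
    intro j n
    have h1 := pow_mem (hr j) n
    rwa [AddMonoidAlgebra.single_pow, one_pow] at h1
  have hprod : ∀ (n : ι → ℕ) (s : Finset ι),
      (AddMonoidAlgebra.single (∑ j ∈ s, n j • (Pi.single j 1 - Pi.single a 1)) 1 : Laur K ι) ∈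
        T := by
    intro n s
    induction s using Finset.induction_on with
    | empty =>
      rw [Finset.sum_empty]
      exact one_mem T
    | insert j s hj ih =>
      rw [Finset.sum_insert hj]
      have h1 := mul_mem (hpow j (n j)) ih
      rwa [AddMonoidAlgebra.single_mul_single, one_mul] at h1
  have hexp : ∀ e : ι → ℤ, e ∈ expo (Cov.one a) →
      ∑ j ∈ Finset.univ.erase a, (e j).toNat • (Pi.single j 1 - Pi.single a 1 : ι → ℤ) = e := by
    intro e he
    obtain ⟨h0, h1⟩ := he
    have h1' : ∀ j, j ≠ a → 0 ≤ e j := by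
      intro j hj
      apply h1
      simpa [Cov.one] using hj
    funext k
    rw [Finset.sum_apply]
    by_cases hk : k = a
    · subst hk
      have h2 : ∀ j ∈ Finset.univ.erase k,
          ((e j).toNat • (Pi.single j 1 - Pi.single k 1 : ι → ℤ)) k = - e j := by
        intro j hj
        have hjk : j ≠ k := (Finset.mem_erase.1 hj).1
        simp only [Pi.smul_apply, Pi.sub_apply, Pi.single_eq_same, nsmul_eq_mul,
          Pi.single_eq_of_ne (Ne.symm hjk), Int.toNat_of_nonneg (h1' j hjk)]
        ring
      rw [Finset.sum_congr rfl h2, Finset.sum_neg_distrib]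
      rw [← Finset.add_sum_erase Finset.univ e (Finset.mem_univ k)] at h0
      linarith
    · have hkm : k ∈ Finset.univ.erase a := Finset.mem_erase.2 ⟨hk, Finset.mem_univ k⟩
      rw [Finset.sum_eq_single_of_mem k hkm]
      · simp only [Pi.smul_apply, Pi.sub_apply, Pi.single_eq_same, nsmul_eq_mul,
          Pi.single_eq_of_ne hk, Int.toNat_of_nonneg (h1' k hk)]
        ring
      · intro j _ hjk
        simp only [Pi.smul_apply, Pi.sub_apply, nsmul_eq_mul,
          Pi.single_eq_of_ne hk, Pi.single_eq_of_ne (Ne.symm hjk)]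
        ring
  have hsingle : ∀ (e : ι → ℤ) (c : K), e ∈ expo (Cov.one a) →
      (AddMonoidAlgebra.single e c : Laur K ι) ∈ T := by
    intro e c he
    have h1 := T.smul_mem (hprod (fun j => (e j).toNat) (Finset.univ.erase a)) c
    rw [hexp e he, AddMonoidAlgebra.smul_single, smul_eq_mul, mul_one] at h1
    exact h1
  rw [eq_top_iff]
  intro f _
  let f' : pnSub K K ι (Cov.one a) := f
  have hf : (f' : Laur K ι) ∈ T := by
    have h1 := AddMonoidAlgebra.sum_coeff_single (f' : Laur K ι)
    rw [← h1]
    refine Subalgebra.sum_mem T fun e he => ?_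
    exact hsingle e _ (f'.2 e he)
  obtain ⟨g, hg, hgf⟩ := hf
  have h2 : g = f' := Subtype.ext hgf
  have h3 : f' ∈ S := h2 ▸ hg
  exact h3

end Pool.CRD
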