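import Pool.Agent.CRD.F2.Stmts

/-!
# CRD / F2: restrictions and intersections of the charts of the conic bundle
-/

open CategoryTheory AlgebraicGeometry Limits Opposite Polynomial TensorProduct

namespace Pool.CRD

namespace PXS_

lemma cov3 (k : Cov Bool) : k = ca ∨ k = cb ∨ k = cab := by
  obtain ⟨s, hs⟩ := k
  by_cases h1 : false ∈ s <;> by_cases h2 : true ∈ s
  · right; right
    apply Cov.ext'
    ext x
    cases x <;> simp [cab, h1, h2]
  · left
    apply Cov.ext'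
    ext x
    cases x <;> simp [ca, Cov.one, h1, h2]
  · right; left
    apply Cov.ext'
    ext x
    cases x <;> simp [cb, Cov.one, h1, h2]
  · exfalso
    obtain ⟨x, hx⟩ := hs
    cases x
    · exact h1 hx
    · exact h2 hx

section
variable {B F : Type} [CommRing B] [Field F] [Algebra B F] {A : Cov Bool → Subalgebra B F}
  {w x : F} {h : Cov Bool → F}

lemma amono (c : PCur A w x h) {s t : Cov Bool} (hst : t ≤ s) : A s ≤ A t := by
  have hab := c.ab
  rcases cov3 s with rfl | rfl | rfl <;> rcases cov3 t with rfl | rfl | rfl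
  · exact le_rfl
  · exfalso
    have h1 : false ∈ cb.s := hst (by simp [ca, Cov.one])
    simp [cb, Cov.one] at h1
  · rw [hab]; exact le_sup_left
  · exfalso
    have h1 : true ∈ ca.s := hst (by simp [cb, Cov.one])
    simp [ca, Cov.one] at h1
  · exact le_rfl
  · rw [hab]; exact le_sup_right
  · exfalso
    have h1 : true ∈ ca.s := hst (by simp [cab])
    simp [ca, Cov.one] at h1
  · exfalso
    have h1 : false ∈ cb.s := hst (by simp [cab])
    simp [cb, Cov.one] at h1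
  · exact le_rfl

lemma inf_ab : ca ⊓ cb = cab := by
  apply Cov.ext'
  ext b
  change b ∈ ca.s ∪ cb.s ↔ _
  cases b <;> simp [ca, cb, cab, Cov.one]

lemma asup (c : PCur A w x h) (s t : Cov Bool) : A (s ⊓ t) ≤ A s ⊔ A t := by
  have hab := c.ab
  have cab_le : ∀ u : Cov Bool, cab ≤ u := fun u b _ => Finset.mem_univ b
  have e1 : ∀ u : Cov Bool, cab ⊓ u = cab := fun u => inf_eq_left.2 (cab_le u)
  have e2 : ∀ u : Cov Bool, u ⊓ cab = cab := fun u => inf_eq_right.2 (cab_le u)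
  rcases cov3 s with rfl | rfl | rfl
  · rcases cov3 t with rfl | rfl | rfl
    · rw [inf_idem]; exact le_sup_left
    · rw [inf_ab, hab]
    · rw [e2]; exact le_sup_right
  · rcases cov3 t with rfl | rfl | rfl
    · rw [inf_comm, inf_ab, hab, sup_comm]
    · rw [inf_idem]; exact le_sup_left
    · rw [e2]; exact le_sup_right
  · rw [e1]; exact le_sup_left

end

lemma gens_mem {B E : Type} [CommRing B] [Field E] [Algebra B E] (R : Subalgebra B E)
    {p q p' q' η ζ : E} (p0 : p ≠ 0) (q0 : q ≠ 0) (p0' : p' ≠ 0) (q0' : q' ≠ 0) (hη : η ≠ 0)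
    (hp : p / p' ∈ R) (hp' : p' / p ∈ R) (hq : q / q' ∈ R) (n : Fin 4)
    (h : gX p' q' η ζ n ∈ R) : gX p q η ζ n ∈ R := by
  fin_cases n
  · have h1 : p' * η ∈ R := h
    change p * η ∈ R
    have e : p * η = p / p' * (p' * η) := by field_simp
    rw [e]
    exact mul_mem hp h1
  · have h1 : q' * ζ ∈ R := h
    change q * ζ ∈ R
    have e : q * ζ = q / q' * (q' * ζ) := by field_simp
    rw [e]
    exact mul_mem hq h1
  · have h1 : (p' * η)⁻¹ ∈ R := h
    change (p * η)⁻¹ ∈ R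
    have e : (p * η)⁻¹ = p' / p * (p' * η)⁻¹ := by field_simp
    rw [e]
    exact mul_mem hp' h1
  · have h1 : q' * ζ * (p' * η)⁻¹ ∈ R := h
    change q * ζ * (p * η)⁻¹ ∈ R
    have e : q * ζ * (p * η)⁻¹ = q / q' * (p' / p) * (q' * ζ * (p' * η)⁻¹) := by field_simp
    rw [e]
    exact mul_mem (mul_mem hq hp') h1

end PXS_

open PXS_

theorem pxs_proof : Stmt_PXS := by
  intro B F₁ F₂ L _ _ _ _ _ _ _ A₁ w₁ x₁ h₁ A₂ w₂ x₂ h₂ e₁ e₂ E _ _ ψ η ζ T
  have n₁ : ∀ i, ψ (e₁ (h₁ i)) ≠ 0 := fun i => by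
    rw [_root_.map_ne_zero, _root_.map_ne_zero]; exact T.c₁.h_ne i
  have n₂ : ∀ j, ψ (e₂ (h₂ j)) ≠ 0 := fun j => by
    rw [_root_.map_ne_zero, _root_.map_ne_zero]; exact T.c₂.h_ne j
  -- elements of the base charts
  have b₁ : ∀ (s : Ch3) (i : Cov Bool), s.i = i → ∀ a ∈ A₁ i, ψ (e₁ a) ∈
      CA (SA A₁ A₂ e₁ e₂) ψ (fun i => e₁ (h₁ i)) (fun j => e₂ (h₂ j)) η ζ s := by
    rintro s i rfl a ha
    exact (le_sup_left : (SA A₁ A₂ e₁ e₂ ⟨s.i, s.j⟩).map ψ ≤ _)
      ⟨_, (le_sup_left : (A₁ s.i).map e₁ ≤ _) ⟨a, ha, rfl⟩, rfl⟩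
  have b₂ : ∀ (s : Ch3) (j : Cov Bool), s.j = j → ∀ a ∈ A₂ j, ψ (e₂ a) ∈
      CA (SA A₁ A₂ e₁ e₂) ψ (fun i => e₁ (h₁ i)) (fun j => e₂ (h₂ j)) η ζ s := by
    rintro s j rfl a ha
    exact (le_sup_left : (SA A₁ A₂ e₁ e₂ ⟨s.i, s.j⟩).map ψ ≤ _)
      ⟨_, (le_sup_right : (A₂ s.j).map e₂ ≤ _) ⟨a, ha, rfl⟩, rfl⟩
  have bg : ∀ (s : Ch3) (n : Fin 4), n ∈ ixX s.k → gX (ψ (e₁ (h₁ s.i))) (ψ (e₂ (h₂ s.j))) η ζ n ∈
      CA (SA A₁ A₂ e₁ e₂) ψ (fun i => e₁ (h₁ i)) (fun j => e₂ (h₂ j)) η ζ s := by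
    intro s n hn
    exact (le_sup_right : Algebra.adjoin B _ ≤ CA (SA A₁ A₂ e₁ e₂) ψ (fun i => e₁ (h₁ i))
      (fun j => e₂ (h₂ j)) η ζ s) (Algebra.subset_adjoin ⟨n, hn, rfl⟩)
  have ixmono : ∀ {k k' : Cov Bool}, k' ≤ k → ixX k ⊆ ixX k' := by
    rintro k k' hk n (⟨h, h'⟩ | ⟨h, h'⟩)
    · exact Or.inl ⟨hk h, h'⟩
    · exact Or.inr ⟨hk h, h'⟩
  refine ⟨?_, ?_⟩
  · intro s t hst
    refine sup_le ?_ ?_
    · refine le_sup_of_le_left (Subalgebra.map_mono ?_)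
      exact sup_le_sup (Subalgebra.map_mono (amono T.c₁ hst.1))
        (Subalgebra.map_mono (amono T.c₂ hst.2.1))
    · rw [Algebra.adjoin_le_iff]
      rintro _ ⟨n, hn, rfl⟩
      refine gens_mem _ (n₁ s.i) (n₂ s.j) (n₁ t.i) (n₂ t.j) T.η_ne ?_ ?_ ?_ n
        (bg t n (ixmono hst.2.2 hn))
      · have := b₁ t _ rfl _ (T.c₁.h_div hst.1).1
        simpa only [map_div₀] using this
      · have := b₁ t _ rfl _ (T.c₁.h_div hst.1).2
        simpa only [map_div₀] using this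
      · have := b₂ t _ rfl _ (T.c₂.h_div hst.2.1).1
        simpa only [map_div₀] using this
  · intro s t
    set R := CA (SA A₁ A₂ e₁ e₂) ψ (fun i => e₁ (h₁ i)) (fun j => e₂ (h₂ j)) η ζ s ⊔
      CA (SA A₁ A₂ e₁ e₂) ψ (fun i => e₁ (h₁ i)) (fun j => e₂ (h₂ j)) η ζ t with hR
    have r₁ : ∀ a ∈ A₁ (s.i ⊓ t.i), ψ (e₁ a) ∈ R := by
      have h1 : (A₁ (s.i ⊓ t.i)).map (ψ.comp e₁) ≤ R := by
        refine (Subalgebra.map_mono (asup T.c₁ s.i t.i)).trans ?_
        rw [Algebra.map_sup]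
        refine sup_le_sup ?_ ?_
        · rintro _ ⟨a, ha, rfl⟩
          exact b₁ s _ rfl a ha
        · rintro _ ⟨a, ha, rfl⟩
          exact b₁ t _ rfl a ha
      intro a ha
      exact h1 ⟨a, ha, rfl⟩
    have r₂ : ∀ a ∈ A₂ (s.j ⊓ t.j), ψ (e₂ a) ∈ R := by
      have h1 : (A₂ (s.j ⊓ t.j)).map (ψ.comp e₂) ≤ R := by
        refine (Subalgebra.map_mono (asup T.c₂ s.j t.j)).trans ?_
        rw [Algebra.map_sup]
        refine sup_le_sup ?_ ?_
        · rintro _ ⟨a, ha, rfl⟩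
          exact b₂ s _ rfl a ha
        · rintro _ ⟨a, ha, rfl⟩
          exact b₂ t _ rfl a ha
      intro a ha
      exact h1 ⟨a, ha, rfl⟩
    refine sup_le ?_ ?_
    · unfold SA
      rw [Algebra.map_sup, Subalgebra.map_map, Subalgebra.map_map]
      refine sup_le ?_ ?_
      · rintro _ ⟨a, ha, rfl⟩
        exact r₁ a ha
      · rintro _ ⟨a, ha, rfl⟩
        exact r₂ a ha
    · rw [Algebra.adjoin_le_iff]
      rintro _ ⟨n, hn, rfl⟩
      have hk : n ∈ ixX s.k ∨ n ∈ ixX t.k := by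
        rcases hn with ⟨h, h'⟩ | ⟨h, h'⟩
        · rcases Finset.mem_union.1 h with h | h
          · exact Or.inl (Or.inl ⟨h, h'⟩)
          · exact Or.inr (Or.inl ⟨h, h'⟩)
        · rcases Finset.mem_union.1 h with h | h
          · exact Or.inl (Or.inr ⟨h, h'⟩)
          · exact Or.inr (Or.inr ⟨h, h'⟩)
      rcases hk with hk | hk
      · refine gens_mem R (n₁ _) (n₂ _) (n₁ s.i) (n₂ s.j) T.η_ne ?_ ?_ ?_ n
          ((le_sup_left : _ ≤ R) (bg s n hk))
        · have := r₁ _ (T.c₁.h_div (inf_le_left : s.i ⊓ t.i ≤ s.i)).2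
          simp only [map_div₀] at this
          exact this
        · have := r₁ _ (T.c₁.h_div (inf_le_left : s.i ⊓ t.i ≤ s.i)).1
          simp only [map_div₀] at this
          exact this
        · have := r₂ _ (T.c₂.h_div (inf_le_left : s.j ⊓ t.j ≤ s.j)).2
          simp only [map_div₀] at this
          exact this
      · refine gens_mem R (n₁ _) (n₂ _) (n₁ t.i) (n₂ t.j) T.η_ne ?_ ?_ ?_ n
          ((le_sup_right : _ ≤ R) (bg t n hk))
        · have := r₁ _ (T.c₁.h_div (inf_le_right : s.i ⊓ t.i ≤ t.i)).2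
          simp only [map_div₀] at this
          exact this
        · have := r₁ _ (T.c₁.h_div (inf_le_right : s.i ⊓ t.i ≤ t.i)).1
          simp only [map_div₀] at this
          exact this
        · have := r₂ _ (T.c₂.h_div (inf_le_right : s.j ⊓ t.j ≤ t.j)).2
          simp only [map_div₀] at this
          exact this

end Pool.CRD
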