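import Pool.Agent.CRD.F2.Stmts

/-!
# CRD / F2: valuation rings of the function field of the conic bundle
-/

open CategoryTheory AlgebraicGeometry Limits Opposite Polynomial TensorProduct

namespace Pool.CRD

namespace PXV_

/-- a valuation ring over `B` as a `B`-subalgebra -/
def vsub {B L : Type} [CommRing B] [Field L] [Algebra B L] (V : ValuationSubring L)
    (hV : ∀ b : B, algebraMap B L b ∈ V) : Subalgebra B L where
  carrier := V
  mul_mem' ha hb := mul_mem ha hb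
  add_mem' ha hb := add_mem ha hb
  algebraMap_mem' b := hV b

lemma valc {B F L : Type} [CommRing B] [Field F] [Algebra B F] [Field L] [Algebra B L]
    {A : Cov Bool → Subalgebra B F} {w x : F} {h : Cov Bool → F} (c : PCur A w x h)
    (e : F →ₐ[B] L) (V : ValuationSubring L) (hV : ∀ b : B, algebraMap B L b ∈ V) :
    ∃ i : Cov Bool, (A i).map e ≤ vsub V hV := by
  have h1 := c.val (V.comap (e : F →+* L)) (fun b => by
    rw [ValuationSubring.mem_comap]
    change e (algebraMap B F b) ∈ V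
    rw [AlgHom.commutes]
    exact hV b)
  have key : ∀ i, (∀ a ∈ A i, a ∈ V.comap (e : F →+* L)) → (A i).map e ≤ vsub V hV := by
    intro i hi
    rintro _ ⟨a, ha, rfl⟩
    exact hi a ha
  rcases h1 with h1 | h1
  · exact ⟨ca, key ca h1⟩
  · exact ⟨cb, key cb h1⟩

lemma mem_of_sq {L : Type} [Field L] (V : ValuationSubring L) {a : L} (h : a ^ 2 ∈ V) :
    a ∈ V := by
  rcases V.mem_or_inv_mem a with h1 | h1
  · exact h1
  · by_cases ha : a = 0
    · rw [ha]; exact zero_mem V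
    · have h2 := mul_mem h h1
      have h3 : a ^ 2 * a⁻¹ = a := by
        field_simp
      rwa [h3] at h2

end PXV_

open PXV_

theorem pxv_proof : Stmt_PXV := by
  intro B F₁ F₂ L _ _ _ _ _ _ _ A₁ w₁ x₁ h₁ A₂ w₂ x₂ h₂ e₁ e₂ E _ _ ψ η ζ T V hV
  obtain ⟨i, hi⟩ := valc T.c₁ (ψ.comp e₁) V hV
  obtain ⟨j, hj⟩ := valc T.c₂ (ψ.comp e₂) V hV
  have hbase : (SA A₁ A₂ e₁ e₂ ⟨i, j⟩).map ψ ≤ vsub V hV := by
    unfold SA
    rw [Algebra.map_sup, Subalgebra.map_map, Subalgebra.map_map]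
    exact sup_le hi hj
  have m₁ : ∀ a ∈ A₁ i, ψ (e₁ a) ∈ V := fun a ha => hi ⟨a, ha, rfl⟩
  have m₂ : ∀ a ∈ A₂ j, ψ (e₂ a) ∈ V := fun a ha => hj ⟨a, ha, rfl⟩
  set p := ψ (e₁ (h₁ i)) with hp
  set q := ψ (e₂ (h₂ j)) with hq
  have p0 : p ≠ 0 := by
    rw [hp, _root_.map_ne_zero, _root_.map_ne_zero]; exact T.c₁.h_ne i
  have q0 : q ≠ 0 := by
    rw [hq, _root_.map_ne_zero, _root_.map_ne_zero]; exact T.c₂.h_ne j
  have x10 : ψ (e₁ x₁) ≠ 0 := by
    rw [_root_.map_ne_zero, _root_.map_ne_zero]; exact T.c₁.x_ne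
  have x20 : ψ (e₂ x₂) ≠ 0 := by
    rw [_root_.map_ne_zero, _root_.map_ne_zero]; exact T.c₂.x_ne
  have hη := T.η_ne
  have eqn := T.eqn
  have u1 : ψ (e₁ x₁) / p ^ 2 ∈ V := by
    have := m₁ _ (T.c₁.u_mem i)
    simpa only [map_div₀, map_pow] using this
  have u2 : (ψ (e₁ x₁) / p ^ 2)⁻¹ ∈ V := by
    have := m₁ _ (T.c₁.uinv_mem i)
    simpa only [map_div₀, map_pow, map_inv₀] using this
  have v1 : ψ (e₂ x₂) / q ^ 2 ∈ V := by
    have := m₂ _ (T.c₂.u_mem j)
    simpa only [map_div₀, map_pow] using this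
  have v2 : (ψ (e₂ x₂) / q ^ 2)⁻¹ ∈ V := by
    have := m₂ _ (T.c₂.uinv_mem j)
    simpa only [map_div₀, map_pow, map_inv₀] using this
  rcases V.mem_or_inv_mem (p * η) with h | h
  · have hz : q * ζ ∈ V := by
      apply mem_of_sq
      have h3 : (q * ζ) ^ 2 = (ψ (e₂ x₂) / q ^ 2)⁻¹ *
          (1 - ψ (e₁ x₁) / p ^ 2 * (p * η) ^ 2) := by
        have h4 : ψ (e₂ x₂) * ζ ^ 2 = 1 - ψ (e₁ x₁) * η ^ 2 := by
          rw [← eqn]; ring
        have h5 : ψ (e₁ x₁) / p ^ 2 * (p * η) ^ 2 = ψ (e₁ x₁) * η ^ 2 := by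
          field_simp
        rw [h5, ← h4]
        field_simp
      rw [h3]
      exact mul_mem v2 (sub_mem (one_mem _) (mul_mem u1 (pow_mem h 2)))
    refine ⟨⟨i, j, ca⟩, ?_⟩
    intro x hx
    have hle : CA (SA A₁ A₂ e₁ e₂) ψ (fun i => e₁ (h₁ i)) (fun j => e₂ (h₂ j)) η ζ ⟨i, j, ca⟩ ≤
        vsub V hV := by
      refine sup_le hbase ?_
      rw [Algebra.adjoin_le_iff]
      rintro _ ⟨n, hn, rfl⟩
      change gX p q η ζ n ∈ V
      have h1 : n < 2 := by
        rcases hn with hn | hn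
        · exact hn.2
        · have := hn.1
          simp [ca, Cov.one] at this
      fin_cases n
      · exact h
      · exact hz
      · exact absurd h1 (by decide)
      · exact absurd h1 (by decide)
    exact hle hx
  · have hz : q * ζ * (p * η)⁻¹ ∈ V := by
      apply mem_of_sq
      have h3 : (q * ζ * (p * η)⁻¹) ^ 2 = (ψ (e₂ x₂) / q ^ 2)⁻¹ *
          ((p * η)⁻¹ ^ 2 - ψ (e₁ x₁) / p ^ 2) := by
        have h4 : ψ (e₂ x₂) * ζ ^ 2 = 1 - ψ (e₁ x₁) * η ^ 2 := by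
          rw [← eqn]; ring
        have h5 : (p * η)⁻¹ ^ 2 - ψ (e₁ x₁) / p ^ 2 =
            (1 - ψ (e₁ x₁) * η ^ 2) / (p * η) ^ 2 := by
          field_simp
        rw [h5, ← h4]
        field_simp
      rw [h3]
      exact mul_mem v2 (sub_mem (pow_mem h 2) u1)
    refine ⟨⟨i, j, cb⟩, ?_⟩
    intro x hx
    have hle : CA (SA A₁ A₂ e₁ e₂) ψ (fun i => e₁ (h₁ i)) (fun j => e₂ (h₂ j)) η ζ ⟨i, j, cb⟩ ≤
        vsub V hV := by
      refine sup_le hbase ?_
      rw [Algebra.adjoin_le_iff]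
      rintro _ ⟨n, hn, rfl⟩
      change gX p q η ζ n ∈ V
      have h1 : 2 ≤ n := by
        rcases hn with hn | hn
        · have := hn.1
          simp [cb, Cov.one] at this
        · exact hn.2
      fin_cases n
      · exact absurd h1 (by decide)
      · exact absurd h1 (by decide)
      · exact h
      · exact hz
    exact hle hx

end Pool.CRD
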