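import Pool.Agent.CRD.F2.Stmts

/-!
# CRD, area F2, module RSK: relative covers over a field
-/

open CategoryTheory AlgebraicGeometry Limits Opposite Polynomial TensorProduct

namespace Pool.CRD

theorem rsk : Stmt_RSK := by
  intro K _ X π ft C _ E _ _ A hA c
  exact ⟨{ toAffCov := c.toAffCov
           φ := c.φ
           φ_map := fun h r => c.φ_map h r
           φ_cst := fun s k => c.φ_cst s k }⟩

end Pool.CRD
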