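import Pool.Agent.CRD.F2.Stmts

/-!
# CRD, area F2, module SM1: smoothness of the rings of functions
-/

open CategoryTheory AlgebraicGeometry Limits Opposite Polynomial TensorProduct

namespace Pool.CRD

theorem sm1 : Stmt_SM1 := by
  intro K _ Y C _ c hY s
  have h1 := hY.smooth_appLE (isAffineOpen_top _) (c.aff s) le_top
  have h3 : (cstU Y.f (c.opn s)).Smooth := by
    have h4 : cstU Y.f (c.opn s) = (Y.f.appLE ⊤ (c.opn s) le_top).hom.comp
        (Scheme.ΓSpecIso (CommRingCat.of K)).inv.hom := rfl
    rw [h4]
    refine RingHom.Smooth.comp (RingHom.Smooth.of_bijective ?_) h1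
    exact (ConcreteCategory.isIso_iff_bijective (Scheme.ΓSpecIso (CommRingCat.of K)).inv).1
      inferInstance
  exact h3

end Pool.CRD
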