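import Pool.Agent.CRD.F2.Stmts

/-!
# CRD, area F2, module SMC: smoothness on charts
-/

open CategoryTheory AlgebraicGeometry Limits Opposite Polynomial TensorProduct

namespace Pool.CRD

theorem smc_proof : Stmt_SMC := by
  intro B _ X π C _ E _ _ A hA c hs
  refine HasRingHomProperty.of_iSup_eq_top (P := @AlgebraicGeometry.Smooth)
    (fun s => (⟨c.opn s, c.aff s⟩ : X.affineOpens)) c.cov fun s => ?_
  have h1 : (algebraMap B (A s)).Smooth := RingHom.smooth_algebraMap.2 (hs s)
  have h2 : ((c.φ s).toRingHom.comp (algebraMap B (A s))).Smooth :=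
    h1.comp (RingHom.Smooth.of_bijective (c.φ s).bijective)
  have h3 : (c.φ s).toRingHom.comp (algebraMap B (A s)) = cstB π (c.opn s) :=
    RingHom.ext fun b => c.φ_cst s b
  rw [h3] at h2
  have h4 : (π.appLE ⊤ (c.opn s) le_top).hom =
      (cstB π (c.opn s)).comp (Scheme.ΓSpecIso (CommRingCat.of B)).hom.hom := by
    change (π.appTop ≫ X.presheaf.map (homOfLE le_top).op).hom = _
    rw [cstB, RingHom.comp_assoc, ← CommRingCat.hom_comp, Iso.hom_inv_id]
    rfl
  change (π.appLE ⊤ (c.opn s) le_top).hom.Smooth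
  rw [h4]
  refine RingHom.Smooth.comp (RingHom.Smooth.of_bijective ?_) h2
  exact (ConcreteCategory.isIso_iff_bijective (Scheme.ΓSpecIso (CommRingCat.of B)).hom).1
    inferInstance

end Pool.CRD
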