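import Pool.Agent.CRD.F2.Stmts

/-!
# CRD, area F2: module ZSU (the surface)
-/

open CategoryTheory AlgebraicGeometry Limits Opposite Polynomial TensorProduct

namespace Pool.CRD

noncomputable section

namespace ZSU_

lemma smooth_fst {B E' E'' : Type} [CommRing B] [CommRing E'] [CommRing E''] [Algebra B E']
    [Algebra B E''] (J : Subalgebra B (E' × E'')) (hs : Algebra.Smooth B J)
    (hi : ∀ p ∈ J, p.1 = 0 → p = 0) :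
    Algebra.Smooth B (J.map (AlgHom.fst B E' E'')) := by
  let f : J →ₐ[B] (J.map (AlgHom.fst B E' E'')) :=
    ((AlgHom.fst B E' E'').comp J.val).codRestrict _ (fun x => ⟨x.1, x.2, rfl⟩)
  have hf : Function.Bijective f := by
    constructor
    · rw [injective_iff_map_eq_zero]
      intro x hx
      have h1 : (x : E' × E'').1 = 0 := congrArg Subtype.val hx
      exact Subtype.ext (hi x x.2 h1)
    · rintro ⟨_, x, hx, rfl⟩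
      exact ⟨⟨x, hx⟩, rfl⟩
  exact Algebra.Smooth.of_equiv (AlgEquiv.ofBijective f hf)

end ZSU_

open ZSU_ in
theorem zsu_proof (hCBA : Stmt_CBA) (hACF : Stmt_ACF) (hCPD : Stmt_CPD) (hCFM : Stmt_CFM)
    (hGSS : Stmt_GSS) (hJFS : Stmt_JFS) (hPDS : Stmt_PDS) (hPJM : Stmt_PJM) (hSMC : Stmt_SMC)
    (hPFT : Stmt_PFT) (hRSK : Stmt_RSK) (hDIM : Stmt_DIM) (hCEX : Stmt_CEX) : Stmt_ZSU := by
  intro K _ _ l₁ l₂ H₁ H₂ p₁ p₂ S h₁ h₂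
  obtain ⟨T⟩ := hCEX K _ _ S
  have pc1 : PCur (B := K) (AC K (algebraMap K H₁.F l₁) H₁.z H₁.y)
      (wC (algebraMap K H₁.F l₁) H₁.z) H₁.z (hC H₁.z H₁.y) :=
    hCPD K H₁.F l₁ H₁.z H₁.y h₁ (hCBA K _ H₁)
  have pc2 : PCur (B := K) (AC K (algebraMap K H₂.F l₂) H₂.z H₂.y)
      (wC (algebraMap K H₂.F l₂) H₂.z) H₂.z (hC H₂.z H₂.y) :=
    hCPD K H₂.F l₂ H₂.z H₂.y h₂ (hCBA K _ H₂)
  obtain ⟨hm, ι, _, σ, m, hd⟩ := hPDS K H₁.F H₂.F S.L _ _ _ _ _ _ _ _ S.e₁ S.e₂ pc1 pc2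
  have : Nonempty Ch2 := ⟨⟨ca, ca⟩⟩
  obtain ⟨X, π, hproj, hint, ⟨rc⟩⟩ := hPJM K S.L Ch2 _ hm ι σ m hd
  have ft : LocallyOfFiniteType π := (hPFT K X π hproj).1
  have hm' : ∀ {s t : Ch2}, t ≤ s → S.A s.i s.j ≤ S.A t.i t.j := fun h => S.A_mono h.1 h.2
  have rc' : RelCov π (fun s : Ch2 => S.A s.i s.j) hm' := rc
  obtain ⟨sc⟩ := hRSK K X π ft Ch2 S.L (fun s : Ch2 => S.A s.i s.j) hm' rc'
  have hsm : ∀ s : Ch2, Algebra.Smooth K (S.A s.i s.j) := by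
    intro s
    have hcf1 := hCFM K K K l₁ h₁ Function.injective_id H₁ H₁ p₁ p₁
    have hcf2 := hCFM K K K l₂ h₂ Function.injective_id H₂ H₂ p₂ p₂
    have g := (hGSS K K K (H₁.cd p₁) (H₂.cd p₂) (H₁.cd p₁) (H₂.cd p₂) _ _ S S h₁.two
      Function.injective_id hcf1 hcf2).1 s
    have h3 := smooth_fst _ g.smooth g.inj
    have h4 := (hJFS K K K (H₁.cd p₁) (H₂.cd p₂) (H₁.cd p₁) (H₂.cd p₂)
      (AC K (algebraMap K (H₁.F × H₁.F) l₁) (H₁.z, H₁.z) (H₁.y, H₁.y))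
      (AC K (algebraMap K (H₂.F × H₂.F) l₂) (H₂.z, H₂.z) (H₂.y, H₂.y)) S S T T).1 s
    have e1 : (fun i => (AC K (algebraMap K (H₁.F × H₁.F) l₁) (H₁.z, H₁.z) (H₁.y, H₁.y) i).map
        (AlgHom.fst K H₁.F H₁.F)) = AC K (algebraMap K H₁.F l₁) H₁.z H₁.y :=
      funext fun i => (hACF K H₁.F H₁.F l₁ _ _ _ _ i).1
    have e2 : (fun i => (AC K (algebraMap K (H₂.F × H₂.F) l₂) (H₂.z, H₂.z) (H₂.y, H₂.y) i).map
        (AlgHom.fst K H₂.F H₂.F)) = AC K (algebraMap K H₂.F l₂) H₂.z H₂.y :=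
      funext fun i => (hACF K H₂.F H₂.F l₂ _ _ _ _ i).1
    have h5 : SA (AC K (algebraMap K H₁.F l₁) H₁.z H₁.y) (AC K (algebraMap K H₂.F l₂) H₂.z H₂.y)
        (S.e₁.restrictScalars K) (S.e₂.restrictScalars K) s = S.A s.i s.j := rfl
    rw [← h5, ← e1, ← e2]
    rw [← h4]
    exact h3
  refine ⟨⟨X, π, ft⟩, ?_, hproj, hint, ?_, ⟨sc⟩⟩
  · exact hSMC K X π Ch2 S.L (fun s : Ch2 => S.A s.i s.j) hm' rc' hsm
  · exact hDIM K _ _ S ⟨X, π, ft⟩ sc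

end

end Pool.CRD
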