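import Pool.Agent.CRD.Crv.ACF
import Pool.Agent.CRD.Crv.CAB
import Pool.Agent.CRD.Crv.CBA
import Pool.Agent.CRD.Crv.CDE
import Pool.Agent.CRD.Crv.CET
import Pool.Agent.CRD.Crv.CEX
import Pool.Agent.CRD.Crv.CFM
import Pool.Agent.CRD.Crv.CG1
import Pool.Agent.CRD.Crv.CG2
import Pool.Agent.CRD.Crv.CG3
import Pool.Agent.CRD.Crv.CHP
import Pool.Agent.CRD.Crv.CIN
import Pool.Agent.CRD.Crv.CPD
import Pool.Agent.CRD.Crv.CPR
import Pool.Agent.CRD.Crv.CTR
import Pool.Agent.CRD.Crv.CVA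
import Pool.Agent.CRD.Crv.DDK
import Pool.Agent.CRD.Crv.DEX
import Pool.Agent.CRD.Crv.DIV
import Pool.Agent.CRD.Crv.DLO
import Pool.Agent.CRD.Crv.DMO
import Pool.Agent.CRD.Crv.DMP
import Pool.Agent.CRD.Crv.DTI
import Pool.Agent.CRD.Crv.FRL
import Pool.Agent.CRD.Crv.FRQ
import Pool.Agent.CRD.Crv.FRT
import Pool.Agent.CRD.Crv.GCA
import Pool.Agent.CRD.Crv.GCB
import Pool.Agent.CRD.Crv.GCC
import Pool.Agent.CRD.Crv.GLO
import Pool.Agent.CRD.Crv.GSS
import Pool.Agent.CRD.Crv.GTN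
import Pool.Agent.CRD.Crv.GX0
import Pool.Agent.CRD.Crv.GX1
import Pool.Agent.CRD.Crv.GXX
import Pool.Agent.CRD.Crv.JFS
import Pool.Agent.CRD.Crv.JMO
import Pool.Agent.CRD.Crv.MGD
import Pool.Agent.CRD.Crv.NSO
import Pool.Agent.CRD.Crv.NSS
import Pool.Agent.CRD.Crv.SEX
import Pool.Agent.CRD.Crv.SMQ
import Pool.Agent.CRD.Crv.SQF
import Pool.Agent.CRD.Crv.XCA
import Pool.Agent.CRD.F2.AV1
import Pool.Agent.CRD.F2.AV2
import Pool.Agent.CRD.F2.AV3
import Pool.Agent.CRD.F2.AV4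
import Pool.Agent.CRD.F2.BCH
import Pool.Agent.CRD.F2.BCJ
import Pool.Agent.CRD.F2.CH1
import Pool.Agent.CRD.F2.DIM
import Pool.Agent.CRD.F2.DM1
import Pool.Agent.CRD.F2.DM2
import Pool.Agent.CRD.F2.F2A
import Pool.Agent.CRD.F2.F2B
import Pool.Agent.CRD.F2.FAM
import Pool.Agent.CRD.F2.FN1
import Pool.Agent.CRD.F2.GMF
import Pool.Agent.CRD.F2.INT
import Pool.Agent.CRD.F2.PC1
import Pool.Agent.CRD.F2.PDS
import Pool.Agent.CRD.F2.PDX
import Pool.Agent.CRD.F2.PFT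
import Pool.Agent.CRD.F2.PJA
import Pool.Agent.CRD.F2.PJC
import Pool.Agent.CRD.F2.PJD
import Pool.Agent.CRD.F2.PJE
import Pool.Agent.CRD.F2.PJF
import Pool.Agent.CRD.F2.PJM
import Pool.Agent.CRD.F2.PN1
import Pool.Agent.CRD.F2.PN2
import Pool.Agent.CRD.F2.PXS
import Pool.Agent.CRD.F2.PXV
import Pool.Agent.CRD.F2.RSK
import Pool.Agent.CRD.F2.SM1
import Pool.Agent.CRD.F2.SMC
import Pool.Agent.CRD.F2.ZSU
import Pool.Agent.CRD.E.E1N

/-!
# CRD, areas CRV and F2: assembly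
-/

namespace Pool.CRD.Cf2

/-! ### area CRV -/

theorem hCAB : Stmt_CAB := cab_proof cba_proof
theorem hDMO : Stmt_DMO := dmo_proof cba_proof
theorem hCPD : Stmt_CPD := cpd_proof cet_proof cva_proof chp_proof pf_ACF
theorem hCDE : Stmt_CDE := cde_proof cba_proof hDMO hCAB sqf_proof ddk_proof DLO_proof
theorem hCIN : Stmt_CIN := cin_proof cba_proof
theorem hCTR : Stmt_CTR := ctr_proof cba_proof
theorem hCPR : Stmt_CPR := cpr_proof cba_proof chp_proof pf_ACF hCAB hCIN hCTR hCDE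
theorem hCG2 : Stmt_CG2 := cg2_proof cba_proof hCAB
theorem hCG3 : Stmt_CG3 := cg3_proof cba_proof hCAB
theorem hCG1 : Stmt_CG1 := cg1_proof hCG2 hCG3
theorem hSEX : Stmt_SEX := SEX_proof dex_proof nso_proof dmp_proof dti_proof
theorem hCEX : Stmt_CEX := cex_proof dex_proof nss_proof
theorem hGLO : Stmt_GLO := GLO_proof frl_proof mgd_proof
theorem hGCA : Stmt_GCA := gca_proof cba_proof hDMO frq_proof frl_proof smq_proof mgd_proof
theorem hGCB : Stmt_GCB := gcb_proof cba_proof frq_proof frl_proof smq_proof mgd_proof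
theorem hGCC : Stmt_GCC := gcc_proof cba_proof hCAB hGCB hGLO
theorem hCFM : Stmt_CFM := cfm_proof cba_proof chp_proof pf_ACF hCPD hGCA hGCB hGCC
theorem hGTN : Stmt_GTN := gtn_proof frt_proof mgd_proof
theorem hGSS : Stmt_GSS := GSS_proof hGTN xca_proof
theorem hGX0 : Stmt_GX0 := gx0_proof frq_proof smq_proof mgd_proof
theorem hGX1 : Stmt_GX1 := gx1_proof div_proof frq_proof smq_proof mgd_proof
theorem hGXX : Stmt_GXX := GXX_proof hGSS hGX0 hGX1 hGLO xca_proof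

/-! ### area F2 -/

theorem hPJM : Stmt_PJM := pjm pja_proof pjd_proof pjc_proof pje pjf
theorem hPDX : Stmt_PDX := pdx_proof pxv_proof pxs_proof
theorem hBCJ : Stmt_BCJ := bcj_proof bch_proof
theorem hDIM : Stmt_DIM := dim dm1_proof dm2_proof
theorem hAV3 : Stmt_AV3 := av3_proof pf_AV1 av2_proof
theorem hAV4 : Stmt_AV4 := av4 hAV3
theorem hPC1 : Stmt_PC1 := pc1_proof ch1_proof pn1_proof pn2_proof fn1_proof

theorem hFAM : Stmt_FAM := fam_proof cba_proof pf_ACF hCPD hCFM hGXX jmo_proof JFS_proof pxs_proof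
  hPDX hPJM hBCJ smc_proof pft hCPR dex_proof nso_proof hSEX hCEX

theorem hZSU : Stmt_ZSU := zsu_proof cba_proof pf_ACF hCPD hCFM hGSS JFS_proof pds_proof hPJM smc_proof
  pft rsk hDIM hCEX

/-- the statement F2a -/
theorem f2a : Stmt_F2a := f2a_proof hAV4 hPC1 sm1

/-- the statement F2b -/
theorem f2b : Stmt_F2b :=
  f2b_proof hFAM hZSU gmf int_proof hCPR hCG1 dex_proof nso_proof hSEX hCEX e1n_proof sp0_proof pft

end Pool.CRD.Cf2
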