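import Pool.Agent.CRD.F2.F2B

/-!
# CRD, area F2: the family over the affine curve `A^1 ∖ {0, 1}` over a field of characteristic zero
-/

open CategoryTheory AlgebraicGeometry Limits Opposite Polynomial TensorProduct

namespace Pool.CRD

noncomputable section

/-- the ring of functions of `A^1 ∖ {0, 1}` over `k` -/
abbrev RK (k : Type) [Field k] : Type := Localization.Away (X * (X - 1) : k[X])

/-- the family over `A^1 ∖ {0, 1}` -/
def Stmt_F2K : Prop :=
  ∀ (k : Type) [Field k] [CharZero k],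
  ∃ (E : Scheme.{0}) (π : E ⟶ Spec (CommRingCat.of (RK k)))
    (_ : AlgebraicGeometry.Smooth π), IsProjectiveOver π ∧
    (∀ s, AlgebraicGeometry.IsIntegral (geomFibre π s).X) ∧
    (∀ s, CharZero (AlgebraicClosure ((Spec (CommRingCat.of (RK k))).residueField s))) ∧
    ∃ s η : Spec (CommRingCat.of (RK k)), η ⤳ s ∧ GenFib (geomFibre π η) ∧
      SpecFib (geomFibre π s)

namespace F2K_

variable (k : Type) [Field k]

lemma ne0 : (X * (X - 1) : k[X]) ≠ 0 := by
  refine mul_ne_zero X_ne_zero ?_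
  simpa using X_sub_C_ne_zero (1 : k)

instance : IsDomain (RK k) :=
  IsLocalization.isDomain_localization (powers_le_nonZeroDivisors_of_noZeroDivisors (ne0 k))

/-- the parameter `t` -/
def tk : RK k := algebraMap k[X] (RK k) X

lemma u0 : IsUnit (tk k * (tk k - 1)) := by
  have h := IsLocalization.Away.algebraMap_isUnit (S := RK k) (X * (X - 1) : k[X])
  rwa [map_mul, map_sub, map_one] at h

variable [CharZero k]

lemma uN (n : ℕ) [n.AtLeastTwo] : IsUnit (OfNat.ofNat n : RK k) := by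
  have h : IsUnit (OfNat.ofNat n : k) := isUnit_iff_ne_zero.2 (OfNat.ofNat_ne_zero n)
  have := h.map (algebraMap k (RK k))
  rwa [map_ofNat] at this

lemma par4 : ParOK (4 : RK k) where
  two := uN k 2
  three := uN k 3
  l0 := uN k 4
  l1 := by
    have : (4 : RK k) - 1 = 3 := by norm_num
    rw [this]; exact uN k 3

lemma part : ParOK (tk k) where
  two := uN k 2
  three := uN k 3
  l0 := isUnit_of_mul_isUnit_left (u0 k)
  l1 := isUnit_of_mul_isUnit_right (u0 k)

variable {k}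

omit [CharZero k] in
lemma charZero_of [CharZero k] {K : Type} [Field K] (ρ : RK k →+* K) : CharZero K := by
  have : Function.Injective (ρ.comp (algebraMap k (RK k))) := RingHom.injective _
  exact charZero_of_injective_ringHom this

lemma transc {K : Type} [Field K] [CharZero K] (ρ : RK k →+* K) (hρ : Function.Injective ρ) :
    Transcendental ℚ (ρ (tk k)) := by
  rw [transcendental_iff]
  intro p hp
  have h1 : ∀ q : ℚ[X], aeval (ρ (tk k)) q =
      ρ (algebraMap k[X] (RK k) (q.map (algebraMap ℚ k))) := by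
    intro q
    induction q using Polynomial.induction_on' with
    | add p q hp hq =>
      rw [map_add, Polynomial.map_add, map_add, map_add, hp, hq]
    | monomial n a =>
      rw [aeval_monomial, Polynomial.map_monomial, ← C_mul_X_pow_eq_monomial, map_mul, map_mul,
        map_pow, map_pow]
      congr 1
      exact (RingHom.congr_fun (RingHom.ext_rat (algebraMap ℚ K)
        (((ρ.comp (algebraMap k[X] (RK k))).comp C).comp (algebraMap ℚ k))) a)
  rw [h1] at hp
  have h2 : algebraMap k[X] (RK k) (p.map (algebraMap ℚ k)) = 0 := hρ (by rw [hp, map_zero])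
  have h3 : p.map (algebraMap ℚ k) = 0 :=
    (IsLocalization.injective (RK k)
      (powers_le_nonZeroDivisors_of_noZeroDivisors (ne0 k))) (by rw [h2, map_zero])
  exact (Polynomial.map_eq_zero_iff (algebraMap ℚ k).injective).1 h3

variable (k) in
/-- the value at the point `t = 9` -/
def ev9 : RK k →+* k :=
  IsLocalization.Away.lift (S := RK k) (X * (X - 1) : k[X]) (g := evalRingHom (9 : k)) (by
    rw [isUnit_iff_ne_zero]
    simp only [coe_evalRingHom, eval_mul, eval_X, eval_sub, eval_one]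
    norm_num)

lemma ev9_tk : ev9 k (tk k) = 9 := by
  unfold ev9 tk
  rw [IsLocalization.Away.lift_eq]
  simp

end F2K_

open F2K_ in
theorem f2k_proof (hFAM : Stmt_FAM) (hZSU : Stmt_ZSU) (hGMF : Stmt_GMF) (hINT : Stmt_INT)
    (hCPR : Stmt_CPR) (hCG1 : Stmt_CG1) (hDEX : Stmt_DEX) (hNSO : Stmt_NSO) (hSEX : Stmt_SEX)
    (hCEX : Stmt_CEX) (hE1N : Stmt_E1N) (hSP0 : Stmt_SP0) : Stmt_F2K := by
  intro k _ _
  obtain ⟨E, π, hs, hp, hfib⟩ := hFAM (RK k) 4 (tk k) (par4 k) (part k)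
  have : AlgebraicGeometry.Smooth π := hs
  -- the fibres
  have key : ∀ s : Spec (CommRingCat.of (RK k)),
      ∃ ρ : RK k →+* AlgebraicClosure ((Spec (CommRingCat.of (RK k))).residueField s),
      (∀ b : RK k, ρ b = 0 ↔ b ∈ (show PrimeSpectrum (RK k) from s).asIdeal) ∧
      ∃ (H₁ : HypF (AlgebraicClosure ((Spec (CommRingCat.of (RK k))).residueField s)) (ρ 4))
        (H₂ : HypF (AlgebraicClosure ((Spec (CommRingCat.of (RK k))).residueField s)) (ρ (tk k)))
        (p₁ : CrvProps H₁) (p₂ : CrvProps H₂) (S : SurfData (H₁.cd p₁) (H₂.cd p₂))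
        (T : ConicData S), Nonempty (SchCov (geomFibre π s) T.R) := by
    intro s
    obtain ⟨ρ, hρ, hker⟩ := hGMF (RK k) E π s
    refine ⟨ρ, hker, ?_⟩
    rw [hρ]
    let i1 : Algebra (RK k) (AlgebraicClosure
        ((Spec (CommRingCat.of (RK k))).residueField s)) := ρ.toAlgebra
    have i2 : CharZero (AlgebraicClosure ((Spec (CommRingCat.of (RK k))).residueField s)) :=
      charZero_of ρ
    obtain ⟨H₁⟩ := F2B_.exH hDEX hNSO (ρ 4)
    obtain ⟨H₂⟩ := F2B_.exH hDEX hNSO (ρ (tk k))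
    have p₁ : CrvProps H₁ := hCPR _ _ H₁ (F2B_.parOK_map ρ (par4 k))
    have p₂ : CrvProps H₂ := hCPR _ _ H₂ (F2B_.parOK_map ρ (part k))
    obtain ⟨S⟩ := hSEX _ (H₁.cd p₁) _ H₂ p₂
    obtain ⟨T⟩ := hCEX _ _ _ S
    exact ⟨H₁, H₂, p₁, p₂, S, T, hfib _ H₁ H₂ p₁ p₂ S T⟩
  refine ⟨E, π, hs, hp, ?_, ?_, ?_⟩
  · intro s
    obtain ⟨ρ, -, H₁, H₂, p₁, p₂, S, T, ⟨c⟩⟩ := key s
    have : Nonempty Ch3 := ⟨⟨ca, ca, ca⟩⟩
    have hm : ∀ {s t : Ch3}, t ≤ s → T.A s.i s.j s.k ≤ T.A t.i t.j t.k :=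
      fun h => T.A_mono h.1 h.2.1 h.2.2
    exact hINT _ _ Ch3 T.E (fun s => T.A s.i s.j s.k) hm c
  · intro s
    obtain ⟨ρ, -⟩ := key s
    exact charZero_of ρ
  · let s : Spec (CommRingCat.of (RK k)) :=
      (⟨RingHom.ker (ev9 k), RingHom.ker_isPrime _⟩ : PrimeSpectrum (RK k))
    let η : Spec (CommRingCat.of (RK k)) := (⟨⊥, Ideal.isPrime_bot⟩ : PrimeSpectrum (RK k))
    refine ⟨s, η, ?_, ?_, ?_⟩
    · have : (⟨⊥, Ideal.isPrime_bot⟩ : PrimeSpectrum (RK k)) ≤
          ⟨RingHom.ker (ev9 k), RingHom.ker_isPrime _⟩ :=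
        bot_le (a := RingHom.ker (ev9 k))
      exact (PrimeSpectrum.le_iff_specializes _ _).1 this
    · obtain ⟨ρ, hker, H₁, H₂, p₁, p₂, S, T, hc⟩ := key η
      have i2 : CharZero (AlgebraicClosure ((Spec (CommRingCat.of (RK k))).residueField η)) :=
        charZero_of ρ
      have hinj : Function.Injective ρ := by
        rw [injective_iff_map_eq_zero]
        intro b hb
        exact (Submodule.mem_bot (RK k)).1 ((hker b).1 hb)
      refine ⟨H₁.cd p₁, H₂.cd p₂, S, T, hc, hCG1 _ _ H₁ p₁ (F2B_.parOK_map ρ (par4 k)),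
        hCG1 _ _ H₂ p₂ (F2B_.parOK_map ρ (part k)), ?_⟩
      exact F2B_.e1n' hE1N (map_ofNat ρ 4) (transc ρ hinj) H₁ H₂ p₁ p₂ S
    · obtain ⟨ρ, hker, H₁, H₂, p₁, p₂, S, T, hc⟩ := key s
      have i2 : CharZero (AlgebraicClosure ((Spec (CommRingCat.of (RK k))).residueField s)) :=
        charZero_of ρ
      have h9 : ρ (tk k) = 9 := by
        have h := (hker (tk k - 9)).2 (by
          change tk k - 9 ∈ RingHom.ker (ev9 k)
          rw [RingHom.mem_ker, map_sub, ev9_tk, map_ofNat, sub_self])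
        rw [map_sub, map_ofNat, sub_eq_zero] at h
        exact h
      refine ⟨H₁.cd p₁, H₂.cd p₂, S, T, hc,
        F2B_.sp0' hSP0 (map_ofNat ρ 4) h9 H₁ H₂ p₁ p₂ S, ?_⟩
      exact hZSU _ _ _ H₁ H₂ p₁ p₂ S (F2B_.parOK_map ρ (par4 k)) (F2B_.parOK_map ρ (part k))

end

end Pool.CRD
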